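import Pool.Agent.Work.MP_429976_an.LA1

/-!
Linear algebra for problem MP_429976_an: complex eigenvectors.
-/

namespace Pool.Agent.Work.MP_429976_an

open Filter Topology Set Module Matrix

/-- the complexified matrix -/
noncomputable def cm {c : ℕ} (A : (Fin c → ℝ) →L[ℝ] (Fin c → ℝ)) : Matrix (Fin c) (Fin c) ℂ :=
  (LinearMap.toMatrix' (A : (Fin c → ℝ) →ₗ[ℝ] (Fin c → ℝ))).map (algebraMap ℝ ℂ)

theorem re_cm {c : ℕ} (A : (Fin c → ℝ) →L[ℝ] (Fin c → ℝ)) (v : Fin c → ℂ) :
    A (fun i => (v i).re) = fun i => ((cm A *ᵥ v) i).re := by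
  have h : A (fun i => (v i).re) =
      (LinearMap.toMatrix' (A : (Fin c → ℝ) →ₗ[ℝ] (Fin c → ℝ))) *ᵥ (fun i => (v i).re) := by
    rw [LinearMap.toMatrix'_mulVec]; rfl
  rw [h]
  funext i
  simp only [Matrix.mulVec, dotProduct, cm, Matrix.map_apply, Complex.re_sum]
  refine Finset.sum_congr rfl fun j _ => ?_
  simp

theorem im_cm {c : ℕ} (A : (Fin c → ℝ) →L[ℝ] (Fin c → ℝ)) (v : Fin c → ℂ) :
    A (fun i => (v i).im) = fun i => ((cm A *ᵥ v) i).im := by
  have h : A (fun i => (v i).im) =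
      (LinearMap.toMatrix' (A : (Fin c → ℝ) →ₗ[ℝ] (Fin c → ℝ))) *ᵥ (fun i => (v i).im) := by
    rw [LinearMap.toMatrix'_mulVec]; rfl
  rw [h]
  funext i
  simp only [Matrix.mulVec, dotProduct, cm, Matrix.map_apply, Complex.im_sum]
  refine Finset.sum_congr rfl fun j _ => ?_
  simp

theorem cm_real {c : ℕ} (A : (Fin c → ℝ) →L[ℝ] (Fin c → ℝ)) (u : Fin c → ℝ) :
    cm A *ᵥ (fun i => (u i : ℂ)) = fun i => ((A u i : ℝ) : ℂ) := by
  have h1 := re_cm A (fun i => (u i : ℂ))
  have h2 := im_cm A (fun i => (u i : ℂ))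
  simp only [Complex.ofReal_re, Complex.ofReal_im] at h1 h2
  funext i
  apply Complex.ext
  · have := congrFun h1 i
    simpa using this.symm
  · have := congrFun h2 i
    have h3 : A (fun _ => 0) = 0 := map_zero A
    rw [h3] at this
    simpa using this.symm

theorem cm_pow_real {c : ℕ} (A : (Fin c → ℝ) →L[ℝ] (Fin c → ℝ)) (k : ℕ) (u : Fin c → ℝ) :
    (cm A ^ k) *ᵥ (fun i => (u i : ℂ)) = fun i => (((A ^ k) u i : ℝ) : ℂ) := by
  induction k with
  | zero => simp
  | succ k ih =>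
    rw [pow_succ', ← Matrix.mulVec_mulVec, ih, cm_real, pow_succ', mul_apply_eq_comp]

/-- A complex eigenvector for an eigenvalue of modulus `< 1` gives a stable vector. -/
theorem stable_of_eig {c : ℕ} (A : (Fin c → ℝ) →L[ℝ] (Fin c → ℝ)) {μ : ℂ} (hμ : ‖μ‖ < 1)
    {w : Fin c → ℂ} (hw : w ≠ 0) (h : cm A *ᵥ w = μ • w) : ∃ u, u ≠ 0 ∧ u ∈ stable A := by
  have hk : ∀ k : ℕ, (A ^ k) (fun i => (w i).re) = fun i => ((μ ^ k • w) i).re := by
    intro k
    induction k with
    | zero => simp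
    | succ k ih =>
      rw [pow_succ', mul_apply_eq_comp, ih, re_cm, Matrix.mulVec_smul, h, smul_smul, pow_succ]
  have hk' : ∀ k : ℕ, (A ^ k) (fun i => (w i).im) = fun i => ((μ ^ k • w) i).im := by
    intro k
    induction k with
    | zero => simp
    | succ k ih =>
      rw [pow_succ', mul_apply_eq_comp, ih, im_cm, Matrix.mulVec_smul, h, smul_smul, pow_succ]
  have hlim : Tendsto (fun k : ℕ => ‖μ‖ ^ k * ‖w‖) atTop (𝓝 0) := by
    have := (tendsto_pow_atTop_nhds_zero_of_lt_one (norm_nonneg μ) hμ).mul_const ‖w‖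
    simpa using this
  have hs1 : (fun i => (w i).re) ∈ stable A := by
    rw [mem_stable, tendsto_zero_iff_norm_tendsto_zero]
    refine squeeze_zero (fun k => norm_nonneg _) (fun k => ?_) hlim
    rw [hk, pi_norm_le_iff_of_nonneg (by positivity)]
    intro i
    rw [Real.norm_eq_abs]
    refine (Complex.abs_re_le_norm _).trans ?_
    rw [Pi.smul_apply, smul_eq_mul, norm_mul, norm_pow]
    exact mul_le_mul_of_nonneg_left (norm_le_pi_norm w i) (by positivity)
  have hs2 : (fun i => (w i).im) ∈ stable A := by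
    rw [mem_stable, tendsto_zero_iff_norm_tendsto_zero]
    refine squeeze_zero (fun k => norm_nonneg _) (fun k => ?_) hlim
    rw [hk', pi_norm_le_iff_of_nonneg (by positivity)]
    intro i
    rw [Real.norm_eq_abs]
    refine (Complex.abs_im_le_norm _).trans ?_
    rw [Pi.smul_apply, smul_eq_mul, norm_mul, norm_pow]
    exact mul_le_mul_of_nonneg_left (norm_le_pi_norm w i) (by positivity)
  by_cases h0 : (fun i => (w i).re) = 0
  · refine ⟨_, ?_, hs2⟩
    intro h1
    apply hw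
    funext i
    apply Complex.ext
    · exact congrFun h0 i
    · exact congrFun h1 i
  · exact ⟨_, h0, hs1⟩

theorem exists_eigvec {c : ℕ} (M : Matrix (Fin c) (Fin c) ℂ) {μ : ℂ}
    (h : M.charpoly.IsRoot μ) : ∃ w, w ≠ 0 ∧ M *ᵥ w = μ • w := by
  rw [Polynomial.IsRoot.def, Matrix.eval_charpoly] at h
  obtain ⟨w, hw, h1⟩ := Matrix.exists_mulVec_eq_zero_iff.mpr h
  refine ⟨w, hw, ?_⟩
  rw [Matrix.sub_mulVec, sub_eq_zero] at h1
  rw [← h1]
  simp [Matrix.scalar_apply]

theorem one_le_norm_prod (s : Multiset ℂ) (h : ∀ z ∈ s, 1 ≤ ‖z‖) : 1 ≤ ‖s.prod‖ := by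
  induction s using Multiset.induction_on with
  | empty => simp
  | cons a s ih =>
    rw [Multiset.prod_cons, norm_mul]
    have h1 := h a (Multiset.mem_cons_self a s)
    have h2 := ih fun z hz => h z (Multiset.mem_cons_of_mem hz)
    nlinarith

/-- (LA2) A linear map with determinant of modulus `< 1` has a nonzero stable vector. -/
theorem exists_stable_of_det_lt_one {c : ℕ} (A : (Fin c → ℝ) →L[ℝ] (Fin c → ℝ))
    (h : |LinearMap.det (A : (Fin c → ℝ) →ₗ[ℝ] (Fin c → ℝ))| < 1) :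
    ∃ u, u ≠ 0 ∧ u ∈ stable A := by
  have hdet : ((cm A).det : ℂ) =
      ((LinearMap.det (A : (Fin c → ℝ) →ₗ[ℝ] (Fin c → ℝ)) : ℝ) : ℂ) := by
    rw [← LinearMap.det_toMatrix']
    unfold cm
    rw [← RingHom.mapMatrix_apply, ← RingHom.map_det]
    rfl
  by_contra hcon
  have h1 : ∀ z ∈ (cm A).charpoly.roots, 1 ≤ ‖z‖ := by
    intro z hz
    by_contra hlt
    push Not at hlt
    obtain ⟨w, hw, hw2⟩ := exists_eigvec (cm A) (Polynomial.isRoot_of_mem_roots hz)
    exact hcon (stable_of_eig A hlt hw hw2)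
  have h2 := one_le_norm_prod _ h1
  rw [← Matrix.det_eq_prod_roots_charpoly, hdet, Complex.norm_real, Real.norm_eq_abs] at h2
  linarith

attribute [local instance] Matrix.linftyOpNormedRing Matrix.linftyOpNormedAlgebra

/-- Gelfand: if all eigenvalues have modulus at most one, the powers grow subexponentially. -/
theorem pow_le_of_spectrum {c : ℕ} (B : (Fin c → ℝ) →L[ℝ] (Fin c → ℝ))
    (h : ∀ z ∈ spectrum ℂ (cm B), ‖z‖ ≤ 1) {θ : ℝ} (hθ : 1 < θ) :
    ∀ᶠ k : ℕ in atTop, ‖B ^ k‖ ≤ θ ^ k := by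
  have : CompleteSpace (Matrix (Fin c) (Fin c) ℂ) := FiniteDimensional.complete ℂ _
  have hG := spectrum.pow_norm_pow_one_div_tendsto_nhds_spectralRadius (cm B)
  have hr : spectralRadius ℂ (cm B) < ENNReal.ofReal θ := by
    refine lt_of_le_of_lt (b := 1) ?_ ?_
    · refine iSup₂_le fun z hz => ?_
      have := h z hz
      rw [← coe_nnnorm] at this
      exact_mod_cast this
    · rw [ENNReal.one_lt_ofReal]
      exact hθ
  have h1 := hG.eventually (gt_mem_nhds hr)
  filter_upwards [h1, eventually_ge_atTop 1] with k hk hk1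
  rw [ENNReal.ofReal_lt_ofReal_iff (by linarith)] at hk
  have h2 : ‖cm B ^ k‖ ≤ θ ^ k := by
    have h3 : ‖cm B ^ k‖ = (‖cm B ^ k‖ ^ (1 / (k : ℝ))) ^ k := by
      rw [← Real.rpow_natCast, ← Real.rpow_mul (norm_nonneg _)]
      rw [one_div, inv_mul_cancel₀ (by positivity), Real.rpow_one]
    rw [h3]
    exact pow_le_pow_left₀ (by positivity) hk.le k
  refine ContinuousLinearMap.opNorm_le_bound _ (by positivity) fun u => ?_
  have h4 := Matrix.linfty_opNorm_mulVec (cm B ^ k) (fun i => (u i : ℂ))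
  rw [cm_pow_real] at h4
  have h5 : ∀ x : Fin c → ℝ, ‖(fun i => (x i : ℂ))‖ = ‖x‖ := by
    intro x
    simp only [Pi.norm_def]
    congr 1
    refine Finset.sup_congr rfl fun i _ => ?_
    ext
    simp
  rw [h5, h5] at h4
  exact h4.trans (mul_le_mul_of_nonneg_right h2 (norm_nonneg _))

end Pool.Agent.Work.MP_429976_an
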