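import Pool.Agent.Work.MP_429976_an.LA2

/-!
Linear algebra for problem MP_429976_an: dominated coordinates.
-/

namespace Pool.Agent.Work.MP_429976_an

open Filter Topology Set Module Matrix

variable {V : Type*} [NormedAddCommGroup V] [NormedSpace ℝ V]

theorem mem_stable_apply {L : V →L[ℝ] V} {v : V} : L v ∈ stable L ↔ v ∈ stable L := by
  rw [mem_stable, mem_stable, ← tendsto_add_atTop_iff_nat (f := fun k : ℕ => (L ^ k) v) 1]
  have h : ∀ k : ℕ, (L ^ k) (L v) = (L ^ (k + 1)) v := by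
    intro k; rw [pow_succ, mul_apply_eq_comp]
  simp only [h]

theorem cm_mul {c : ℕ} (A B : (Fin c → ℝ) →L[ℝ] (Fin c → ℝ)) (h : ∀ u, A (B u) = u) :
    cm A * cm B = 1 := by
  have h1 : (A : (Fin c → ℝ) →ₗ[ℝ] (Fin c → ℝ)) ∘ₗ (B : (Fin c → ℝ) →ₗ[ℝ] (Fin c → ℝ))
      = LinearMap.id := by
    ext1 i
    apply LinearMap.ext
    intro x
    exact h _
  unfold cm
  rw [← Matrix.map_mul, ← LinearMap.toMatrix'_comp, h1, LinearMap.toMatrix'_id]
  simp

/-- the inverse of a map without stable vectors grows subexponentially -/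
theorem inv_growth {c : ℕ} (A B : (Fin c → ℝ) →L[ℝ] (Fin c → ℝ)) (h : ∀ u, A (B u) = u)
    (hA : ∀ u, u ∈ stable A → u = 0) {θ : ℝ} (hθ : 1 < θ) :
    ∀ᶠ k : ℕ in atTop, ‖B ^ k‖ ≤ θ ^ k := by
  refine pow_le_of_spectrum B (fun z hz => ?_) hθ
  by_contra hlt
  push Not at hlt
  have hz0 : z ≠ 0 := by
    rintro rfl
    rw [norm_zero] at hlt
    linarith
  obtain ⟨w, hw, hw2⟩ := exists_eigvec (cm B) (Matrix.mem_spectrum_iff_isRoot_charpoly.mp hz)
  have h1 : cm A *ᵥ w = z⁻¹ • w := by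
    have h2 : cm A *ᵥ (cm B *ᵥ w) = w := by
      rw [Matrix.mulVec_mulVec, cm_mul A B h, Matrix.one_mulVec]
    rw [hw2, Matrix.mulVec_smul] at h2
    rw [← h2, smul_smul, inv_mul_cancel₀ hz0, one_smul, h2]
  obtain ⟨u, hu, hu2⟩ := stable_of_eig A (μ := z⁻¹) (by
    rw [norm_inv]
    exact inv_lt_one_of_one_lt₀ hlt) hw h1
  exact hu (hA u hu2)

/-- powers of a map all of whose vectors are stable decay exponentially -/
theorem exp_decay {d : ℕ} (D : (Fin d → ℝ) →L[ℝ] (Fin d → ℝ))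
    (hD : ∀ w, Tendsto (fun k : ℕ => (D ^ k) w) atTop (𝓝 0)) :
    ∃ θ : ℝ, 1 < θ ∧ Tendsto (fun k : ℕ => θ ^ k * ‖D ^ k‖) atTop (𝓝 0) := by
  have hT0 := norm_pow_tendsto D hD
  obtain ⟨N, hN1, hN⟩ : ∃ N : ℕ, 1 ≤ N ∧ ‖D ^ N‖ ≤ 1 / 2 := by
    have h1 := hT0.eventually (ge_mem_nhds (show (0 : ℝ) < 1 / 2 by norm_num))
    obtain ⟨N, hN⟩ := (h1.and (eventually_ge_atTop 1)).exists
    exact ⟨N, hN.2, hN.1⟩
  have hNpos : (0 : ℝ) < N := by exact_mod_cast hN1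
  set θ : ℝ := (3 / 2 : ℝ) ^ (1 / (N : ℝ)) with hθ
  have hθ1 : 1 < θ := Real.one_lt_rpow (by norm_num) (by positivity)
  have hθN : θ ^ N = 3 / 2 := by
    rw [hθ, ← Real.rpow_natCast, ← Real.rpow_mul (by norm_num), one_div,
      inv_mul_cancel₀ hNpos.ne', Real.rpow_one]
  refine ⟨θ, hθ1, ?_⟩
  have hpow : ∀ k : ℕ, (θ • D) ^ k = θ ^ k • D ^ k := fun k => smul_pow θ D k
  have hnorm : ∀ k : ℕ, ‖(θ • D) ^ k‖ = θ ^ k * ‖D ^ k‖ := by
    intro k
    rw [hpow, norm_smul, Real.norm_eq_abs, abs_of_nonneg (by positivity)]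
  have h3 : ‖(θ • D) ^ N‖ ≤ 3 / 4 := by
    rw [hnorm, hθN]; linarith
  have h4 : ∀ w, w ∈ stable ((θ • D) ^ N) := by
    intro w
    rw [mem_stable, tendsto_zero_iff_norm_tendsto_zero]
    have h5 : Tendsto (fun k : ℕ => (3 / 4 : ℝ) ^ k * ‖w‖) atTop (𝓝 0) := by
      have := (tendsto_pow_atTop_nhds_zero_of_lt_one (r := (3 / 4 : ℝ)) (by norm_num)
        (by norm_num)).mul_const ‖w‖
      simpa using this
    refine squeeze_zero (fun k => norm_nonneg _) (fun k => ?_) h5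
    have h6 : ∀ k : ℕ, ‖(((θ • D) ^ N) ^ k) w‖ ≤ (3 / 4 : ℝ) ^ k * ‖w‖ := by
      intro k
      induction k with
      | zero => simp
      | succ k ih =>
        rw [pow_succ', mul_apply_eq_comp]
        refine (ContinuousLinearMap.le_opNorm _ _).trans ?_
        rw [pow_succ', mul_assoc]
        exact mul_le_mul h3 ih (norm_nonneg _) (by norm_num)
    exact h6 k
  have h7 := norm_pow_tendsto (θ • D) (fun w => mem_stable_of_pow hN1 (h4 w))
  exact h7.congr hnorm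

/-- the Sylvester equation -/
theorem sylvester {c d : ℕ} (A B : (Fin c → ℝ) →L[ℝ] (Fin c → ℝ))
    (D : (Fin d → ℝ) →L[ℝ] (Fin d → ℝ)) (h : ∀ u, A (B u) = u)
    (hlim : Tendsto (fun k : ℕ => ‖D ^ k‖ * ‖B ^ k‖) atTop (𝓝 0))
    (C : (Fin c → ℝ) →ₗ[ℝ] (Fin d → ℝ)) :
    ∃ X : (Fin c → ℝ) →ₗ[ℝ] (Fin d → ℝ), ∀ u, X (A u) - D (X u) = C u := by
  let S : ((Fin c → ℝ) →ₗ[ℝ] (Fin d → ℝ)) →ₗ[ℝ] ((Fin c → ℝ) →ₗ[ℝ] (Fin d → ℝ)) :=
    { toFun := fun X => X ∘ₗ (A : (Fin c → ℝ) →ₗ[ℝ] (Fin c → ℝ)) -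
        (D : (Fin d → ℝ) →ₗ[ℝ] (Fin d → ℝ)) ∘ₗ X
      map_add' := by
        intro X Y
        ext1 i
        apply LinearMap.ext
        intro x
        simp
        abel
      map_smul' := by
        intro r X
        ext1 i
        apply LinearMap.ext
        intro x
        simp [smul_sub] }
  have hS : ∀ X u, S X u = X (A u) - D (X u) := fun X u => rfl
  have hinj : Function.Injective S := by
    rw [injective_iff_map_eq_zero]
    intro X hX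
    have h1 : ∀ u, X (A u) = D (X u) := by
      intro u
      have := congrArg (fun g => g u) hX
      simp only [hS, LinearMap.zero_apply] at this
      exact sub_eq_zero.mp this
    have h2 : ∀ (k : ℕ) (u : Fin c → ℝ), X u = (D ^ k) (X ((B ^ k) u)) := by
      intro k
      induction k with
      | zero => intro u; simp
      | succ k ih =>
        intro u
        rw [ih u, pow_succ, mul_apply_eq_comp, ← h1, pow_succ', mul_apply_eq_comp, h]
    apply LinearMap.ext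
    intro u
    let X' : (Fin c → ℝ) →L[ℝ] (Fin d → ℝ) := LinearMap.toContinuousLinearMap X
    have h3 : ∀ k : ℕ, ‖X u‖ ≤ (‖D ^ k‖ * ‖B ^ k‖) * (‖X'‖ * ‖u‖) := by
      intro k
      calc ‖X u‖ = ‖(D ^ k) (X' ((B ^ k) u))‖ := by rw [h2 k u]; rfl
        _ ≤ ‖D ^ k‖ * (‖X'‖ * (‖B ^ k‖ * ‖u‖)) := by
            refine (ContinuousLinearMap.le_opNorm _ _).trans ?_
            refine mul_le_mul_of_nonneg_left ?_ (norm_nonneg _)
            refine (ContinuousLinearMap.le_opNorm _ _).trans ?_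
            exact mul_le_mul_of_nonneg_left (ContinuousLinearMap.le_opNorm _ _) (norm_nonneg _)
        _ = (‖D ^ k‖ * ‖B ^ k‖) * (‖X'‖ * ‖u‖) := by ring
    have h4 : Tendsto (fun k : ℕ => (‖D ^ k‖ * ‖B ^ k‖) * (‖X'‖ * ‖u‖)) atTop (𝓝 0) := by
      have := hlim.mul_const (‖X'‖ * ‖u‖)
      simpa using this
    have h5 : ‖X u‖ ≤ 0 := ge_of_tendsto' h4 h3
    simpa using h5
  obtain ⟨X, hX⟩ := (LinearMap.injective_iff_surjective.mp hinj) C
  exact ⟨X, fun u => by rw [← hS, hX]⟩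

/-- (LA1) Dominated coordinates: some power of an injective `L` is, in suitable coordinates
`V ≃ ℝ^c × ℝ^d` with `d = dim stable L`, block diagonal `A ⊕ D` with `‖A u‖ ≥ α ‖u‖` and
`‖D‖ ≤ ε min(α, 1)`. -/
theorem exists_dominated_coords [FiniteDimensional ℝ V] (L : V →L[ℝ] V)
    (_hL : Function.Injective L) {ε : ℝ} (hε : 0 < ε) :
    ∃ (c : ℕ) (K : ℕ) (e : V ≃L[ℝ] (Fin c → ℝ) × (Fin (finrank ℝ (stable L)) → ℝ))
      (A : (Fin c → ℝ) →L[ℝ] (Fin c → ℝ))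
      (D : (Fin (finrank ℝ (stable L)) → ℝ) →L[ℝ] (Fin (finrank ℝ (stable L)) → ℝ)) (α : ℝ),
      1 ≤ K ∧ 0 < α ∧ (∀ v, e ((L ^ K) v) = (A (e v).1, D (e v).2)) ∧
      (∀ u, α * ‖u‖ ≤ ‖A u‖) ∧ ‖D‖ ≤ ε * min α 1 := by
  obtain ⟨G, hG⟩ := Submodule.exists_isCompl (stable L)
  set d := finrank ℝ (stable L) with hd
  set c := finrank ℝ G with hc
  let eG : G ≃ₗ[ℝ] (Fin c → ℝ) := LinearEquiv.ofFinrankEq _ _ (by simp [hc])
  let eF : stable L ≃ₗ[ℝ] (Fin d → ℝ) := LinearEquiv.ofFinrankEq _ _ (by simp [hd])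
  let e0 : V ≃ₗ[ℝ] (Fin c → ℝ) × (Fin d → ℝ) :=
    (Submodule.prodEquivOfIsCompl G (stable L) hG.symm).symm ≪≫ₗ (LinearEquiv.prodCongr eG eF)
  have he0 : ∀ v, (e0 v).1 = 0 ↔ v ∈ stable L := by
    intro v
    have h1 : (e0 v).1 = eG ((Submodule.prodEquivOfIsCompl G (stable L) hG.symm).symm v).1 := rfl
    rw [h1, map_eq_zero_iff eG eG.injective,
      Submodule.prodEquivOfIsCompl_symm_apply_fst_eq_zero]
  have he0' : ∀ w, e0.symm (0, w) ∈ stable L := by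
    intro w
    rw [← he0]; simp
  let Lr : ((Fin c → ℝ) × (Fin d → ℝ)) →ₗ[ℝ] ((Fin c → ℝ) × (Fin d → ℝ)) :=
    (e0 : V →ₗ[ℝ] ((Fin c → ℝ) × (Fin d → ℝ))) ∘ₗ (L : V →ₗ[ℝ] V) ∘ₗ
      (e0.symm : ((Fin c → ℝ) × (Fin d → ℝ)) →ₗ[ℝ] V)
  let A : (Fin c → ℝ) →L[ℝ] (Fin c → ℝ) := LinearMap.toContinuousLinearMap
    (LinearMap.fst ℝ _ _ ∘ₗ Lr ∘ₗ LinearMap.inl ℝ _ _)
  let C : (Fin c → ℝ) →ₗ[ℝ] (Fin d → ℝ) :=
    (LinearMap.snd ℝ _ _ ∘ₗ Lr ∘ₗ LinearMap.inl ℝ _ _)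
  let D : (Fin d → ℝ) →L[ℝ] (Fin d → ℝ) := LinearMap.toContinuousLinearMap
    (LinearMap.snd ℝ _ _ ∘ₗ Lr ∘ₗ LinearMap.inr ℝ _ _)
  have hA : ∀ u, A u = (e0 (L (e0.symm (u, 0)))).1 := fun u => rfl
  have hC : ∀ u, C u = (e0 (L (e0.symm (u, 0)))).2 := fun u => rfl
  have hD : ∀ w, D w = (e0 (L (e0.symm (0, w)))).2 := fun w => rfl
  have hL0 : ∀ v, e0 (L v) = (A (e0 v).1, C (e0 v).1 + D (e0 v).2) := by
    intro v
    have h1 : v = e0.symm ((e0 v).1, 0) + e0.symm (0, (e0 v).2) := by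
      rw [← map_add]
      simp
    have h2 : e0 (L v) = e0 (L (e0.symm ((e0 v).1, 0))) + e0 (L (e0.symm (0, (e0 v).2))) := by
      conv_lhs => rw [h1]
      rw [map_add, map_add]
    have h3 : (e0 (L (e0.symm (0, (e0 v).2)))).1 = 0 := by
      rw [he0, mem_stable_apply]
      exact he0' _
    rw [h2]
    ext1
    · rw [Prod.fst_add, h3, add_zero, hA]
    · rw [Prod.snd_add, hC, hD]
  -- the projection
  let P : V →L[ℝ] (Fin c → ℝ) := LinearMap.toContinuousLinearMap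
    (LinearMap.fst ℝ _ _ ∘ₗ (e0 : V →ₗ[ℝ] ((Fin c → ℝ) × (Fin d → ℝ))))
  have hP : ∀ v, P v = (e0 v).1 := fun v => rfl
  have hPs : Function.Surjective P := by
    intro u
    refine ⟨e0.symm (u, 0), ?_⟩
    rw [hP]; simp
  have hPL : ∀ v, P (L v) = A (P v) := by
    intro v
    rw [hP, hP, hL0]
  have hAstab : ∀ u, u ∈ stable A → u = 0 := by
    intro u hu
    have h1 := tendsto_of_proj L P A hPs hPL (fun x hx => (he0 x).mp hx) (e0.symm (u, 0)) (by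
      have : P (e0.symm (u, 0)) = u := by rw [hP]; simp
      rw [this]; exact hu)
    have h2 := (he0 _).mpr h1
    simpa using h2
  have hAinj : Function.Injective A := by
    rw [injective_iff_map_eq_zero]
    intro u hu
    apply hAstab
    rw [← mem_stable_apply, hu]
    exact Submodule.zero_mem _
  let Ae : (Fin c → ℝ) ≃ₗ[ℝ] (Fin c → ℝ) :=
    LinearEquiv.ofInjectiveEndo (A : (Fin c → ℝ) →ₗ[ℝ] (Fin c → ℝ)) hAinj
  let B : (Fin c → ℝ) →L[ℝ] (Fin c → ℝ) :=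
    LinearMap.toContinuousLinearMap (Ae.symm : (Fin c → ℝ) →ₗ[ℝ] (Fin c → ℝ))
  have hAB : ∀ u, A (B u) = u := fun u => Ae.apply_symm_apply u
  have hBA : ∀ u, B (A u) = u := fun u => Ae.symm_apply_apply u
  have hDk : ∀ (k : ℕ) (w : Fin d → ℝ), e0 ((L ^ k) (e0.symm (0, w))) = (0, (D ^ k) w) := by
    intro k
    induction k with
    | zero => intro w; simp
    | succ k ih =>
      intro w
      rw [pow_succ', mul_apply_eq_comp, hL0, ih, pow_succ', mul_apply_eq_comp]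
      simp
  have hDstab : ∀ w, Tendsto (fun k : ℕ => (D ^ k) w) atTop (𝓝 0) := by
    intro w
    have h1 := he0' w
    rw [mem_stable] at h1
    let S : V →L[ℝ] (Fin d → ℝ) := LinearMap.toContinuousLinearMap
      (LinearMap.snd ℝ _ _ ∘ₗ (e0 : V →ₗ[ℝ] ((Fin c → ℝ) × (Fin d → ℝ))))
    have h2 := (S.continuous.tendsto 0).comp h1
    rw [map_zero] at h2
    refine h2.congr fun k => ?_
    show (e0 ((L ^ k) (e0.symm (0, w)))).2 = (D ^ k) w
    rw [hDk]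
  obtain ⟨θ, hθ, hθD⟩ := exp_decay D hDstab
  have hBk := inv_growth A B hAB hAstab hθ
  have hlim : Tendsto (fun k : ℕ => ‖D ^ k‖ * ‖B ^ k‖) atTop (𝓝 0) := by
    refine squeeze_zero' (Eventually.of_forall fun k => by positivity) ?_ hθD
    filter_upwards [hBk] with k hk
    rw [mul_comm]
    exact mul_le_mul_of_nonneg_right hk (norm_nonneg _)
  have hlim2 : Tendsto (fun k : ℕ => ‖D ^ k‖ * (1 + ‖B ^ k‖)) atTop (𝓝 0) := by
    have h1 := (norm_pow_tendsto D hDstab).add hlim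
    rw [add_zero] at h1
    refine h1.congr fun k => by ring
  obtain ⟨X, hX⟩ := sylvester A B D hAB hlim C
  obtain ⟨K, hK1, hK⟩ : ∃ K : ℕ, 1 ≤ K ∧ ‖D ^ K‖ * (1 + ‖B ^ K‖) ≤ ε := by
    have h1 := hlim2.eventually (ge_mem_nhds hε)
    obtain ⟨N, hN⟩ := (h1.and (eventually_ge_atTop 1)).exists
    exact ⟨N, hN.2, hN.1⟩
  let e1 : V ≃ₗ[ℝ] (Fin c → ℝ) × (Fin d → ℝ) := e0 ≪≫ₗ
    (LinearEquiv.skewProd (LinearEquiv.refl ℝ _) (LinearEquiv.refl ℝ _) (-X))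
  have he1 : ∀ v, e1 v = ((e0 v).1, (e0 v).2 - X (e0 v).1) := by
    intro v
    show ((e0 v).1, (e0 v).2 + (-X) (e0 v).1) = _
    rw [LinearMap.neg_apply, sub_eq_add_neg]
  have hstep : ∀ v, e1 (L v) = (A (e1 v).1, D (e1 v).2) := by
    intro v
    rw [he1, he1, hL0]
    ext1
    · rfl
    · simp only [map_sub]
      rw [← hX]
      abel
  have hpow : ∀ (k : ℕ) v, e1 ((L ^ k) v) = ((A ^ k) (e1 v).1, (D ^ k) (e1 v).2) := by
    intro k
    induction k with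
    | zero => intro v; simp
    | succ k ih =>
      intro v
      rw [pow_succ', mul_apply_eq_comp, hstep, ih, pow_succ', pow_succ', mul_apply_eq_comp,
        mul_apply_eq_comp]
  have hBAk : ∀ (k : ℕ) (u : Fin c → ℝ), (B ^ k) ((A ^ k) u) = u := by
    intro k
    induction k with
    | zero => intro u; simp
    | succ k ih =>
      intro u
      rw [pow_succ, pow_succ', mul_apply_eq_comp, mul_apply_eq_comp, hBA, ih]
  have hpos : (0 : ℝ) < 1 + ‖B ^ K‖ := by positivity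
  refine ⟨c, K, e1.toContinuousLinearEquiv, A ^ K, D ^ K, 1 / (1 + ‖B ^ K‖), hK1, by positivity,
    fun v => hpow K v, fun u => ?_, ?_⟩
  · rw [one_div, inv_mul_le_iff₀ hpos]
    calc ‖u‖ = ‖(B ^ K) ((A ^ K) u)‖ := by rw [hBAk]
      _ ≤ ‖B ^ K‖ * ‖(A ^ K) u‖ := ContinuousLinearMap.le_opNorm _ _
      _ ≤ (1 + ‖B ^ K‖) * ‖(A ^ K) u‖ :=
          mul_le_mul_of_nonneg_right (by linarith) (norm_nonneg _)
  · have hle : 1 / (1 + ‖B ^ K‖) ≤ 1 := by
      rw [div_le_one hpos]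
      linarith [norm_nonneg (B ^ K)]
    rw [min_eq_left hle, mul_one_div, le_div_iff₀ hpos]
    exact hK

end Pool.Agent.Work.MP_429976_an
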