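import Pool.Agent.Work.MP_429976_an.LA1
import Pool.Agent.Work.MP_429976_an.LA2
import Pool.Agent.Work.MP_429976_an.LA3

/-!
Linear algebra for problem MP_429976_an (stable subspaces, dominated coordinates):
`stable`, `mem_stable`, `tendsto_of_proj`, `stable_pow`, `finrank_stable_conj` (file `LA1`),
`exists_stable_of_det_lt_one` (file `LA2`), `exists_dominated_coords` (file `LA3`).
-/
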