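import Pool.Agent.Work.MP_429976_an.CoreFalse
import Pool.Agent.Work.MP_429976_an.LA

/-!
Theorem A: a branch system on a finite dimensional space contains a map whose derivative at its
fixed point is contracting.
-/

namespace Pool.Agent.Work.MP_429976_an

open Filter Topology Set Metric Module

section Transport

variable {V W : Type*} [NormedAddCommGroup V] [NormedSpace ℝ V] [NormedAddCommGroup W]
  [NormedSpace ℝ W]

/-- The conjugated system. -/
def conjS (e : V ≃L[ℝ] W) (S : ℕ → Set (V → V)) : ℕ → Set (W → W) :=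
  fun m => {g | ∃ h ∈ S m, g = e ∘ h ∘ e.symm}

theorem fderiv_conj (e : V ≃L[ℝ] W) {h : V → V} {x : V} (hd : DifferentiableAt ℝ h x) :
    fderiv ℝ (e ∘ h ∘ e.symm) (e x) =
      (e : V →L[ℝ] W).comp ((fderiv ℝ h x).comp (e.symm : W →L[ℝ] V)) := by
  have h1 : HasFDerivAt (e.symm : W → V) (e.symm : W →L[ℝ] V) (e x) := e.symm.hasFDerivAt
  have h2 : HasFDerivAt h (fderiv ℝ h x) (e.symm (e x)) := by
    rw [e.symm_apply_apply]; exact hd.hasFDerivAt
  have h3 : HasFDerivAt (e : V → W) (e : V →L[ℝ] W) (h (e.symm (e x))) := e.hasFDerivAt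
  exact (h3.comp (e x) (h2.comp (e x) h1)).fderiv

theorem branchSystem_conj (e : V ≃L[ℝ] W) {K : Set V} {S : ℕ → Set (V → V)}
    (hS : BranchSystem K S) : BranchSystem (e '' K) (conjS e S) := by
  have hint : interior (e '' K) = e '' interior K := (e.toHomeomorph.image_interior K).symm
  have hlip : ∀ a b : V, dist (e a) (e b) ≤ (‖(e : V →L[ℝ] W)‖ + 1) * dist a b := by
    intro a b
    rw [dist_eq_norm, dist_eq_norm, ← map_sub]
    have := (e : V →L[ℝ] W).le_opNorm (a - b)
    refine this.trans ?_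
    exact mul_le_mul_of_nonneg_right (by linarith) (norm_nonneg _)
  have hpos : 0 < ‖(e : V →L[ℝ] W)‖ + 1 := by positivity
  constructor
  · exact hS.compact.image e.continuous
  · rw [hint]; exact hS.nonempty.image _
  · rintro m g ⟨h, hh, rfl⟩
    exact hS.pos m h hh
  · rintro m g ⟨h, hh, rfl⟩ x ⟨y, hy, rfl⟩
    rw [hint]
    refine ⟨h y, hS.maps m h hh y hy, ?_⟩
    simp
  · rintro m g ⟨h, hh, rfl⟩ x ⟨y, hy, rfl⟩
    have h1 : ContDiffAt ℝ 1 (e.symm : W → V) (e y) := e.symm.contDiff.contDiffAt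
    have h2 : ContDiffAt ℝ 1 h (e.symm (e y)) := by
      rw [e.symm_apply_apply]; exact hS.contDiff m h hh y hy
    have h3 : ContDiffAt ℝ 1 (e : V → W) (h (e.symm (e y))) := e.contDiff.contDiffAt
    exact h3.comp (e y) (h2.comp (e y) h1)
  · rintro m g ⟨h, hh, rfl⟩ x ⟨y, hy, rfl⟩ x' ⟨y', hy', rfl⟩ heq
    simp only [Function.comp, e.symm_apply_apply] at heq
    rw [hS.inj m h hh hy hy' (e.injective heq)]
  · rintro m g ⟨h, hh, rfl⟩ x ⟨y, hy, rfl⟩
    rw [fderiv_conj e ((hS.contDiff m h hh y hy).differentiableAt (by norm_num))]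
    intro a b hab
    apply e.symm.injective
    apply hS.deriv_inj m h hh y hy
    exact e.injective hab
  · rintro m m' g ⟨g', hg', rfl⟩ h ⟨h', hh', rfl⟩
    refine ⟨g' ∘ h', hS.comp m m' g' hg' h' hh', ?_⟩
    funext x
    simp
  · intro ε hε
    obtain ⟨N, hN⟩ := hS.shrink (ε / (‖(e : V →L[ℝ] W)‖ + 1)) (by positivity)
    refine ⟨N, ?_⟩
    rintro m hm g ⟨h, hh, rfl⟩ x ⟨y, hy, rfl⟩ x' ⟨y', hy', rfl⟩
    simp only [Function.comp, e.symm_apply_apply]
    refine (hlip _ _).trans ?_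
    have := hN m hm h hh y hy y' hy'
    rw [le_div_iff₀ hpos] at this
    linarith
  · rw [hint]
    rintro x ⟨y, hy, rfl⟩ ε hε
    obtain ⟨m, h, hh, hd⟩ := hS.dense y hy (ε / (‖(e : V →L[ℝ] W)‖ + 1)) (by positivity)
    refine ⟨m, _, ⟨h, hh, rfl⟩, ?_⟩
    rintro x' ⟨y', hy', rfl⟩
    simp only [Function.comp, e.symm_apply_apply]
    refine lt_of_le_of_lt (hlip _ _) ?_
    have := hd y' hy'
    rw [lt_div_iff₀ hpos] at this
    linarith

end Transport

/-- Theorem A. -/
theorem exists_contracting {V : Type*} [NormedAddCommGroup V] [NormedSpace ℝ V]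
    [FiniteDimensional ℝ V] {K : Set V} {S : ℕ → Set (V → V)} (hS : BranchSystem K S) :
    ∃ m, ∃ h ∈ S m, ∃ w ∈ K, h w = w ∧
      ∀ v : V, Tendsto (fun k : ℕ => ((fderiv ℝ h w) ^ k) v) atTop (𝓝 0) := by
  classical
  -- the possible dimensions of the stable subspace
  let P : ℕ → Prop := fun n => ∃ m, ∃ h ∈ S m, ∃ w ∈ K, h w = w ∧
    finrank ℝ (stable (fderiv ℝ h w)) = n
  have hP0 : ∃ n, P n := by
    obtain ⟨x, hx⟩ := hS.nonempty
    obtain ⟨m, h, hh, -⟩ := hS.dense x hx 1 one_pos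
    obtain ⟨w, hw, hfix⟩ := hS.exists_fixed hh (le_refl K) hS.compact.isClosed
      ⟨x, interior_subset hx⟩ (fun x hx => hS.mapsK hh hx)
    exact ⟨_, m, h, hh, w, hw, hfix, rfl⟩
  have hPb : ∀ n, P n → n ≤ finrank ℝ V := by
    rintro n ⟨m, h, hh, w, hw, hfix, rfl⟩
    exact Submodule.finrank_le _
  obtain ⟨n₀, hn₀⟩ := hP0
  have hmaxP : P (Nat.findGreatest P (finrank ℝ V)) := Nat.findGreatest_spec (hPb n₀ hn₀) hn₀
  have hmaxle : ∀ n, P n → n ≤ Nat.findGreatest P (finrank ℝ V) := fun n hn =>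
    Nat.le_findGreatest (hPb n hn) hn
  obtain ⟨m, h, hh, w, hw, hfix, hrank⟩ := hmaxP
  rw [← hrank] at hmaxle
  refine ⟨m, h, hh, w, hw, hfix, ?_⟩
  by_contra hcon
  have hlt : finrank ℝ (stable (fderiv ℝ h w)) < finrank ℝ V := by
    rcases lt_or_eq_of_le (Submodule.finrank_le (stable (fderiv ℝ h w))) with h1 | h1
    · exact h1
    · exfalso
      apply hcon
      intro v
      have h2 := Submodule.eq_top_of_finrank_eq h1
      have h3 : v ∈ stable (fderiv ℝ h w) := by rw [h2]; exact Submodule.mem_top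
      exact h3
  obtain ⟨c, K', e, A, D, α, hK', hα, hconj, hlow, hup⟩ :=
    exists_dominated_coords (fderiv ℝ h w) (hS.deriv_inj m h hh w hw)
      (show (0 : ℝ) < 1 / 100 by norm_num)
  have hc : 1 ≤ c := by
    have h1 := e.toLinearEquiv.finrank_eq
    rw [Module.finrank_prod] at h1
    simp only [Module.finrank_fin_fun] at h1
    omega
  have hdiff : DifferentiableAt ℝ h w := (hS.contDiff m h hh w hw).differentiableAt (by norm_num)
  have hiter : HasFDerivAt (h^[K']) ((fderiv ℝ h w) ^ K') w :=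
    hdiff.hasFDerivAt.iterate hfix K'
  have hder : fderiv ℝ (e ∘ h^[K'] ∘ e.symm) (e w) = blk A D := by
    rw [fderiv_conj e hiter.differentiableAt, hiter.fderiv]
    apply ContinuousLinearMap.ext
    intro x
    show e (((fderiv ℝ h w) ^ K') (e.symm x)) = (A x.1, D x.2)
    rw [hconj, e.apply_symm_apply]
  refine core_false (K := e '' K) (S := conjS e S) (a := e ∘ h^[K'] ∘ e.symm) (m₀ := K' * m)
    (w := e w) (A := A) (D := D) (α := α) hc (branchSystem_conj e hS)
    ⟨_, hS.iter_mem hh K' hK', rfl⟩ ⟨w, hw, rfl⟩ ?_ hder ⟨hα, hlow, ?_⟩ ?_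
  · simp only [Function.comp, e.symm_apply_apply]
    rw [Function.iterate_fixed hfix]
  · rw [one_div, inv_mul_eq_div] at hup
    exact hup
  · rintro m' g ⟨h', hh', rfl⟩ y ⟨x, hx, rfl⟩ hfix'
    have hfx : h' x = x := by
      simp only [Function.comp, e.symm_apply_apply] at hfix'
      exact e.injective hfix'
    have hd' : DifferentiableAt ℝ h' x :=
      (hS.contDiff m' h' hh' x hx).differentiableAt (by norm_num)
    have h1 : finrank ℝ (stable (fderiv ℝ (e ∘ h' ∘ e.symm) (e x))) =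
        finrank ℝ (stable (fderiv ℝ h' x)) := by
      apply finrank_stable_conj e
      intro v
      rw [fderiv_conj e hd']
      simp
    rw [h1]
    exact hmaxle _ ⟨m', h', hh', x, hx, hfx, rfl⟩

end Pool.Agent.Work.MP_429976_an
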