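import Mathlib

/-!
Cone estimates for approximate orbits of a block diagonal linear map.
-/

namespace Pool.Agent.Work.MP_429976_an

open Filter Topology Set

section Cone

variable {E F : Type*} [NormedAddCommGroup E] [NormedSpace ℝ E] [NormedAddCommGroup F]
  [NormedSpace ℝ F]

/-- Domination of the block diagonal map `A ⊕ D`. -/
structure Dom (A : E →L[ℝ] E) (D : F →L[ℝ] F) (α : ℝ) : Prop where
  pos : 0 < α
  lower : ∀ u, α * ‖u‖ ≤ ‖A u‖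
  upper : ‖D‖ ≤ min α 1 / 100

/-- The block diagonal map. -/
def blk (A : E →L[ℝ] E) (D : F →L[ℝ] F) : E × F →L[ℝ] E × F := A.prodMap D

variable {A : E →L[ℝ] E} {D : F →L[ℝ] F} {α : ℝ}

theorem blk_fst (ξ : E × F) : (blk A D ξ).1 = A ξ.1 := rfl
theorem blk_snd (ξ : E × F) : (blk A D ξ).2 = D ξ.2 := rfl

theorem norm_fst_le' (ξ : E × F) : ‖ξ.1‖ ≤ ‖ξ‖ := norm_fst_le ξ
theorem norm_snd_le' (ξ : E × F) : ‖ξ.2‖ ≤ ‖ξ‖ := norm_snd_le ξ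

theorem norm_eq_fst {ξ : E × F} (h : ‖ξ.2‖ ≤ ‖ξ.1‖) : ‖ξ‖ = ‖ξ.1‖ := by
  rw [Prod.norm_def, max_eq_left h]

theorem norm_eq_snd {ξ : E × F} (h : ‖ξ.1‖ ≤ ‖ξ.2‖) : ‖ξ‖ = ‖ξ.2‖ := by
  rw [Prod.norm_def, max_eq_right h]

theorem Dom.minpos (h : Dom A D α) : 0 < min α 1 := lt_min h.pos one_pos

/-- One step, horizontal case, with error `e`. -/
theorem Dom.step_hor (h : Dom A D α) {ξ ζ : E × F} {t e : ℝ} (ht : t ≤ 1)
    (hξ : ‖ξ.2‖ ≤ t * ‖ξ.1‖) (he : e ≤ 1)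
    (hz : ‖ζ - blk A D ξ‖ ≤ e * (min α 1 / 100) * ‖ξ‖) :
    99 / 100 * α * ‖ξ.1‖ ≤ ‖ζ.1‖ ∧ ‖ζ.2‖ ≤ (t + e) / 99 * ‖ζ.1‖ := by
  have hμ := h.minpos
  have hμα : min α 1 ≤ α := min_le_left _ _
  have hn1 : ‖ξ.2‖ ≤ ‖ξ.1‖ := hξ.trans (by nlinarith [norm_nonneg ξ.1])
  have hn : ‖ξ‖ = ‖ξ.1‖ := norm_eq_fst hn1
  rw [hn] at hz
  have h1 : ‖ζ.1 - A ξ.1‖ ≤ e * (min α 1 / 100) * ‖ξ.1‖ := by
    have := norm_fst_le' (ζ - blk A D ξ)
    simpa [blk_fst] using this.trans hz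
  have h2 : ‖ζ.2 - D ξ.2‖ ≤ e * (min α 1 / 100) * ‖ξ.1‖ := by
    have := norm_snd_le' (ζ - blk A D ξ)
    simpa [blk_snd] using this.trans hz
  have hA := h.lower ξ.1
  have hnn := norm_nonneg ξ.1
  have h3 : ‖A ξ.1‖ ≤ ‖ζ.1‖ + ‖ζ.1 - A ξ.1‖ := by
    have := norm_sub_norm_le (A ξ.1) ζ.1
    rw [norm_sub_rev] at this
    linarith
  have h4 : ‖ζ.2‖ ≤ ‖D ξ.2‖ + ‖ζ.2 - D ξ.2‖ := by
    have := norm_sub_norm_le ζ.2 (D ξ.2)
    linarith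
  have h5 : ‖D ξ.2‖ ≤ min α 1 / 100 * ‖ξ.2‖ := D.le_of_opNorm_le h.upper _
  have h6 : e * (min α 1 / 100) * ‖ξ.1‖ ≤ α / 100 * ‖ξ.1‖ := by
    apply mul_le_mul_of_nonneg_right _ hnn
    nlinarith
  have hfirst : 99 / 100 * α * ‖ξ.1‖ ≤ ‖ζ.1‖ := by linarith
  refine ⟨hfirst, ?_⟩
  have ht0 : 0 ≤ (t + e) * ‖ξ.1‖ := by
    have hh1 : 0 ≤ t * ‖ξ.1‖ := (norm_nonneg _).trans hξ
    have hh2 : 0 ≤ e * (min α 1 / 100) * ‖ξ.1‖ := (norm_nonneg _).trans h1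
    have hh3 : 0 ≤ e * ‖ξ.1‖ := by
      by_contra hcon
      push Not at hcon
      nlinarith
    nlinarith
  have h7 : ‖ζ.2‖ ≤ (t + e) * ‖ξ.1‖ * (min α 1 / 100) := by
    have : min α 1 / 100 * ‖ξ.2‖ ≤ min α 1 / 100 * (t * ‖ξ.1‖) :=
      mul_le_mul_of_nonneg_left hξ (by positivity)
    nlinarith
  have h8 : (t + e) * ‖ξ.1‖ * (min α 1 / 100) ≤ (t + e) * ‖ξ.1‖ * (α / 100) := by
    apply mul_le_mul_of_nonneg_left _ ht0
    linarith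
  have hte : 0 ≤ (t + e) ∨ ‖ξ.1‖ = 0 := by
    rcases hnn.eq_or_lt with h0 | h0
    · right; exact h0.symm
    · left
      by_contra hcon
      push Not at hcon
      nlinarith
  rcases hte with hte | h0
  · have : (t + e) / 99 * (99 / 100 * α * ‖ξ.1‖) ≤ (t + e) / 99 * ‖ζ.1‖ :=
      mul_le_mul_of_nonneg_left hfirst (by positivity)
    nlinarith
  · rw [h0] at h7 h1
    simp at h7
    rw [h7]
    simp only [mul_zero] at h1
    have hz1 : ζ.1 = A ξ.1 := by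
      rw [← sub_eq_zero]; exact norm_le_zero_iff.1 h1
    have hx0 : ξ.1 = 0 := norm_eq_zero.1 h0
    rw [hz1, hx0]; simp

/-- One step, vertical case. -/
theorem Dom.step_ver (h : Dom A D α) {ξ ζ : E × F}
    (hξ : ‖ξ.1‖ ≤ ‖ξ.2‖) (hz : ‖ζ - blk A D ξ‖ ≤ (min α 1 / 100) * ‖ξ‖)
    (hζ : ‖ζ.1‖ ≤ ‖ζ.2‖) :
    ‖ζ‖ ≤ min α 1 / 50 * ‖ξ‖ := by
  have hn : ‖ξ‖ = ‖ξ.2‖ := norm_eq_snd hξ
  have hn' : ‖ζ‖ = ‖ζ.2‖ := norm_eq_snd hζ
  rw [hn'] 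
  have h2 : ‖ζ.2 - D ξ.2‖ ≤ (min α 1 / 100) * ‖ξ‖ := by
    have := norm_snd_le' (ζ - blk A D ξ)
    simpa [blk_snd] using this.trans hz
  have h4 : ‖ζ.2‖ ≤ ‖D ξ.2‖ + ‖ζ.2 - D ξ.2‖ := by
    have := norm_sub_norm_le ζ.2 (D ξ.2)
    linarith
  have h5 : ‖D ξ.2‖ ≤ min α 1 / 100 * ‖ξ.2‖ := D.le_of_opNorm_le h.upper _
  rw [← hn] at h5
  linarith

/-- An approximate orbit of `blk A D`. -/
def ApproxOrbit (A : E →L[ℝ] E) (D : F →L[ℝ] F) (α : ℝ) (z : ℕ → E × F) : Prop :=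
  ∀ j, ‖z (j + 1) - blk A D (z j)‖ ≤ (min α 1 / 100) * ‖z j‖

theorem ApproxOrbit.shift {z : ℕ → E × F} (hz : ApproxOrbit A D α z) (i : ℕ) :
    ApproxOrbit A D α (fun j => z (i + j)) := fun j => hz (i + j)

theorem Dom.orbit_step_hor (h : Dom A D α) {z : ℕ → E × F} (hz : ApproxOrbit A D α z) {j : ℕ}
    (hj : ‖(z j).2‖ ≤ ‖(z j).1‖) :
    99 / 100 * α * ‖(z j).1‖ ≤ ‖(z (j + 1)).1‖ ∧ ‖(z (j + 1)).2‖ ≤ 1 / 2 * ‖(z (j + 1)).1‖ := by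
  have := h.step_hor (ξ := z j) (ζ := z (j + 1)) (t := 1) (e := 1) le_rfl (by simpa using hj) le_rfl
    (by simpa using hz j)
  refine ⟨this.1, this.2.trans ?_⟩
  nlinarith [norm_nonneg (z (j + 1)).1]

theorem Dom.orbit_hor (h : Dom A D α) {z : ℕ → E × F} (hz : ApproxOrbit A D α z)
    (h0 : ‖(z 0).2‖ ≤ ‖(z 0).1‖) (j : ℕ) :
    ‖(z j).2‖ ≤ ‖(z j).1‖ ∧ (99 / 100 * α) ^ j * ‖(z 0).1‖ ≤ ‖(z j).1‖ := by
  induction j with
  | zero => simpa using h0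
  | succ j ih =>
    have h1 := h.orbit_step_hor hz ih.1
    refine ⟨h1.2.trans (by nlinarith [norm_nonneg (z (j + 1)).1]), ?_⟩
    calc (99 / 100 * α) ^ (j + 1) * ‖(z 0).1‖
        = 99 / 100 * α * ((99 / 100 * α) ^ j * ‖(z 0).1‖) := by ring
      _ ≤ 99 / 100 * α * ‖(z j).1‖ :=
        mul_le_mul_of_nonneg_left ih.2 (by have := h.pos; positivity)
      _ ≤ _ := h1.1

theorem Dom.orbit_hor_of_le (h : Dom A D α) {z : ℕ → E × F} (hz : ApproxOrbit A D α z)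
    {i j : ℕ} (hij : i ≤ j) (h0 : ‖(z i).2‖ ≤ ‖(z i).1‖) :
    ‖(z j).2‖ ≤ ‖(z j).1‖ := by
  obtain ⟨k, rfl⟩ := Nat.exists_eq_add_of_le hij
  have := (h.orbit_hor (hz.shift i) (by simpa using h0) k).1
  simpa using this

theorem Dom.orbit_strict (h : Dom A D α) {z : ℕ → E × F} (hz : ApproxOrbit A D α z)
    {i j : ℕ} (hij : i ≤ j) (h0 : ‖(z i).2‖ < ‖(z i).1‖) :
    ‖(z j).2‖ < ‖(z j).1‖ := by
  induction j, hij using Nat.le_induction with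
  | base => exact h0
  | succ j hj ih =>
    have h1 := h.orbit_step_hor hz ih.le
    have h2 : 0 < ‖(z j).1‖ := lt_of_le_of_lt (norm_nonneg _) ih
    have h3 : 0 < ‖(z (j + 1)).1‖ := lt_of_lt_of_le (by have := h.pos; positivity) h1.1
    linarith [h1.2]

theorem Dom.orbit_ver (h : Dom A D α) {z : ℕ → E × F} (hz : ApproxOrbit A D α z)
    {j : ℕ} (hj : ∀ i ≤ j, ‖(z i).1‖ ≤ ‖(z i).2‖) :
    ‖z j‖ ≤ (min α 1 / 50) ^ j * ‖z 0‖ := by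
  induction j with
  | zero => simp
  | succ j ih =>
    have ih' := ih (fun i hi => hj i (hi.trans (Nat.le_succ _)))
    have h1 := h.step_ver (hj j (Nat.le_succ _)) (hz j) (hj (j + 1) le_rfl)
    have hμ := h.minpos
    calc ‖z (j + 1)‖ ≤ min α 1 / 50 * ‖z j‖ := h1
      _ ≤ min α 1 / 50 * ((min α 1 / 50) ^ j * ‖z 0‖) :=
        mul_le_mul_of_nonneg_left ih' (by positivity)
      _ = _ := by ring

/-- If the final vector is not strictly horizontal then the orbit contracts. -/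
theorem Dom.orbit_ver_of_last (h : Dom A D α) {z : ℕ → E × F} (hz : ApproxOrbit A D α z)
    {j : ℕ} (hj : ‖(z j).1‖ ≤ ‖(z j).2‖) :
    ‖z j‖ ≤ (min α 1 / 50) ^ j * ‖z 0‖ := by
  apply h.orbit_ver hz
  intro i hi
  by_contra hcon
  push Not at hcon
  have := h.orbit_strict hz hi hcon
  linarith

/-- Narrowing of the slope. -/
theorem Dom.orbit_narrow (h : Dom A D α) {σ : ℝ} (hσ : 0 < σ) :
    ∃ n₀ : ℕ, ∀ z : ℕ → E × F, ApproxOrbit A D α z →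
      (∀ j, ‖z (j + 1) - blk A D (z j)‖ ≤ σ * (min α 1 / 100) * ‖z j‖) →
      ‖(z 0).2‖ ≤ ‖(z 0).1‖ → ∀ j ≥ n₀, ‖(z j).2‖ ≤ σ * ‖(z j).1‖ := by
  rcases le_or_gt 1 σ with hσ1 | hσ1
  · refine ⟨0, fun z hz _ h0 j _ => ?_⟩
    have := (h.orbit_hor hz h0 j).1
    nlinarith [norm_nonneg (z j).1]
  obtain ⟨n₀, hn₀⟩ := exists_pow_lt_of_lt_one hσ (show (1 / 2 : ℝ) < 1 by norm_num)
  refine ⟨n₀, fun z hz hz' h0 j hj => ?_⟩
  have key : ∀ i, ‖(z i).2‖ ≤ max ((1 / 2 : ℝ) ^ i) σ * ‖(z i).1‖ := by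
    intro i
    induction i with
    | zero => 
      have : (1 : ℝ) ≤ max ((1 / 2 : ℝ) ^ 0) σ := by simp
      nlinarith [norm_nonneg (z 0).1]
    | succ i ih =>
      have hle : max ((1 / 2 : ℝ) ^ i) σ ≤ 1 := max_le (pow_le_one₀ (by norm_num) (by norm_num)) hσ1.le
      have h1 := (h.step_hor hle ih hσ1.le (hz' i)).2
      refine h1.trans (mul_le_mul_of_nonneg_right ?_ (norm_nonneg _))
      have hp : 0 < (1 / 2 : ℝ) ^ i := by positivity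
      rcases le_total ((1 / 2 : ℝ) ^ i) σ with hc | hc
      · rw [max_eq_right hc]
        refine le_trans ?_ (le_max_right _ _)
        linarith
      · rw [max_eq_left hc]
        refine le_trans ?_ (le_max_left _ _)
        rw [pow_succ]
        linarith
  refine (key j).trans (mul_le_mul_of_nonneg_right ?_ (norm_nonneg _))
  apply max_le _ le_rfl
  exact (pow_le_pow_of_le_one (by norm_num) (by norm_num) hj).trans hn₀.le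

end Cone

end Pool.Agent.Work.MP_429976_an
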