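import Mathlib

/-!
Volume count for problem MP_429976_an.
-/

namespace Pool.Agent.Work.MP_429976_an

open MeasureTheory Set Function

/-- Pairwise disjoint images of `D` under injective maps with `|det| ≥ a` inside `B`. -/
theorem card_mul_volume_le {ι : Type*} [Fintype ι] {c : ℕ} {D B : Set (Fin c → ℝ)}
    (hD : MeasurableSet D)
    {g : ι → (Fin c → ℝ) → (Fin c → ℝ)} {g' : ι → (Fin c → ℝ) → (Fin c → ℝ) →L[ℝ] (Fin c → ℝ)}
    (hg : ∀ i, ∀ x ∈ D, HasFDerivWithinAt (g i) (g' i x) D x) (hinj : ∀ i, InjOn (g i) D)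
    (hdisj : ∀ i j, i ≠ j → Disjoint (g i '' D) (g j '' D)) {a : ℝ}
    (hdet : ∀ i, ∀ x ∈ D, a ≤ |(g' i x).det|) (hB : ∀ i, g i '' D ⊆ B) :
    (Fintype.card ι : ENNReal) * (ENNReal.ofReal a * volume D) ≤ volume B := by
  have h1 : ∀ i, ENNReal.ofReal a * volume D ≤ volume (g i '' D) := by
    intro i
    rw [← lintegral_abs_det_fderiv_eq_addHaar_image volume hD (hg i) (hinj i)]
    calc ENNReal.ofReal a * volume D = ∫⁻ _ in D, ENNReal.ofReal a := by
          rw [setLIntegral_const]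
      _ ≤ ∫⁻ x in D, ENNReal.ofReal |(g' i x).det| :=
          setLIntegral_mono' hD fun x hx => ENNReal.ofReal_le_ofReal (hdet i x hx)
  have hmeas : ∀ i, MeasurableSet (g i '' D) := fun i =>
    measurable_image_of_fderivWithin hD (hg i) (hinj i)
  calc (Fintype.card ι : ENNReal) * (ENNReal.ofReal a * volume D)
      = ∑ _i : ι, ENNReal.ofReal a * volume D := by
        rw [Finset.sum_const, Finset.card_univ, nsmul_eq_mul]
    _ ≤ ∑ i : ι, volume (g i '' D) := Finset.sum_le_sum fun i _ => h1 i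
    _ = volume (⋃ i, g i '' D) := by
        rw [measure_iUnion (fun i j hij => hdisj i j hij) hmeas, tsum_fintype]
    _ ≤ volume B := measure_mono (iUnion_subset hB)

/-- With `2 ^ l` words and `|det| ≥ C b ^ l`, `b > 1/2`, one gets a contradiction. -/
theorem volume_contradiction {ι : ℕ → Type*} [∀ l, Fintype (ι l)]
    (hcard : ∀ l, Fintype.card (ι l) = 2 ^ l) {c : ℕ} {D B : Set (Fin c → ℝ)}
    (hD : MeasurableSet D) (hD0 : volume D ≠ 0) (hBfin : volume B ≠ ⊤)
    {g : ∀ l, ι l → (Fin c → ℝ) → (Fin c → ℝ)}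
    {g' : ∀ l, ι l → (Fin c → ℝ) → (Fin c → ℝ) →L[ℝ] (Fin c → ℝ)}
    (hg : ∀ l i, ∀ x ∈ D, HasFDerivWithinAt (g l i) (g' l i x) D x)
    (hinj : ∀ l i, InjOn (g l i) D)
    (hdisj : ∀ l, ∀ i j : ι l, i ≠ j → Disjoint (g l i '' D) (g l j '' D))
    (hB : ∀ l i, g l i '' D ⊆ B) {C b : ℝ} (hC : 0 < C) (hb : 1 / 2 < b)
    (hdet : ∀ l i, ∀ x ∈ D, C * b ^ l ≤ |(g' l i x).det|) : False := by
  have h1 : ∀ l : ℕ, ENNReal.ofReal (C * (2 * b) ^ l) * volume D ≤ volume B := by
    intro l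
    have h2 := card_mul_volume_le hD (hg l) (hinj l) (hdisj l) (hdet l) (hB l)
    rw [hcard l] at h2
    refine le_trans (le_of_eq ?_) h2
    rw [← mul_assoc]
    congr 1
    rw [mul_pow, show C * (2 ^ l * b ^ l) = 2 ^ l * (C * b ^ l) by ring,
      ENNReal.ofReal_mul (by positivity), ENNReal.ofReal_pow (by norm_num)]
    norm_num
  have htend : Filter.Tendsto (fun l : ℕ => C * (2 * b) ^ l) Filter.atTop Filter.atTop :=
    Filter.Tendsto.const_mul_atTop hC (tendsto_pow_atTop_atTop_of_one_lt (by linarith))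
  have htend2 : Filter.Tendsto (fun l : ℕ => ENNReal.ofReal (C * (2 * b) ^ l)) Filter.atTop
      (nhds ⊤) := ENNReal.tendsto_ofReal_atTop.comp htend
  have htend3 : Filter.Tendsto (fun l : ℕ => ENNReal.ofReal (C * (2 * b) ^ l) * volume D)
      Filter.atTop (nhds (⊤ * volume D)) :=
    ENNReal.Tendsto.mul_const htend2 (Or.inl ENNReal.top_ne_zero)
  rw [ENNReal.top_mul hD0] at htend3
  have := le_of_tendsto' htend3 h1
  exact hBfin (top_le_iff.1 this)

end Pool.Agent.Work.MP_429976_an
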