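import Pool.Agent.Work.MP_429976_an.Fix
import Pool.Agent.Work.MP_429976_an.Vol

/-!
Distortion and the volume contradiction.
-/

namespace Pool.Agent.Work.MP_429976_an

open Filter Topology Set Metric Module MeasureTheory

theorem exists_sigma (c : ℕ) : ∃ σ : ℝ, 0 < σ ∧ σ < 1 ∧
    ∀ θ : (Fin c → ℝ) →L[ℝ] (Fin c → ℝ), ‖θ‖ ≤ σ →
      19 / 20 ≤ |(1 + θ).det| ∧ |(1 + θ).det| ≤ 21 / 20 := by
  have hc : Continuous (fun θ : (Fin c → ℝ) →L[ℝ] (Fin c → ℝ) => |(1 + θ).det|) :=
    (ContinuousLinearMap.continuous_det.comp (continuous_const.add continuous_id)).abs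
  have h0 : (fun θ : (Fin c → ℝ) →L[ℝ] (Fin c → ℝ) => |(1 + θ).det|) 0 = 1 := by
    show |((1 : (Fin c → ℝ) →L[ℝ] (Fin c → ℝ)) + 0).det| = 1
    rw [add_zero]
    have : (1 : (Fin c → ℝ) →L[ℝ] (Fin c → ℝ)).det = 1 := LinearMap.det_id
    rw [this, abs_one]
  have h1 := Metric.continuousAt_iff.1 (hc.continuousAt (x := 0)) (1 / 20) (by norm_num)
  obtain ⟨δ, hδ, h2⟩ := h1
  refine ⟨min (δ / 2) (1 / 2), by positivity, lt_of_le_of_lt (min_le_right _ _) (by norm_num),
    fun θ hθ => ?_⟩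
  have h3 : dist θ 0 < δ := by
    rw [dist_zero_right]
    have := hθ.trans (min_le_left _ _)
    linarith
  have h4 := h2 h3
  have h5 : |((1 : (Fin c → ℝ) →L[ℝ] (Fin c → ℝ)) + 0).det| = 1 := h0
  rw [h5, Real.dist_eq, abs_lt] at h4
  constructor <;> linarith [h4.1, h4.2]

section Main

variable {F : Type*} [NormedAddCommGroup F] [NormedSpace ℝ F] [FiniteDimensional ℝ F] {c : ℕ}
  {K : Set ((Fin c → ℝ) × F)} {S : ℕ → Set ((Fin c → ℝ) × F → (Fin c → ℝ) × F)}
  {w : (Fin c → ℝ) × F} {r σ : ℝ} {T : Bool → ((Fin c → ℝ) × F → (Fin c → ℝ) × F)}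

theorem Letters.distortion (hS : BranchSystem K S) (hT : Letters S w r σ T) (hr : 0 < r)
    (hK : closedBall w r ⊆ K) (hσ0 : 0 ≤ σ) (hσ : σ < 1)
    (hdet : ∀ θ : (Fin c → ℝ) →L[ℝ] (Fin c → ℝ), ‖θ‖ ≤ σ →
      19 / 20 ≤ |(1 + θ).det| ∧ |(1 + θ).det| ≤ 21 / 20) :
    ∃ C > 0, ∀ s : List Bool, ∀ x ∈ closedBall w r, ∀ y ∈ closedBall w r,
      C * (3 / 4) ^ s.length * |(topmap (fderiv ℝ (wd T s) y)).det|
        ≤ |(topmap (fderiv ℝ (wd T s) x)).det| := by
  let f : Bool → (Fin c → ℝ) × F → ℝ := fun b p => |(topmap (fderiv ℝ (T b) p)).det|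
  have hcomp : IsCompact (closedBall w r) := isCompact_closedBall w r
  have hwB : w ∈ closedBall w r := mem_closedBall_self hr.le
  have hfc : ∀ b, ContinuousOn (f b) (closedBall w r) := by
    intro b p hp
    obtain ⟨m₁, hm₁⟩ := hT.mem b
    have h1 : ContinuousAt (fun p => fderiv ℝ (T b) p) p :=
      continuousAt_fderiv_of_contDiffAt (hS.contDiff _ _ hm₁ _ (hK hp))
    have h2 : ContinuousAt (fun p => topmap (fderiv ℝ (T b) p)) p := by
      unfold topmap
      exact continuousAt_const.clm_comp (h1.clm_comp continuousAt_const)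
    exact (ContinuousAt.comp (g := ContinuousLinearMap.det)
      (f := fun p => topmap (fderiv ℝ (T b) p))
      ContinuousLinearMap.continuous_det.continuousAt h2).abs.continuousWithinAt
  have hfpos : ∀ b, ∀ p ∈ closedBall w r, 0 < f b p := by
    intro b p hp
    obtain ⟨e, he⟩ := hT.letter_invertible hS hr hK b hp
    show 0 < |(topmap (fderiv ℝ (T b) p)).det|
    rw [← he, abs_pos]
    exact (LinearEquiv.isUnit_det' e.toLinearEquiv).ne_zero
  -- uniform bounds
  have hlow : ∃ m₀ > 0, ∀ b, ∀ p ∈ closedBall w r, m₀ ≤ f b p := by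
    have h1 : ∀ b, ∃ m₀ > 0, ∀ p ∈ closedBall w r, m₀ ≤ f b p := by
      intro b
      obtain ⟨p₀, hp₀, hmin⟩ := hcomp.exists_isMinOn ⟨w, hwB⟩ (hfc b)
      exact ⟨f b p₀, hfpos b p₀ hp₀, fun p hp => hmin hp⟩
    choose m₀ hm₀ hm₀' using h1
    refine ⟨min (m₀ true) (m₀ false), lt_min (hm₀ _) (hm₀ _), fun b p hp => ?_⟩
    cases b
    · exact (min_le_right _ _).trans (hm₀' _ p hp)
    · exact (min_le_left _ _).trans (hm₀' _ p hp)
  have hup : ∃ M₀ > 0, ∀ b, ∀ p ∈ closedBall w r, f b p ≤ M₀ := by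
    have h1 : ∀ b, ∃ M₀ > 0, ∀ p ∈ closedBall w r, f b p ≤ M₀ := by
      intro b
      obtain ⟨p₀, hp₀, hmax⟩ := hcomp.exists_isMaxOn ⟨w, hwB⟩ (hfc b)
      exact ⟨f b p₀, hfpos b p₀ hp₀, fun p hp => hmax hp⟩
    choose M₀ hM₀ hM₀' using h1
    refine ⟨max (M₀ true) (M₀ false), lt_max_of_lt_left (hM₀ _), fun b p hp => ?_⟩
    cases b
    · exact (hM₀' _ p hp).trans (le_max_right _ _)
    · exact (hM₀' _ p hp).trans (le_max_left _ _)
  obtain ⟨m₀, hm₀, hlow⟩ := hlow
  obtain ⟨M₀, hM₀, hup⟩ := hup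
  have hunif : ∃ δ > 0, ∀ b, ∀ p ∈ closedBall w r, ∀ q ∈ closedBall w r, dist p q ≤ δ →
      9 / 10 * f b q ≤ f b p := by
    have h1 : ∀ b, ∃ δ > 0, ∀ p ∈ closedBall w r, ∀ q ∈ closedBall w r, dist p q < δ →
        dist (f b p) (f b q) < m₀ / 10 := by
      intro b
      have h2 := hcomp.uniformContinuousOn_of_continuous (hfc b)
      exact Metric.uniformContinuousOn_iff.1 h2 (m₀ / 10) (by positivity)
    choose δ hδ hδ' using h1
    refine ⟨min (δ true) (δ false) / 2, by have := lt_min (hδ true) (hδ false); positivity,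
      fun b p hp q hq hpq => ?_⟩
    have h3 : dist p q < δ b := by
      have h4 : min (δ true) (δ false) ≤ δ b := by
        cases b
        · exact min_le_right _ _
        · exact min_le_left _ _
      have h5 := lt_min (hδ true) (hδ false)
      linarith
    have h6 := hδ' b p hp q hq h3
    rw [Real.dist_eq, abs_lt] at h6
    have h7 := hlow b q hq
    linarith [h6.1]
  obtain ⟨δ, hδ, hunif⟩ := hunif
  obtain ⟨N₀, hN₀⟩ := hT.wd_shrink hS hK hδ
  set c₁ := min (3 / 4) (19 / 21 * (m₀ / M₀)) with hc₁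
  have hc₁0 : 0 < c₁ := lt_min (by norm_num) (by positivity)
  have hc₁1 : c₁ ≤ 1 := (min_le_left _ _).trans (by norm_num)
  have key : ∀ s : List Bool, ∀ x ∈ closedBall w r, ∀ y ∈ closedBall w r,
      c₁ ^ (min s.length N₀) * (3 / 4) ^ s.length * |(topmap (fderiv ℝ (wd T s) y)).det|
        ≤ |(topmap (fderiv ℝ (wd T s) x)).det| := by
    intro s
    induction s with
    | nil =>
      intro x hx y hy
      simp only [wd_nil, fderiv_id]
      simp
    | cons b s ih =>
      intro x hx y hy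
      obtain ⟨θ, hθ, hx1⟩ := hT.det_step hS hr hK hσ0 hσ b s hx
      obtain ⟨θ', hθ', hy1⟩ := hT.det_step hS hr hK hσ0 hσ b s hy
      have ih' := ih x hx y hy
      have hxs := hT.wd_maps s hx
      have hys := hT.wd_maps s hy
      rw [hx1, hy1, abs_mul, abs_mul, abs_mul, abs_mul]
      have e1 := (hdet θ hθ).1
      have e2 := (hdet θ' hθ').2
      set fx := |(topmap (fderiv ℝ (T b) (wd T s x))).det| with hfx
      set fy := |(topmap (fderiv ℝ (T b) (wd T s y))).det| with hfy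
      set dx := |(1 + θ).det|
      set dy := |(1 + θ').det|
      set gx := |(topmap (fderiv ℝ (wd T s) x)).det|
      set gy := |(topmap (fderiv ℝ (wd T s) y)).det|
      have hfx0 : 0 < fx := hfpos b _ hxs
      have hfy0 : 0 < fy := hfpos b _ hys
      have hgy0 : 0 ≤ gy := abs_nonneg _
      have hgx0 : 0 ≤ gx := abs_nonneg _
      have hdy0 : 0 ≤ dy := abs_nonneg _
      -- the factor of one letter
      have hfac : ∀ q : ℝ, 0 ≤ q → 21 / 19 * q * fy ≤ fx → q * (fy * dy) ≤ fx * dx := by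
        intro q hq h1
        have h2 : q * (fy * dy) ≤ q * (fy * (21 / 20)) := by
          apply mul_le_mul_of_nonneg_left _ hq
          exact mul_le_mul_of_nonneg_left e2 hfy0.le
        have h3 : 21 / 19 * q * fy * (19 / 20) ≤ fx * dx := by
          apply mul_le_mul h1 e1 (by norm_num) hfx0.le
        linarith
      rcases lt_or_ge s.length N₀ with hl | hl
      · have h1 : min (b :: s).length N₀ = min s.length N₀ + 1 := by
          rw [List.length_cons]; omega
        have h2 : c₁ * (fy * dy) ≤ fx * dx := by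
          apply hfac c₁ hc₁0.le
          have h3 : c₁ ≤ 19 / 21 * (m₀ / M₀) := min_le_right _ _
          have h4 : m₀ / M₀ * fy ≤ m₀ := by
            have := hup b _ hys
            have h5 : m₀ / M₀ * fy ≤ m₀ / M₀ * M₀ :=
              mul_le_mul_of_nonneg_left this (by positivity)
            rwa [div_mul_cancel₀ _ hM₀.ne'] at h5
          have h5 := hlow b _ hxs
          have h6 : 21 / 19 * c₁ * fy ≤ 21 / 19 * (19 / 21 * (m₀ / M₀)) * fy := by
            apply mul_le_mul_of_nonneg_right _ hfy0.le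
            linarith
          have h7 : 21 / 19 * (19 / 21 * (m₀ / M₀)) * fy = m₀ / M₀ * fy := by ring
          have h8 : m₀ ≤ fx := h5
          linarith
        have h9 : c₁ * (3 / 4) * (fy * dy) ≤ fx * dx := by
          have h10 : 0 ≤ c₁ * (fy * dy) := by positivity
          nlinarith
        rw [h1, List.length_cons]
        calc c₁ ^ (min s.length N₀ + 1) * (3 / 4) ^ (s.length + 1) * (fy * dy * gy)
            = (c₁ * (3 / 4) * (fy * dy)) * (c₁ ^ (min s.length N₀) * (3 / 4) ^ s.length * gy) := by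
              ring
          _ ≤ (fx * dx) * gx := by
              apply mul_le_mul h9 ih' (by positivity) (by positivity)
          _ = fx * dx * gx := by ring
      · have h1 : min (b :: s).length N₀ = min s.length N₀ := by
          rw [List.length_cons]; omega
        have h2 : 3 / 4 * (fy * dy) ≤ fx * dx := by
          apply hfac (3 / 4) (by norm_num)
          have h3 := hunif b _ hxs _ hys (hN₀ s hl x hx y hy)
          have h4 : 9 / 10 * fy ≤ fx := h3
          linarith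
        rw [h1, List.length_cons]
        calc c₁ ^ (min s.length N₀) * (3 / 4) ^ (s.length + 1) * (fy * dy * gy)
            = (3 / 4 * (fy * dy)) * (c₁ ^ (min s.length N₀) * (3 / 4) ^ s.length * gy) := by
              ring
          _ ≤ (fx * dx) * gx := by
              apply mul_le_mul h2 ih' (by positivity) (by positivity)
          _ = fx * dx * gx := by ring
  refine ⟨c₁ ^ N₀, by positivity, fun s x hx y hy => ?_⟩
  refine le_trans ?_ (key s x hx y hy)
  apply mul_le_mul_of_nonneg_right _ (abs_nonneg _)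
  apply mul_le_mul_of_nonneg_right _ (by positivity)
  exact pow_le_pow_of_le_one hc₁0.le hc₁1 (min_le_right _ _)

/-- The contradiction for a pair of letters. -/
theorem Letters.false (hS : BranchSystem K S) (hT : Letters S w r σ T) (hr : 0 < r)
    (hK : closedBall w r ⊆ K) (hσ0 : 0 ≤ σ) (hσ : σ < 1)
    (hmax : ∀ m, ∀ h ∈ S m, ∀ y ∈ K, h y = y →
      finrank ℝ (stable (fderiv ℝ h y)) ≤ finrank ℝ F)
    (hdet : ∀ θ : (Fin c → ℝ) →L[ℝ] (Fin c → ℝ), ‖θ‖ ≤ σ →
      19 / 20 ≤ |(1 + θ).det| ∧ |(1 + θ).det| ≤ 21 / 20) : False := by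
  obtain ⟨C, hC, hdist⟩ := hT.distortion hS hr hK hσ0 hσ hdet
  have hlower : ∀ s : List Bool, ∀ x ∈ closedBall w r,
      min 1 (C * (20 / 21)) * (3 / 4) ^ s.length ≤ |(topmap (fderiv ℝ (wd T s) x)).det| := by
    intro s x hx
    rcases eq_or_ne s [] with rfl | hne
    · have h1 : topmap (fderiv ℝ (wd T []) x) = 1 := by
        ext1 u
        rw [topmap_apply, wd_nil, fderiv_id]; rfl
      rw [h1]
      have h2 : (1 : (Fin c → ℝ) →L[ℝ] (Fin c → ℝ)).det = 1 := LinearMap.det_id
      rw [h2]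
      simp
    · obtain ⟨ms, hms, _⟩ := hT.wd_mem hS s hne
      obtain ⟨y, hy, hfix⟩ := hS.exists_fixed hms hK isClosed_closedBall
        ⟨w, mem_closedBall_self hr.le⟩ (fun x hx => hT.wd_maps s hx)
      have h1 := hT.det_fixed hS hr hK hσ0 hσ hmax (fun θ hθ => (hdet θ hθ).2) s hne hy hfix
      have h2 := hdist s x hx y hy
      have h3 : 0 < (3 / 4 : ℝ) ^ s.length := by positivity
      calc min 1 (C * (20 / 21)) * (3 / 4) ^ s.length
          ≤ C * (20 / 21) * (3 / 4) ^ s.length :=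
            mul_le_mul_of_nonneg_right (min_le_right _ _) h3.le
        _ = C * (3 / 4) ^ s.length * (20 / 21) := by ring
        _ ≤ C * (3 / 4) ^ s.length * |(topmap (fderiv ℝ (wd T s) y)).det| :=
            mul_le_mul_of_nonneg_left h1 (by positivity)
        _ ≤ _ := h2
  -- horizontal slice
  have hslice : ∀ u ∈ Metric.ball w.1 r, ((u, w.2) : (Fin c → ℝ) × F) ∈ closedBall w r := by
    intro u hu
    rw [mem_closedBall, Prod.dist_eq]
    apply max_le (mem_ball.1 hu).le
    simp [hr.le]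
  have hinjS : ∀ s : List Bool, ∀ u ∈ Metric.ball w.1 r, ∀ u' ∈ Metric.ball w.1 r,
      (wd T s (u, w.2)).1 = (wd T s (u', w.2)).1 → u = u' := by
    intro s u hu u' hu' heq
    have h1 := hT.wd_hor hσ.le s (hslice u hu) (hslice u' hu') (by simp)
    rw [Prod.fst_sub, Prod.snd_sub, ← heq, sub_self, norm_zero] at h1
    have h2 : (wd T s (u', w.2)).2 = (wd T s (u, w.2)).2 := by
      rw [← sub_eq_zero]; exact norm_le_zero_iff.1 h1
    have h3 : wd T s (u, w.2) = wd T s (u', w.2) := Prod.ext heq h2.symm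
    exact congrArg Prod.fst (hT.wd_injOn hS hK s (hslice u hu) (hslice u' hu') h3)
  refine volume_contradiction (ι := fun l => (Fin l → Bool)) (c := c) (D := Metric.ball w.1 r)
    (B := closedBall w.1 r) (fun l => by simp) measurableSet_ball
    (measure_ball_pos volume _ hr).ne' measure_closedBall_lt_top.ne
    (g := fun l i u => (wd T (List.ofFn i) (u, w.2)).1)
    (g' := fun l i u => topmap (fderiv ℝ (wd T (List.ofFn i)) (u, w.2)))
    ?_ ?_ ?_ ?_ (C := min 1 (C * (20 / 21))) (b := 3 / 4) (lt_min one_pos (by positivity))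
    (by norm_num) ?_
  · intro l i u hu
    have h1 : HasFDerivAt (wd T (List.ofFn i)) (fderiv ℝ (wd T (List.ofFn i)) (u, w.2))
        (u, w.2) :=
      ((hT.wd_contDiff hS hK _ (hslice u hu)).differentiableAt (by norm_num)).hasFDerivAt
    have h2 : HasFDerivAt (fun u : Fin c → ℝ => ((u, w.2) : (Fin c → ℝ) × F))
        (ContinuousLinearMap.inl ℝ (Fin c → ℝ) F) u := hasFDerivAt_prodMk_left u w.2
    have h3 := h1.comp u h2
    have h4 := (ContinuousLinearMap.fst ℝ (Fin c → ℝ) F).hasFDerivAt.comp u h3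
    exact h4.hasFDerivWithinAt
  · intro l i u hu u' hu' heq
    exact hinjS _ u hu u' hu' heq
  · intro l i j hij
    rw [Set.disjoint_left]
    rintro z ⟨u, hu, hz⟩ ⟨u', hu', hz'⟩
    have hne : List.ofFn i ≠ List.ofFn j := fun h => hij (List.ofFn_injective h)
    have h1 := hT.wd_sep hS hσ.le hK (List.ofFn i) (List.ofFn j) (by simp) hne _
      (hslice u hu) _ (hslice u' hu')
    apply h1.2
    have h2 : (wd T (List.ofFn i) (u, w.2)).1 = (wd T (List.ofFn j) (u', w.2)).1 := by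
      have h3 : (wd T (List.ofFn i) (u, w.2)).1 = z := hz
      have h4 : (wd T (List.ofFn j) (u', w.2)).1 = z := hz'
      rw [h3, h4]
    have h3 := h1.1
    rw [Prod.fst_sub, Prod.snd_sub, h2, sub_self, norm_zero] at h3
    have h4 : (wd T (List.ofFn j) (u', w.2)).2 = (wd T (List.ofFn i) (u, w.2)).2 := by
      rw [← sub_eq_zero]; exact norm_le_zero_iff.1 h3
    exact Prod.ext h2.symm h4
  · intro l i
    rintro z ⟨u, hu, rfl⟩
    have h1 := hT.wd_maps (List.ofFn i) (hslice u hu)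
    rw [mem_closedBall, Prod.dist_eq] at h1
    rw [mem_closedBall]
    exact (le_max_left _ _).trans h1
  · intro l i u hu
    have h1 := hlower (List.ofFn i) _ (hslice u hu)
    rwa [List.length_ofFn] at h1

end Main

theorem core_false {c d : ℕ} (hc : 1 ≤ c) {K : Set ((Fin c → ℝ) × (Fin d → ℝ))}
    {S : ℕ → Set ((Fin c → ℝ) × (Fin d → ℝ) → (Fin c → ℝ) × (Fin d → ℝ))}
    {a : (Fin c → ℝ) × (Fin d → ℝ) → (Fin c → ℝ) × (Fin d → ℝ)} {m₀ : ℕ}
    {w : (Fin c → ℝ) × (Fin d → ℝ)} {A : (Fin c → ℝ) →L[ℝ] (Fin c → ℝ)}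
    {D : (Fin d → ℝ) →L[ℝ] (Fin d → ℝ)} {α : ℝ} (hS : BranchSystem K S) (ha : a ∈ S m₀)
    (hw : w ∈ K) (hfix : a w = w) (hderiv : fderiv ℝ a w = blk A D) (hdom : Dom A D α)
    (hmax : ∀ m, ∀ h ∈ S m, ∀ y ∈ K, h y = y → finrank ℝ (stable (fderiv ℝ h y)) ≤ d) :
    False := by
  have : Nonempty (Fin c) := ⟨⟨0, hc⟩⟩
  obtain ⟨r, hcore⟩ := exists_core hS ha hw hfix hderiv hdom
  obtain ⟨σ, hσ0, hσ1, hdet⟩ := exists_sigma c
  obtain ⟨T, hT⟩ := hcore.exists_letters hσ0
  have hfr : finrank ℝ (Fin d → ℝ) = d := by simp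
  exact hT.false hS hcore.rpos (fun x hx => hcore.memK hx) hσ0.le hσ1
    (by rw [hfr]; exact hmax) hdet

end Pool.Agent.Work.MP_429976_an
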