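import Mathlib

/-!
Definitions for problem MP_429976_an.
-/

namespace Pool.Agent.Work.MP_429976_an

open Filter Topology Set

/-- `f` is positively expansive: there is `δ > 0` such that any two distinct points are at some
time `k ≥ 0` at distance more than `δ`. -/
def PositivelyExpansive {M : Type*} [MetricSpace M] (f : M → M) : Prop :=
  ∃ δ > 0, ∀ x y : M, x ≠ y → ∃ k : ℕ, δ < dist (f^[k] x) (f^[k] y)

/-- A graded semigroup `S` of contracting `C¹` maps `K → interior K` of a compact set `K`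
(`S m` plays the role of the inverse branches of the `m`-th iterate of an expansive map). -/
structure BranchSystem {V : Type*} [NormedAddCommGroup V] [NormedSpace ℝ V]
    (K : Set V) (S : ℕ → Set (V → V)) : Prop where
  compact : IsCompact K
  nonempty : (interior K).Nonempty
  pos : ∀ m, ∀ h ∈ S m, 1 ≤ m
  maps : ∀ m, ∀ h ∈ S m, ∀ x ∈ K, h x ∈ interior K
  contDiff : ∀ m, ∀ h ∈ S m, ∀ x ∈ K, ContDiffAt ℝ 1 h x
  inj : ∀ m, ∀ h ∈ S m, Set.InjOn h K
  deriv_inj : ∀ m, ∀ h ∈ S m, ∀ x ∈ K, Function.Injective (fderiv ℝ h x)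
  comp : ∀ m m', ∀ g ∈ S m, ∀ h ∈ S m', g ∘ h ∈ S (m + m')
  shrink : ∀ ε > 0, ∃ N, ∀ m ≥ N, ∀ h ∈ S m, ∀ x ∈ K, ∀ y ∈ K, dist (h x) (h y) ≤ ε
  dense : ∀ x ∈ interior K, ∀ ε > 0, ∃ m, ∃ h ∈ S m, ∀ y ∈ K, dist (h y) x < ε

end Pool.Agent.Work.MP_429976_an
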