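import Pool.Agent.Work.MP_429976_an.Setup

/-!
The field of projections along the strongly contracted subspaces.
-/

namespace Pool.Agent.Work.MP_429976_an

open Filter Topology Set Metric

theorem isInvertible_of_injective {E : Type*} [NormedAddCommGroup E] [NormedSpace ℝ E]
    [FiniteDimensional ℝ E] (X : E →L[ℝ] E) (hX : Function.Injective X) : X.IsInvertible := by
  let e := LinearEquiv.ofInjectiveEndo (X : E →ₗ[ℝ] E) hX
  exact ⟨e.toContinuousLinearEquiv, by ext; rfl⟩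

theorem continuousAt_fderiv_of_contDiffAt {V W : Type*} [NormedAddCommGroup V] [NormedSpace ℝ V]
    [NormedAddCommGroup W] [NormedSpace ℝ W] {f : V → W} {x : V} (h : ContDiffAt ℝ 1 f x) :
    ContinuousAt (fderiv ℝ f) x := by
  have h1 : ContDiffAt ℝ 0 (fderiv ℝ f) x := h.fderiv_right (by norm_num)
  exact h1.continuousAt

section

variable {E F : Type*} [NormedAddCommGroup E] [NormedSpace ℝ E] [NormedAddCommGroup F]
  [NormedSpace ℝ F]

/-- The upper left block of a map of `E × F`. -/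
noncomputable def topmap (N : E × F →L[ℝ] E × F) : E →L[ℝ] E :=
  (ContinuousLinearMap.fst ℝ E F).comp (N.comp (ContinuousLinearMap.inl ℝ E F))

theorem topmap_apply (N : E × F →L[ℝ] E × F) (u : E) : topmap N u = (N (u, 0)).1 := rfl

/-- The projection to `E` along `N⁻¹ (0 × F)`. -/
noncomputable def pr (N : E × F →L[ℝ] E × F) : E × F →L[ℝ] E :=
  (topmap N).inverse.comp ((ContinuousLinearMap.fst ℝ E F).comp N)

theorem pr_apply (N : E × F →L[ℝ] E × F) (ξ : E × F) :
    pr N ξ = (topmap N).inverse (N ξ).1 := rfl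

theorem pr_inl {N : E × F →L[ℝ] E × F} (h : (topmap N).IsInvertible) (u : E) :
    pr N (u, 0) = u := by
  rw [pr_apply, ← topmap_apply, h.inverse_apply_self]

theorem pr_ker {N : E × F →L[ℝ] E × F} (h : (topmap N).IsInvertible) (ξ : E × F) :
    (N (ξ - (pr N ξ, 0))).1 = 0 := by
  rw [map_sub, Prod.fst_sub, ← topmap_apply, pr_apply, h.self_apply_inverse, sub_self]

end

section Field

variable {E F : Type*} [NormedAddCommGroup E] [NormedSpace ℝ E] [NormedAddCommGroup F]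
  [NormedSpace ℝ F] [FiniteDimensional ℝ E]
  {K : Set (E × F)} {S : ℕ → Set (E × F → E × F)} {a : E × F → E × F} {m₀ : ℕ}
  {w : E × F} {A : E →L[ℝ] E} {D : F →L[ℝ] F} {α r : ℝ}

namespace Core

section basic

omit [FiniteDimensional ℝ E]

theorem memK (h : Core K S a m₀ w A D α r) {x : E × F} (hx : x ∈ closedBall w r) : x ∈ K :=
  interior_subset (h.ballK hx)

theorem fderiv_succ (h : Core K S a m₀ w A D α r) {x : E × F} (hx : x ∈ K) (j : ℕ) :
    fderiv ℝ (a^[j + 1]) x = (fderiv ℝ a (a^[j] x)).comp (fderiv ℝ (a^[j]) x) := by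
  rw [Function.iterate_succ']
  apply fderiv_comp
  · exact (h.sys.contDiff _ _ h.ha _ (h.sys.iter_mapsK h.ha j hx)).differentiableAt (by norm_num)
  · exact (h.sys.iter_contDiff h.ha j hx).differentiableAt (by norm_num)

theorem vec_orbit (h : Core K S a m₀ w A D α r) {x : E × F} (hx : x ∈ closedBall w r)
    (ξ : E × F) : ApproxOrbit A D α (fun j => fderiv ℝ (a^[j]) x ξ) := by
  intro j
  have h1 := h.dstep x hx j
  have h2 : fderiv ℝ (a^[j + 1]) x ξ - blk A D (fderiv ℝ (a^[j]) x ξ)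
      = (fderiv ℝ a (a^[j] x) - blk A D) (fderiv ℝ (a^[j]) x ξ) := by
    rw [h.fderiv_succ (h.memK hx) j]; rfl
  show ‖fderiv ℝ (a^[j + 1]) x ξ - blk A D (fderiv ℝ (a^[j]) x ξ)‖ ≤ _
  rw [h2]
  exact ContinuousLinearMap.le_of_opNorm_le _ h1 _

theorem fderiv_zero (x ξ : E × F) : fderiv ℝ (a^[0]) x ξ = ξ := by
  have : (a^[0]) = id := rfl
  rw [this, fderiv_id]; rfl

theorem top_lower (h : Core K S a m₀ w A D α r) {x : E × F} (hx : x ∈ closedBall w r) (j : ℕ)
    (u : E) : (99 / 100 * α) ^ j * ‖u‖ ≤ ‖topmap (fderiv ℝ (a^[j]) x) u‖ := by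
  have := (h.dom.orbit_hor (h.vec_orbit hx (u, 0)) (by
    show ‖(fderiv ℝ (a^[0]) x (u, (0 : F))).2‖ ≤ ‖(fderiv ℝ (a^[0]) x (u, (0 : F))).1‖
    rw [fderiv_zero]; simp) j).2
  rw [fderiv_zero] at this
  exact this

end basic

theorem top_invertible (h : Core K S a m₀ w A D α r) {x : E × F} (hx : x ∈ closedBall w r)
    (j : ℕ) : (topmap (fderiv ℝ (a^[j]) x)).IsInvertible := by
  apply isInvertible_of_injective
  rw [injective_iff_map_eq_zero]
  intro u hu
  have h1 := h.top_lower hx j u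
  rw [hu, norm_zero] at h1
  have h2 : 0 < (99 / 100 * α) ^ j := by have := h.dom.pos; positivity
  have h3 : ‖u‖ ≤ 0 := by
    by_contra hcon
    push Not at hcon
    nlinarith [mul_pos h2 hcon]
  exact norm_le_zero_iff.1 h3

theorem inverse_le (h : Core K S a m₀ w A D α r) {x : E × F} (hx : x ∈ closedBall w r)
    (j : ℕ) (u : E) :
    ‖(topmap (fderiv ℝ (a^[j]) x)).inverse u‖ ≤ ((99 / 100 * α) ^ j)⁻¹ * ‖u‖ := by
  have h1 := h.top_lower hx j ((topmap (fderiv ℝ (a^[j]) x)).inverse u)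
  rw [(h.top_invertible hx j).self_apply_inverse] at h1
  have h2 : 0 < (99 / 100 * α) ^ j := by have := h.dom.pos; positivity
  rw [inv_mul_eq_div, le_div_iff₀ h2]
  linarith

theorem pr_vert_le (h : Core K S a m₀ w A D α r) {x : E × F} (hx : x ∈ closedBall w r)
    (j : ℕ) (v : F) : ‖pr (fderiv ℝ (a^[j]) x) (0, v)‖ ≤ ‖v‖ := by
  by_contra hcon
  push Not at hcon
  set N := fderiv ℝ (a^[j]) x
  have h1 := pr_ker (h.top_invertible hx j) ((0 : E), v)
  have h2 := h.dom.orbit_strict (h.vec_orbit hx (((0 : E), v) - (pr N (0, v), 0))) (Nat.zero_le j)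
    (by
      show ‖(fderiv ℝ (a^[0]) x _).2‖ < ‖(fderiv ℝ (a^[0]) x _).1‖
      rw [fderiv_zero]
      simpa using hcon)
  have h3 : ‖(N (((0 : E), v) - (pr N (0, v), 0))).2‖ < ‖(N (((0 : E), v) - (pr N (0, v), 0))).1‖ :=
    h2
  rw [h1, norm_zero] at h3
  exact absurd (norm_nonneg _) (not_le.2 h3)

theorem pr_le (h : Core K S a m₀ w A D α r) {x : E × F} (hx : x ∈ closedBall w r)
    (j : ℕ) (ξ : E × F) : ‖pr (fderiv ℝ (a^[j]) x) ξ‖ ≤ 2 * ‖ξ‖ := by
  have h1 : ξ = (ξ.1, 0) + (0, ξ.2) := by simp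
  have h2 : pr (fderiv ℝ (a^[j]) x) ξ = ξ.1 + pr (fderiv ℝ (a^[j]) x) (0, ξ.2) := by
    conv_lhs => rw [h1]
    rw [map_add, pr_inl (h.top_invertible hx j)]
  rw [h2]
  have := norm_add_le ξ.1 (pr (fderiv ℝ (a^[j]) x) (0, ξ.2))
  have h3 := h.pr_vert_le hx j ξ.2
  have h4 := norm_fst_le' ξ
  have h5 := norm_snd_le' ξ
  linarith

theorem pr_diff (h : Core K S a m₀ w A D α r) {x : E × F} (hx : x ∈ closedBall w r)
    (j : ℕ) :
    ‖pr (fderiv ℝ (a^[j + 1]) x) - pr (fderiv ℝ (a^[j]) x)‖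
      ≤ 3 * (‖blk A D‖ + 1) * (99 / 100 * α)⁻¹ * (1 / 2) ^ j := by
  have hα := h.dom.pos
  have hμ := h.dom.minpos
  apply ContinuousLinearMap.opNorm_le_bound _ (by positivity)
  intro ξ
  set N := fderiv ℝ (a^[j]) x with hN
  set N' := fderiv ℝ (a^[j + 1]) x with hN'
  set ζ := ξ - (pr N ξ, 0) with hζ
  have h1 : pr N' ξ - pr N ξ = pr N' ζ := by
    have : ξ = ζ + (pr N ξ, 0) := by simp [hζ]
    conv_lhs => rw [this]
    rw [map_add, pr_inl (h.top_invertible hx (j + 1)), map_add,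
      pr_inl (h.top_invertible hx j)]
    have h0 : pr N ζ = 0 := by
      rw [pr_apply, pr_ker (h.top_invertible hx j), map_zero]
    rw [h0]; simp
  have h2 : ‖ζ‖ ≤ 3 * ‖ξ‖ := by
    have := norm_sub_le ξ ((pr N ξ, 0) : E × F)
    have h3 := h.pr_le hx j ξ
    have h4 : ‖((pr N ξ, 0) : E × F)‖ = ‖pr N ξ‖ := by simp
    rw [h4] at this
    linarith
  have hker := pr_ker (h.top_invertible hx j) ξ
  have h3 : ‖N ζ‖ ≤ (min α 1 / 50) ^ j * ‖ζ‖ := by
    have := h.dom.orbit_ver_of_last (h.vec_orbit hx ζ) (j := j) (by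
      show ‖(N ζ).1‖ ≤ ‖(N ζ).2‖
      rw [hker, norm_zero]; exact norm_nonneg _)
    rw [fderiv_zero] at this
    exact this
  have h4 : ‖N' ζ‖ ≤ (‖blk A D‖ + 1) * ‖N ζ‖ := by
    have h5 := h.vec_orbit hx ζ j
    have h6 : ‖N' ζ - blk A D (N ζ)‖ ≤ min α 1 / 100 * ‖N ζ‖ := h5
    have h7 := norm_sub_norm_le (N' ζ) (blk A D (N ζ))
    have h8 := (blk A D).le_opNorm (N ζ)
    have h9 : min α 1 / 100 * ‖N ζ‖ ≤ 1 * ‖N ζ‖ := by
      apply mul_le_mul_of_nonneg_right _ (norm_nonneg _)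
      have := min_le_right α 1
      linarith
    nlinarith
  have h5 : ‖pr N' ζ‖ ≤ ((99 / 100 * α) ^ (j + 1))⁻¹ * ‖N' ζ‖ := by
    rw [pr_apply]
    refine (h.inverse_le hx (j + 1) _).trans ?_
    exact mul_le_mul_of_nonneg_left (norm_fst_le' _) (by positivity)
  have h6 : ((99 / 100 * α) ^ j)⁻¹ * (min α 1 / 50) ^ j ≤ (1 / 2) ^ j := by
    rw [← inv_pow, ← mul_pow]
    apply pow_le_pow_left₀ (by positivity)
    rw [inv_mul_le_iff₀ (by positivity)]
    have := min_le_left α 1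
    linarith
  show ‖pr N' ξ - pr N ξ‖ ≤ _
  rw [h1]
  calc ‖pr N' ζ‖ ≤ ((99 / 100 * α) ^ (j + 1))⁻¹ * ‖N' ζ‖ := h5
    _ ≤ ((99 / 100 * α) ^ (j + 1))⁻¹ * ((‖blk A D‖ + 1) * ((min α 1 / 50) ^ j * (3 * ‖ξ‖))) := by
        apply mul_le_mul_of_nonneg_left _ (by positivity)
        refine h4.trans (mul_le_mul_of_nonneg_left ?_ (by positivity))
        exact h3.trans (mul_le_mul_of_nonneg_left h2 (by positivity))
    _ = 3 * (‖blk A D‖ + 1) * (99 / 100 * α)⁻¹ * (((99 / 100 * α) ^ j)⁻¹ * (min α 1 / 50) ^ j)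
        * ‖ξ‖ := by
        rw [pow_succ, mul_inv]; ring
    _ ≤ 3 * (‖blk A D‖ + 1) * (99 / 100 * α)⁻¹ * (1 / 2) ^ j * ‖ξ‖ := by
        apply mul_le_mul_of_nonneg_right _ (norm_nonneg _)
        exact mul_le_mul_of_nonneg_left h6 (by positivity)

/-- Existence of the field of projections. -/
theorem exists_field (h : Core K S a m₀ w A D α r) :
    ∃ P : E × F → (E × F →L[ℝ] E), ContinuousOn P (closedBall w r) ∧
      (∀ x ∈ closedBall w r, ∀ u : E, P x (u, 0) = u) ∧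
      (∀ x ∈ closedBall w r, ∀ ξ : E × F,
        (∀ j, ‖(fderiv ℝ (a^[j]) x ξ).1‖ ≤ ‖(fderiv ℝ (a^[j]) x ξ).2‖) → P x ξ = 0) := by
  have hα := h.dom.pos
  have hμ := h.dom.minpos
  set C := 3 * (‖blk A D‖ + 1) * (99 / 100 * α)⁻¹ with hC
  have hsum : Summable (fun j : ℕ => C * (1 / 2 : ℝ) ^ j) :=
    (summable_geometric_of_lt_one (by norm_num) (by norm_num)).mul_left C
  let P : E × F → (E × F →L[ℝ] E) := fun x => pr (fderiv ℝ (a^[0]) x) +
    ∑' j : ℕ, (pr (fderiv ℝ (a^[j + 1]) x) - pr (fderiv ℝ (a^[j]) x))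
  have hlim : ∀ x ∈ closedBall w r,
      Tendsto (fun j => pr (fderiv ℝ (a^[j]) x)) atTop (𝓝 (P x)) := by
    intro x hx
    have h1 : Summable (fun j : ℕ => (pr (fderiv ℝ (a^[j + 1]) x) - pr (fderiv ℝ (a^[j]) x))) :=
      Summable.of_norm_bounded hsum (fun j => h.pr_diff hx j)
    have h2 := h1.hasSum.tendsto_sum_nat
    have h3 : ∀ n : ℕ, ∑ j ∈ Finset.range n,
        (pr (fderiv ℝ (a^[j + 1]) x) - pr (fderiv ℝ (a^[j]) x))
        = pr (fderiv ℝ (a^[n]) x) - pr (fderiv ℝ (a^[0]) x) := by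
      intro n
      exact Finset.sum_range_sub (fun j => pr (fderiv ℝ (a^[j]) x)) n
    simp only [h3] at h2
    have h4 := h2.const_add (pr (fderiv ℝ (a^[0]) x))
    exact h4.congr (fun n => by rw [add_sub_cancel])
  have hcont : ∀ j, ContinuousOn (fun x => pr (fderiv ℝ (a^[j]) x)) (closedBall w r) := by
    intro j x hx
    have hN : ContinuousAt (fun x => fderiv ℝ (a^[j]) x) x :=
      continuousAt_fderiv_of_contDiffAt (h.sys.iter_contDiff h.ha j (h.memK hx))
    have hT : ContinuousAt (fun x => topmap (fderiv ℝ (a^[j]) x)) x := by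
      unfold topmap
      exact continuousAt_const.clm_comp (hN.clm_comp continuousAt_const)
    have hI : ContinuousAt (fun x => (topmap (fderiv ℝ (a^[j]) x)).inverse) x := by
      have h1 : ContinuousAt ContinuousLinearMap.inverse (topmap (fderiv ℝ (a^[j]) x)) :=
        ((h.top_invertible hx j).contDiffAt_map_inverse (n := 0)).continuousAt
      exact ContinuousAt.comp (f := fun x => topmap (fderiv ℝ (a^[j]) x)) h1 hT
    exact (hI.clm_comp (continuousAt_const.clm_comp hN)).continuousWithinAt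
  refine ⟨P, ?_, ?_, ?_⟩
  · apply (hcont 0).add
    apply continuousOn_tsum (fun j => (hcont (j + 1)).sub (hcont j)) hsum
    intro j x hx
    exact h.pr_diff hx j
  · intro x hx u
    have h1 : Tendsto (fun j => pr (fderiv ℝ (a^[j]) x) (u, 0)) atTop (𝓝 (P x (u, 0))) :=
      ((ContinuousLinearMap.apply ℝ E ((u, 0) : E × F)).continuous.tendsto _).comp (hlim x hx)
    have h2 : (fun j => pr (fderiv ℝ (a^[j]) x) (u, 0)) = fun _ => u := by
      ext j
      rw [pr_inl (h.top_invertible hx j)]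
    rw [h2] at h1
    exact (tendsto_nhds_unique h1 tendsto_const_nhds)
  · intro x hx ξ hξ
    have h1 : Tendsto (fun j => pr (fderiv ℝ (a^[j]) x) ξ) atTop (𝓝 (P x ξ)) :=
      ((ContinuousLinearMap.apply ℝ E ξ).continuous.tendsto _).comp (hlim x hx)
    have h2 : Tendsto (fun j => pr (fderiv ℝ (a^[j]) x) ξ) atTop (𝓝 0) := by
      apply squeeze_zero_norm (a := fun j => (1 / 2 : ℝ) ^ j * ‖ξ‖)
      · intro j
        rw [pr_apply]
        refine (h.inverse_le hx j _).trans ?_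
        have h3 := h.dom.orbit_ver (h.vec_orbit hx ξ) (j := j) (fun i _ => hξ i)
        rw [fderiv_zero] at h3
        have h3' : ‖fderiv ℝ (a^[j]) x ξ‖ ≤ (min α 1 / 50) ^ j * ‖ξ‖ := h3
        have h4 := (norm_fst_le' (fderiv ℝ (a^[j]) x ξ)).trans h3'
        calc ((99 / 100 * α) ^ j)⁻¹ * ‖(fderiv ℝ (a^[j]) x ξ).1‖
            ≤ ((99 / 100 * α) ^ j)⁻¹ * ((min α 1 / 50) ^ j * ‖ξ‖) :=
              mul_le_mul_of_nonneg_left h4 (by positivity)
          _ = (((99 / 100 * α) ^ j)⁻¹ * (min α 1 / 50) ^ j) * ‖ξ‖ := by ring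
          _ ≤ (1 / 2) ^ j * ‖ξ‖ := by
              apply mul_le_mul_of_nonneg_right _ (norm_nonneg _)
              rw [← inv_pow, ← mul_pow]
              apply pow_le_pow_left₀ (by positivity)
              rw [inv_mul_le_iff₀ (by positivity)]
              have := min_le_left α 1
              linarith
      · have := (tendsto_pow_atTop_nhds_zero_of_lt_one (r := (1 / 2 : ℝ)) (by norm_num)
          (by norm_num)).mul_const ‖ξ‖
        simpa using this
    exact tendsto_nhds_unique h1 h2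

end Core

end Field

end Pool.Agent.Work.MP_429976_an
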