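import Pool.Agent.Work.MP_429976_an.Words

/-!
Determinants of words: products and fixed points.
-/

namespace Pool.Agent.Work.MP_429976_an

open Filter Topology Set Metric Module

section General

variable {E F : Type*} [NormedAddCommGroup E] [NormedSpace ℝ E] [NormedAddCommGroup F]
  [NormedSpace ℝ F] [FiniteDimensional ℝ E]
  {K : Set (E × F)} {S : ℕ → Set (E × F → E × F)}
  {w : E × F} {r σ : ℝ} {T : Bool → (E × F → E × F)}

namespace Letters

theorem word_invertible (hS : BranchSystem K S) (hT : Letters S w r σ T) (hr : 0 < r)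
    (hK : closedBall w r ⊆ K) (hσ : σ < 1) (s : List Bool) {x : E × F}
    (hx : x ∈ closedBall w r) : (topmap (fderiv ℝ (wd T s) x)).IsInvertible := by
  apply isInvertible_of_injective
  rw [injective_iff_map_eq_zero]
  intro u hu
  by_contra hne
  have h1 : ‖((u, 0) : E × F).2‖ < ‖((u, 0) : E × F).1‖ := by simpa using hne
  have h2 := hT.wd_strict hS hr hK hσ s hx h1
  rw [topmap_apply] at hu
  rw [hu, norm_zero] at h2
  exact absurd (norm_nonneg _) (not_le.2 h2)

theorem letter_invertible (hS : BranchSystem K S) (hT : Letters S w r σ T) (hr : 0 < r)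
    (hK : closedBall w r ⊆ K) (b : Bool) {x : E × F}
    (hx : x ∈ closedBall w r) : (topmap (fderiv ℝ (T b) x)).IsInvertible := by
  apply isInvertible_of_injective
  rw [injective_iff_map_eq_zero]
  intro u hu
  have h1 := hT.deriv_ne hS hr hK b hx (ζ := (u, 0)) (by simp) hu
  simpa using congrArg Prod.fst h1

theorem letter_pr_le (hS : BranchSystem K S) (hT : Letters S w r σ T) (hr : 0 < r)
    (hK : closedBall w r ⊆ K) (b : Bool) {x : E × F}
    (hx : x ∈ closedBall w r) (v : F) : ‖pr (fderiv ℝ (T b) x) (0, v)‖ ≤ ‖v‖ := by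
  by_contra hcon
  push Not at hcon
  set N := fderiv ℝ (T b) x
  have h1 := pr_ker (hT.letter_invertible hS hr hK b hx) ((0 : E), v)
  have h2 := hT.deriv_ne hS hr hK b hx (ζ := ((0 : E), v) - (pr N (0, v), 0))
    (by simpa using hcon.le) h1
  have h3 := congrArg Prod.fst h2
  simp only [Prod.fst_sub, zero_sub, Prod.fst_zero, neg_eq_zero] at h3
  rw [h3, norm_zero] at hcon
  exact absurd (norm_nonneg _) (not_le.2 hcon)

/-- The slope of the image of `E`. -/
noncomputable def slope (N : E × F →L[ℝ] E × F) : E →L[ℝ] F :=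
  (ContinuousLinearMap.snd ℝ E F).comp (N.comp ((ContinuousLinearMap.inl ℝ E F).comp
    (topmap N).inverse))

theorem slope_apply (N : E × F →L[ℝ] E × F) (v : E) :
    slope N v = (N ((topmap N).inverse v, 0)).2 := rfl

theorem slope_le (hS : BranchSystem K S) (hT : Letters S w r σ T) (hr : 0 < r)
    (hK : closedBall w r ⊆ K) (hσ0 : 0 ≤ σ) (hσ : σ < 1) (s : List Bool) {x : E × F}
    (hx : x ∈ closedBall w r) (v : E) : ‖slope (fderiv ℝ (wd T s) x) v‖ ≤ σ * ‖v‖ := by
  set N := fderiv ℝ (wd T s) x with hN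
  rw [slope_apply]
  have h1 := hT.wd_cone hS hr hK hσ0 hσ s hx (ζ := ((topmap N).inverse v, 0))
    (by simp only [norm_zero]; positivity)
  rw [← hN] at h1
  have h2 : (N ((topmap N).inverse v, 0)).1 = v := by
    rw [← topmap_apply]
    exact (hT.word_invertible hS hr hK hσ s hx).self_apply_inverse v
  rwa [h2] at h1

theorem slope_topmap {N : E × F →L[ℝ] E × F} (hN : (topmap N).IsInvertible) (u : E) :
    slope N (topmap N u) = (N (u, 0)).2 := by
  rw [slope_apply, hN.inverse_apply_self]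

/-- Determinant of a word, one more letter. -/
theorem det_step (hS : BranchSystem K S) (hT : Letters S w r σ T) (hr : 0 < r)
    (hK : closedBall w r ⊆ K) (hσ0 : 0 ≤ σ) (hσ : σ < 1) (b : Bool) (s : List Bool) {x : E × F}
    (hx : x ∈ closedBall w r) :
    ∃ θ : E →L[ℝ] E, ‖θ‖ ≤ σ ∧
      (topmap (fderiv ℝ (wd T (b :: s)) x)).det
        = (topmap (fderiv ℝ (T b) (wd T s x))).det * (1 + θ).det
          * (topmap (fderiv ℝ (wd T s) x)).det := by
  set M := fderiv ℝ (wd T s) x with hM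
  set N := fderiv ℝ (T b) (wd T s x) with hN
  have hxs := hT.wd_maps s hx
  have hY : (topmap N).IsInvertible := hT.letter_invertible hS hr hK b hxs
  have hX : (topmap M).IsInvertible := hT.word_invertible hS hr hK hσ s hx
  let θ : E →L[ℝ] E := (pr N).comp ((ContinuousLinearMap.inr ℝ E F).comp (slope M))
  have hθ : ∀ v, θ v = pr N (0, slope M v) := fun v => rfl
  refine ⟨θ, ?_, ?_⟩
  · apply ContinuousLinearMap.opNorm_le_bound _ hσ0
    intro v
    rw [hθ]
    exact (hT.letter_pr_le hS hr hK b hxs _).trans (hT.slope_le hS hr hK hσ0 hσ s hx v)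
  · have h1 : topmap (fderiv ℝ (wd T (b :: s)) x)
        = (topmap N).comp ((1 + θ).comp (topmap M)) := by
      ext1 u
      rw [topmap_apply, hT.wd_fderiv hS hK b s hx, ← hM, ← hN]
      have h2 : M (u, 0) = (topmap M u, 0) + (0, slope M (topmap M u)) := by
        rw [slope_topmap hX]
        ext <;> simp [topmap_apply]
      show (N (M (u, 0))).1 = topmap N ((1 + θ) (topmap M u))
      have h3 : (1 + θ) (topmap M u) = topmap M u + pr N (0, slope M (topmap M u)) := rfl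
      rw [h3, map_add, pr_apply, hY.self_apply_inverse, h2, map_add, Prod.fst_add]
      rfl
    rw [h1]
    have h4 : ∀ f g : E →L[ℝ] E, (f.comp g).det = f.det * g.det := fun f g =>
      LinearMap.det_comp (f : E →ₗ[ℝ] E) (g : E →ₗ[ℝ] E)
    rw [h4, h4, mul_assoc]

end Letters

end General

section Main

variable {F : Type*} [NormedAddCommGroup F] [NormedSpace ℝ F] [FiniteDimensional ℝ F] {c : ℕ}
  {K : Set ((Fin c → ℝ) × F)} {S : ℕ → Set ((Fin c → ℝ) × F → (Fin c → ℝ) × F)}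
  {w : (Fin c → ℝ) × F} {r σ : ℝ} {T : Bool → ((Fin c → ℝ) × F → (Fin c → ℝ) × F)}

theorem Letters.det_fixed (hS : BranchSystem K S) (hT : Letters S w r σ T) (hr : 0 < r)
    (hK : closedBall w r ⊆ K) (hσ0 : 0 ≤ σ) (hσ : σ < 1)
    (hmax : ∀ m, ∀ h ∈ S m, ∀ y ∈ K, h y = y →
      finrank ℝ (stable (fderiv ℝ h y)) ≤ finrank ℝ F)
    (hdet : ∀ θ : (Fin c → ℝ) →L[ℝ] (Fin c → ℝ), ‖θ‖ ≤ σ → |(1 + θ).det| ≤ 21 / 20)
    (s : List Bool) (hs : s ≠ []) {y : (Fin c → ℝ) × F} (hy : y ∈ closedBall w r)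
    (hfix : wd T s y = y) :
    20 / 21 ≤ |(topmap (fderiv ℝ (wd T s) y)).det| := by
  obtain ⟨ms, hms, _⟩ := hT.wd_mem hS s hs
  set L := fderiv ℝ (wd T s) y with hL
  have hfin : finrank ℝ (stable L) ≤ finrank ℝ F := hmax ms _ hms y (hK hy) hfix
  -- strict horizontality persists
  have hst : ∀ (k : ℕ) (ζ : (Fin c → ℝ) × F), ‖ζ.2‖ < ‖ζ.1‖ →
      ‖((L ^ k) ζ).2‖ < ‖((L ^ k) ζ).1‖ := by
    intro k
    induction k with
    | zero => intro ζ hζ; simpa using hζ
    | succ k ih =>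
      intro ζ hζ
      rw [pow_succ']
      exact hT.wd_strict hS hr hK hσ s hy (ih ζ hζ)
  have hst' : ∀ (j k : ℕ) (ζ : (Fin c → ℝ) × F), j ≤ k → ‖((L ^ j) ζ).2‖ < ‖((L ^ j) ζ).1‖ →
      ‖((L ^ k) ζ).2‖ < ‖((L ^ k) ζ).1‖ := by
    intro j k ζ hjk hζ
    obtain ⟨i, rfl⟩ := Nat.exists_eq_add_of_le' hjk
    rw [pow_add]
    exact hst i _ hζ
  have hinv : ∀ k : ℕ, (topmap (L ^ k)).IsInvertible := by
    intro k
    apply isInvertible_of_injective
    rw [injective_iff_map_eq_zero]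
    intro u hu
    by_contra hne
    have h1 : ‖((u, 0) : (Fin c → ℝ) × F).2‖ < ‖((u, 0) : (Fin c → ℝ) × F).1‖ := by
      simpa using hne
    have h2 := hst k _ h1
    rw [topmap_apply] at hu
    rw [hu, norm_zero] at h2
    exact absurd (norm_nonneg _) (not_le.2 h2)
  have hlen : (1 / 2 : ℝ) ^ s.length ≤ 1 / 2 := by
    have h1 : 1 ≤ s.length := List.length_pos_iff.2 hs
    calc (1 / 2 : ℝ) ^ s.length ≤ (1 / 2) ^ 1 :=
          pow_le_pow_of_le_one (by norm_num) (by norm_num) h1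
      _ = 1 / 2 := by norm_num
  -- stable vectors over every `v`
  have hover : ∀ v : F, ∃ u : Fin c → ℝ, ‖u‖ ≤ ‖v‖ ∧ (u, v) ∈ stable L := by
    intro v
    let us : ℕ → (Fin c → ℝ) := fun k => -(pr (L ^ k) (0, v))
    have hker : ∀ k, ((L ^ k) (us k, v)).1 = 0 := by
      intro k
      have h1 := pr_ker (hinv k) ((0 : Fin c → ℝ), v)
      have h2 : ((0 : Fin c → ℝ), v) - (pr (L ^ k) (0, v), 0) = (us k, v) := by
        ext <;> simp [us]
      rwa [h2] at h1
    have hver : ∀ k, ∀ j ≤ k, ‖((L ^ j) (us k, v)).1‖ ≤ ‖((L ^ j) (us k, v)).2‖ := by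
      intro k j hjk
      by_contra hcon
      push Not at hcon
      have := hst' j k _ hjk hcon
      rw [hker, norm_zero] at this
      exact absurd (norm_nonneg _) (not_le.2 this)
    have hus : ∀ k, us k ∈ closedBall (0 : Fin c → ℝ) ‖v‖ := by
      intro k
      rw [mem_closedBall_zero_iff]
      have := hver k 0 (Nat.zero_le _)
      simpa using this
    obtain ⟨u, hu, φ, hφ, hlim⟩ := (isCompact_closedBall (0 : Fin c → ℝ) ‖v‖).tendsto_subseq hus
    refine ⟨u, by simpa using hu, ?_⟩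
    have hverlim : ∀ j, ‖((L ^ j) (u, v)).1‖ ≤ ‖((L ^ j) (u, v)).2‖ := by
      intro j
      have h1 : Tendsto (fun n => (L ^ j) ((us (φ n), v) : (Fin c → ℝ) × F)) atTop
          (𝓝 ((L ^ j) (u, v))) :=
        ((L ^ j).continuous.tendsto _).comp (hlim.prodMk_nhds tendsto_const_nhds)
      apply le_of_tendsto_of_tendsto ((continuous_fst.tendsto _).comp h1).norm
        ((continuous_snd.tendsto _).comp h1).norm
      filter_upwards [eventually_ge_atTop j] with n hn
      exact hver (φ n) j (hn.trans (hφ.id_le n))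
    have hdecay : ∀ k, ‖(L ^ k) (u, v)‖ ≤ (1 / 2 : ℝ) ^ k * ‖((u, v) : (Fin c → ℝ) × F)‖ := by
      intro k
      induction k with
      | zero => simp
      | succ k ih =>
        have h1 := hverlim (k + 1)
        rw [pow_succ'] at h1 ⊢
        have h2 := hT.wd_contr hS hr hK hσ s hy (ζ := (L ^ k) (u, v)) h1
        calc ‖(L * L ^ k) (u, v)‖ ≤ (1 / 2) ^ s.length * ‖(L ^ k) (u, v)‖ := h2
          _ ≤ 1 / 2 * ‖(L ^ k) (u, v)‖ := mul_le_mul_of_nonneg_right hlen (norm_nonneg _)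
          _ ≤ 1 / 2 * ((1 / 2 : ℝ) ^ k * ‖((u, v) : (Fin c → ℝ) × F)‖) := by linarith
          _ = _ := by ring
    rw [mem_stable]
    apply squeeze_zero_norm hdecay
    have := (tendsto_pow_atTop_nhds_zero_of_lt_one (r := (1 / 2 : ℝ)) (by norm_num)
      (by norm_num)).mul_const ‖((u, v) : (Fin c → ℝ) × F)‖
    simpa using this
  -- the stable subspace is a graph
  let g : stable L →ₗ[ℝ] F := (LinearMap.snd ℝ (Fin c → ℝ) F).comp (stable L).subtype
  have hgs : Function.Surjective g := by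
    intro v
    obtain ⟨u, _, hu⟩ := hover v
    exact ⟨⟨(u, v), hu⟩, rfl⟩
  have hfr : finrank ℝ (stable L) = finrank ℝ F :=
    le_antisymm hfin (LinearMap.finrank_le_finrank_of_surjective hgs)
  have hgi : Function.Injective g :=
    (LinearMap.injective_iff_surjective_of_finrank_eq_finrank hfr).2 hgs
  have huniq : ∀ ζ ζ' : (Fin c → ℝ) × F, ζ ∈ stable L → ζ' ∈ stable L → ζ.2 = ζ'.2 → ζ = ζ' := by
    intro ζ ζ' h1 h2 h3
    have := hgi (a₁ := ⟨ζ, h1⟩) (a₂ := ⟨ζ', h2⟩) h3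
    exact congrArg Subtype.val this
  let e := LinearEquiv.ofBijective g ⟨hgi, hgs⟩
  let ψ₀ : F →ₗ[ℝ] (Fin c → ℝ) :=
    (LinearMap.fst ℝ (Fin c → ℝ) F).comp ((stable L).subtype.comp (e.symm : F →ₗ[ℝ] stable L))
  let ψ : F →L[ℝ] (Fin c → ℝ) := LinearMap.toContinuousLinearMap ψ₀
  have hψmem : ∀ v, (ψ v, v) ∈ stable L := by
    intro v
    have h1 : (e.symm v : (Fin c → ℝ) × F) = (ψ v, v) := by
      ext1
      · rfl
      · exact e.apply_symm_apply v
    rw [← h1]
    exact (e.symm v).2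
  have hψle : ∀ v, ‖ψ v‖ ≤ ‖v‖ := by
    intro v
    obtain ⟨u, hu, hu'⟩ := hover v
    have := huniq _ _ hu' (hψmem v) rfl
    have h1 : ((u, v) : (Fin c → ℝ) × F).1 = ((ψ v, v) : (Fin c → ℝ) × F).1 :=
      congrArg Prod.fst this
    have h2 : u = ψ v := h1
    rwa [← h2]
  let Pm : (Fin c → ℝ) × F →L[ℝ] (Fin c → ℝ) :=
    ContinuousLinearMap.fst ℝ (Fin c → ℝ) F - ψ.comp (ContinuousLinearMap.snd ℝ (Fin c → ℝ) F)
  have hPm : ∀ ζ, Pm ζ = ζ.1 - ψ ζ.2 := fun ζ => rfl
  have hPmker : ∀ ζ, Pm ζ = 0 → ζ ∈ stable L := by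
    intro ζ hζ
    rw [hPm, sub_eq_zero] at hζ
    have : ζ = (ψ ζ.2, ζ.2) := by ext1; exact hζ; rfl
    rw [this]; exact hψmem _
  have hPmst : ∀ ζ ∈ stable L, Pm ζ = 0 := by
    intro ζ hζ
    have := huniq _ _ hζ (hψmem ζ.2) rfl
    have h1 : ζ.1 = ((ψ ζ.2, ζ.2) : (Fin c → ℝ) × F).1 := congrArg Prod.fst this
    rw [hPm, sub_eq_zero]
    exact h1
  let As : (Fin c → ℝ) →L[ℝ] (Fin c → ℝ) :=
    Pm.comp (L.comp (ContinuousLinearMap.inl ℝ (Fin c → ℝ) F))
  have hAs : ∀ u, As u = Pm (L (u, 0)) := fun u => rfl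
  have hPL : ∀ x, Pm (L x) = As (Pm x) := by
    intro x
    have h1 : x - (Pm x, 0) ∈ stable L := by
      apply hPmker
      rw [map_sub]
      have : Pm ((Pm x, 0) : (Fin c → ℝ) × F) = Pm x := by
        rw [hPm]; simp
      rw [this, sub_self]
    have h2 : L (x - (Pm x, 0)) ∈ stable L := by
      rw [mem_stable] at h1 ⊢
      have h3 := (tendsto_add_atTop_iff_nat 1).2 h1
      refine h3.congr (fun k => ?_)
      rw [pow_succ]; rfl
    have h3 := hPmst _ h2
    rw [map_sub, map_sub, sub_eq_zero] at h3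
    rw [h3, hAs]
  have hAdet : 1 ≤ |As.det| := by
    by_contra hcon
    push Not at hcon
    obtain ⟨u, hu, hus⟩ := exists_stable_of_det_lt_one As hcon
    have h1 : ((u, 0) : (Fin c → ℝ) × F) ∈ stable L := by
      apply tendsto_of_proj L Pm As (fun u => ⟨(u, 0), by rw [hPm]; simp⟩) hPL hPmker
      have : Pm ((u, 0) : (Fin c → ℝ) × F) = u := by rw [hPm]; simp
      rw [this]
      exact hus
    have h2 := huniq _ _ h1 (stable L).zero_mem rfl
    exact hu (congrArg Prod.fst h2)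
  -- comparison
  have hX := hT.word_invertible hS hr hK hσ s hy
  rw [← hL] at hX
  let θ : (Fin c → ℝ) →L[ℝ] (Fin c → ℝ) := -(ψ.comp (Letters.slope L))
  have hθ : ‖θ‖ ≤ σ := by
    apply ContinuousLinearMap.opNorm_le_bound _ hσ0
    intro v
    have h1 : θ v = -(ψ (Letters.slope L v)) := rfl
    rw [h1, norm_neg]
    exact (hψle _).trans (hT.slope_le hS hr hK hσ0 hσ s hy v)
  have hAX : As = (1 + θ).comp (topmap L) := by
    ext1 u
    rw [hAs, hPm]
    have h1 : ((1 + θ).comp (topmap L)) u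
        = topmap L u - ψ (Letters.slope L (topmap L u)) := by
      show topmap L u + -(ψ (Letters.slope L (topmap L u))) = _
      rw [sub_eq_add_neg]
    rw [h1, Letters.slope_topmap hX]
    rfl
  have hdetmul : As.det = (1 + θ).det * (topmap L).det := by
    rw [hAX]
    exact LinearMap.det_comp ((1 + θ : (Fin c → ℝ) →L[ℝ] (Fin c → ℝ)) : (Fin c → ℝ) →ₗ[ℝ] (Fin c → ℝ))
      (topmap L : (Fin c → ℝ) →ₗ[ℝ] (Fin c → ℝ))
  rw [hdetmul, abs_mul] at hAdet
  have h1 := hdet θ hθ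
  have h2 : |(1 + θ).det| * |(topmap L).det| ≤ 21 / 20 * |(topmap L).det| :=
    mul_le_mul_of_nonneg_right h1 (abs_nonneg _)
  linarith

end Main

end Pool.Agent.Work.MP_429976_an
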