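import Mathlib

/-!
Linear algebra for problem MP_429976_an (stable subspaces, dominated coordinates).
-/

namespace Pool.Agent.Work.MP_429976_an

open Filter Topology Set Module

variable {V : Type*} [NormedAddCommGroup V] [NormedSpace ℝ V]

/-- The stable subspace of `L`: the vectors whose iterates tend to zero. -/
def stable (L : V →L[ℝ] V) : Submodule ℝ V where
  carrier := {v | Tendsto (fun k : ℕ => (L ^ k) v) atTop (𝓝 0)}
  add_mem' := by
    intro a b ha hb
    have h := Tendsto.add (show Tendsto (fun k : ℕ => (L ^ k) a) atTop (𝓝 0) from ha)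
      (show Tendsto (fun k : ℕ => (L ^ k) b) atTop (𝓝 0) from hb)
    show Tendsto (fun k : ℕ => (L ^ k) (a + b)) atTop (𝓝 0)
    simpa only [map_add, add_zero] using h
  zero_mem' := by
    show Tendsto (fun k : ℕ => (L ^ k) 0) atTop (𝓝 0)
    simp only [map_zero]
    exact tendsto_const_nhds
  smul_mem' := by
    intro c x hx
    have h := Tendsto.const_smul (show Tendsto (fun k : ℕ => (L ^ k) x) atTop (𝓝 0) from hx) c
    show Tendsto (fun k : ℕ => (L ^ k) (c • x)) atTop (𝓝 0)
    simpa only [map_smul, smul_zero] using h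

theorem mem_stable {L : V →L[ℝ] V} {v : V} :
    v ∈ stable L ↔ Tendsto (fun k : ℕ => (L ^ k) v) atTop (𝓝 0) := Iff.rfl

theorem norm_pow_tendsto [FiniteDimensional ℝ V] (T : V →L[ℝ] V)
    (h : ∀ w, Tendsto (fun k : ℕ => (T ^ k) w) atTop (𝓝 0)) :
    Tendsto (fun k : ℕ => ‖T ^ k‖) atTop (𝓝 0) := by
  let b := Module.finBasis ℝ V
  obtain ⟨C, hC, hb⟩ := b.exists_opNorm_le (F := V)
  have h1 : ∀ k : ℕ, ‖T ^ k‖ ≤ C * ∑ i, ‖(T ^ k) (b i)‖ := by
    intro k
    apply hb
    · exact Finset.sum_nonneg fun i _ => norm_nonneg _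
    · intro i
      exact Finset.single_le_sum (f := fun i => ‖(T ^ k) (b i)‖) (fun i _ => norm_nonneg _)
        (Finset.mem_univ i)
  have h2 : Tendsto (fun k : ℕ => C * ∑ i, ‖(T ^ k) (b i)‖) atTop (𝓝 0) := by
    have h3 : Tendsto (fun k : ℕ => ∑ i, ‖(T ^ k) (b i)‖) atTop (𝓝 (∑ i : Fin (finrank ℝ V), 0)) := by
      apply tendsto_finsetSum
      intro i _
      have := (h (b i)).norm
      simpa using this
    have := h3.const_mul C
    simpa using this
  exact squeeze_zero (fun k => norm_nonneg _) h1 h2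

theorem contr_seq {a b : ℕ → ℝ} (ha : ∀ k, 0 ≤ a k) (hb : Tendsto b atTop (𝓝 0))
    (h : ∀ k, a (k + 1) ≤ a k / 2 + b k) : Tendsto a atTop (𝓝 0) := by
  rw [Metric.tendsto_atTop]
  intro ε hε
  rw [Metric.tendsto_atTop] at hb
  obtain ⟨J, hJ⟩ := hb (ε / 4) (by positivity)
  have h1 : ∀ i, a (J + i) ≤ a J / 2 ^ i + ε / 2 := by
    intro i
    induction i with
    | zero => simp; positivity
    | succ i ih =>
      have h2 := h (J + i)
      have h3 := hJ (J + i) (by omega)
      rw [Real.dist_eq, sub_zero] at h3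
      have h4 := le_abs_self (b (J + i))
      have h5 : a J / 2 ^ (i + 1) = (a J / 2 ^ i) / 2 := by rw [pow_succ]; field_simp
      rw [h5]
      have h6 : a (J + (i + 1)) ≤ a (J + i) / 2 + b (J + i) := h2
      linarith
  have h7 : Tendsto (fun i : ℕ => a J / 2 ^ i) atTop (𝓝 0) := by
    have h8 : Tendsto (fun i : ℕ => a J * (1 / 2 : ℝ) ^ i) atTop (𝓝 (a J * 0)) :=
      (tendsto_pow_atTop_nhds_zero_of_lt_one (by norm_num) (by norm_num)).const_mul _
    rw [mul_zero] at h8
    refine h8.congr fun i => ?_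
    rw [one_div, inv_pow]; rfl
  rw [Metric.tendsto_atTop] at h7
  obtain ⟨I, hI⟩ := h7 (ε / 2) (by positivity)
  refine ⟨J + I, fun k hk => ?_⟩
  have h9 := h1 (k - J)
  have h10 := hI (k - J) (by omega)
  rw [show J + (k - J) = k by omega] at h9
  rw [Real.dist_eq, sub_zero] at h10
  rw [Real.dist_eq, sub_zero, abs_of_nonneg (ha k)]
  have h11 := le_abs_self (a J / 2 ^ (k - J))
  linarith

theorem mem_stable_of_pow {L : V →L[ℝ] V} {K : ℕ} (hK : 1 ≤ K) {v : V}
    (h : v ∈ stable (L ^ K)) : v ∈ stable L := by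
  rw [mem_stable] at h ⊢
  have hb : ∀ r < K, ‖L ^ r‖ ≤ (1 + ‖L‖) ^ K := by
    intro r hr
    have h1 : ∀ r : ℕ, ‖L ^ r‖ ≤ (1 + ‖L‖) ^ r := by
      intro r
      induction r with
      | zero =>
        simp only [pow_zero]
        exact ContinuousLinearMap.norm_id_le
      | succ r ih =>
        rw [pow_succ, pow_succ]
        refine (norm_mul_le _ _).trans ?_
        refine mul_le_mul ih ?_ (norm_nonneg _) (by positivity)
        linarith [norm_nonneg L]
    refine (h1 r).trans ?_
    exact pow_le_pow_right₀ (by linarith [norm_nonneg L]) hr.le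
  have hdiv : Tendsto (fun k : ℕ => k / K) atTop atTop := Nat.tendsto_div_const_atTop (by omega)
  have h2 := (h.comp hdiv).norm.const_mul ((1 + ‖L‖) ^ K)
  rw [norm_zero, mul_zero] at h2
  rw [tendsto_zero_iff_norm_tendsto_zero]
  refine squeeze_zero (fun k => norm_nonneg _) (fun k => ?_) h2
  have h3 : (L ^ k) v = (L ^ (k % K)) (((L ^ K) ^ (k / K)) v) := by
    rw [← mul_apply_eq_comp, ← pow_mul, ← pow_add, Nat.mod_add_div]
  rw [h3]
  refine (ContinuousLinearMap.le_opNorm _ _).trans ?_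
  exact mul_le_mul_of_nonneg_right (hb _ (Nat.mod_lt _ (by omega))) (norm_nonneg _)

/-- A power has the same stable subspace. -/
theorem stable_pow [FiniteDimensional ℝ V] (L : V →L[ℝ] V) {K : ℕ} (hK : 1 ≤ K) :
    stable (L ^ K) = stable L := by
  ext v
  constructor
  · exact mem_stable_of_pow hK
  · intro h
    rw [mem_stable] at h ⊢
    have h1 : Tendsto (fun k : ℕ => K * k) atTop atTop :=
      tendsto_id.const_mul_atTop' (by omega)
    have h2 := h.comp h1
    refine h2.congr fun k => ?_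
    simp only [Function.comp]
    rw [pow_mul]

/-- (LA3) If `P L = A P`, `L^k → 0` on `ker P` and `A^k (P x) → 0`, then `L^k x → 0`. -/
theorem tendsto_of_proj [FiniteDimensional ℝ V] {E : Type*} [NormedAddCommGroup E]
    [NormedSpace ℝ E] [FiniteDimensional ℝ E] (L : V →L[ℝ] V) (P : V →L[ℝ] E) (A : E →L[ℝ] E)
    (hP : Function.Surjective P) (hPL : ∀ x, P (L x) = A (P x))
    (hker : ∀ x, P x = 0 → x ∈ stable L) (x : V)
    (hx : Tendsto (fun k : ℕ => (A ^ k) (P x)) atTop (𝓝 0)) : x ∈ stable L := by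
  have hPLk : ∀ (k : ℕ) (y : V), P ((L ^ k) y) = (A ^ k) (P y) := by
    intro k
    induction k with
    | zero => intro y; simp
    | succ k ih =>
      intro y
      rw [pow_succ', pow_succ', mul_apply_eq_comp, mul_apply_eq_comp,
        hPL, ih]
  -- the kernel
  let F : Submodule ℝ V := LinearMap.ker (P : V →ₗ[ℝ] E)
  have hF : ∀ y, y ∈ F ↔ P y = 0 := fun y => LinearMap.mem_ker
  have hLF : ∀ y : F, (L.comp F.subtypeL) y ∈ F := by
    intro y
    rw [hF]
    show P (L y) = 0
    rw [hPL, (hF y).mp y.2, map_zero]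
  let T : F →L[ℝ] F := (L.comp F.subtypeL).codRestrict F hLF
  have hT : ∀ (k : ℕ) (y : F), ((T ^ k) y : V) = (L ^ k) (y : V) := by
    intro k
    induction k with
    | zero => intro y; simp
    | succ k ih =>
      intro y
      rw [pow_succ, pow_succ, mul_apply_eq_comp, mul_apply_eq_comp, ih]
      rfl
  have hT0 : Tendsto (fun k : ℕ => ‖T ^ k‖) atTop (𝓝 0) := by
    apply norm_pow_tendsto
    intro w
    have h1 := hker (w : V) ((hF _).mp w.2)
    rw [mem_stable] at h1
    rw [tendsto_subtype_rng]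
    refine h1.congr fun k => ?_
    rw [hT]
  obtain ⟨N, hN1, hN⟩ : ∃ N : ℕ, 1 ≤ N ∧ ‖T ^ N‖ ≤ 1 / 2 := by
    have h1 := hT0.eventually (ge_mem_nhds (show (0 : ℝ) < 1 / 2 by norm_num))
    obtain ⟨N, hN⟩ := (h1.and (eventually_ge_atTop 1)).exists
    exact ⟨N, hN.2, hN.1⟩
  obtain ⟨R, hR⟩ := (P : V →L[ℝ] E).exists_rightInverse_of_surjective
    (LinearMap.range_eq_top.mpr hP)
  have hR' : ∀ z, P (R z) = z := fun z => by
    have := congrArg (fun g => g z) hR
    simpa using this
  -- decomposition of the orbit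
  let y : ℕ → V := fun j => ((L ^ N) ^ j) x
  let z : ℕ → E := fun j => P (y j)
  have hz : Tendsto z atTop (𝓝 0) := by
    have h1 : Tendsto (fun k : ℕ => N * k) atTop atTop :=
      tendsto_id.const_mul_atTop' (by omega)
    refine (hx.comp h1).congr fun k => ?_
    show (A ^ (N * k)) (P x) = P (((L ^ N) ^ k) x)
    rw [← pow_mul, hPLk]
  have hfF : ∀ j, y j - R (z j) ∈ F := by
    intro j
    rw [hF, map_sub, hR', sub_self]
  have hstep : ∀ j, ‖y (j + 1) - R (z (j + 1))‖ ≤ ‖y j - R (z j)‖ / 2 +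
      ‖(L ^ N) (R (z j)) - R (z (j + 1))‖ := by
    intro j
    have h1 : y (j + 1) = (L ^ N) (y j) := by
      show ((L ^ N) ^ (j + 1)) x = (L ^ N) (((L ^ N) ^ j) x)
      rw [pow_succ' (L ^ N) j, mul_apply_eq_comp]
    have h2 : y (j + 1) - R (z (j + 1)) = (L ^ N) (y j - R (z j)) +
        ((L ^ N) (R (z j)) - R (z (j + 1))) := by
      rw [h1, map_sub]; abel
    rw [h2]
    refine (norm_add_le _ _).trans (add_le_add ?_ le_rfl)
    have h3 : (L ^ N) (y j - R (z j)) = (((T ^ N) ⟨y j - R (z j), hfF j⟩ : F) : V) :=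
      (hT N ⟨y j - R (z j), hfF j⟩).symm
    rw [h3]
    have h4 := (T ^ N).le_opNorm ⟨y j - R (z j), hfF j⟩
    have h5 : ‖(⟨y j - R (z j), hfF j⟩ : F)‖ = ‖y j - R (z j)‖ := rfl
    rw [h5] at h4
    have h6 : ‖(((T ^ N) ⟨y j - R (z j), hfF j⟩ : F) : V)‖ = ‖(T ^ N) ⟨y j - R (z j), hfF j⟩‖ := rfl
    rw [h6]
    refine h4.trans ?_
    have h7 := norm_nonneg (y j - R (z j))
    nlinarith
  have hb : Tendsto (fun j => ‖(L ^ N) (R (z j)) - R (z (j + 1))‖) atTop (𝓝 0) := by
    have c1 : Tendsto (fun j => (L ^ N) (R (z j))) atTop (𝓝 0) := by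
      have := (((L ^ N).comp R).continuous.tendsto 0).comp hz
      rw [map_zero] at this
      exact this
    have c2 : Tendsto (fun j => R (z (j + 1))) atTop (𝓝 0) := by
      have := (R.continuous.tendsto 0).comp (hz.comp (tendsto_add_atTop_nat 1))
      rw [map_zero] at this
      exact this
    have := (c1.sub c2).norm
    simpa using this
  have hfin := contr_seq (fun j => norm_nonneg (y j - R (z j))) hb hstep
  have hy : Tendsto y atTop (𝓝 0) := by
    have c1 : Tendsto (fun j => y j - R (z j)) atTop (𝓝 0) :=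
      tendsto_zero_iff_norm_tendsto_zero.mpr hfin
    have c2 : Tendsto (fun j => R (z j)) atTop (𝓝 0) := by
      have := (R.continuous.tendsto 0).comp hz
      rw [map_zero] at this
      exact this
    have := c1.add c2
    simpa using this
  exact mem_stable_of_pow hN1 hy

/-- Conjugation. -/
theorem finrank_stable_conj {W : Type*} [NormedAddCommGroup W] [NormedSpace ℝ W]
    (e : V ≃L[ℝ] W) (L : V →L[ℝ] V) (L' : W →L[ℝ] W) (h : ∀ v, L' (e v) = e (L v)) :
    finrank ℝ (stable L') = finrank ℝ (stable L) := by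
  have hk : ∀ (k : ℕ) (v : V), (L' ^ k) (e v) = e ((L ^ k) v) := by
    intro k
    induction k with
    | zero => intro v; simp
    | succ k ih =>
      intro v
      rw [pow_succ, pow_succ, mul_apply_eq_comp, mul_apply_eq_comp,
        h, ih]
  have hmap : stable L' = (stable L).map (e.toLinearEquiv : V →ₗ[ℝ] W) := by
    ext w
    rw [Submodule.mem_map]
    constructor
    · intro hw
      refine ⟨e.symm w, ?_, by simp⟩
      rw [mem_stable] at hw ⊢
      have h1 := (e.symm.continuous.tendsto 0).comp hw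
      rw [map_zero] at h1
      refine h1.congr fun k => ?_
      show e.symm ((L' ^ k) w) = (L ^ k) (e.symm w)
      have h2 := hk k (e.symm w)
      rw [e.apply_symm_apply] at h2
      rw [h2, e.symm_apply_apply]
    · rintro ⟨v, hv, rfl⟩
      rw [mem_stable] at hv ⊢
      have h1 := (e.continuous.tendsto 0).comp hv
      rw [map_zero] at h1
      refine h1.congr fun k => ?_
      show e ((L ^ k) v) = (L' ^ k) (e v)
      rw [hk]
  rw [hmap]
  exact LinearEquiv.finrank_map_eq e.toLinearEquiv (stable L)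

end Pool.Agent.Work.MP_429976_an
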