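import Pool.Agent.Work.MP_429976_an.Trans

/-!
Construction of the two letters.
-/

namespace Pool.Agent.Work.MP_429976_an

open Filter Topology Set Metric Module

section General

variable {E F : Type*} [NormedAddCommGroup E] [NormedSpace ℝ E] [NormedAddCommGroup F]
  [NormedSpace ℝ F]
  {K : Set (E × F)} {S : ℕ → Set (E × F → E × F)} {a : E × F → E × F} {m₀ : ℕ}
  {w : E × F} {A : E →L[ℝ] E} {D : F →L[ℝ] F} {α r : ℝ}

namespace Core

/-- Differences that are horizontal at time `k` have small slope at all large times. -/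
theorem narrow_from (h : Core K S a m₀ w A D α r) {σ : ℝ} (hσ : 0 < σ) (k : ℕ) :
    ∃ J, ∀ j ≥ J, ∀ x ∈ closedBall w r, ∀ y ∈ closedBall w r,
      ‖(a^[k] y - a^[k] x).2‖ ≤ ‖(a^[k] y - a^[k] x).1‖ →
      ‖(a^[j] y - a^[j] x).2‖ ≤ σ * ‖(a^[j] y - a^[j] x).1‖ := by
  obtain ⟨J₁, hJ₁⟩ := h.narrow_step σ hσ
  obtain ⟨n₀, hn₀⟩ := h.dom.orbit_narrow hσ
  refine ⟨max k J₁ + n₀, fun j hj x hx y hy hk => ?_⟩
  have horb := h.dist_step x hx y hy
  have h1 := h.dom.orbit_hor_of_le horb (le_max_left k J₁) hk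
  obtain ⟨i, rfl⟩ := Nat.exists_eq_add_of_le hj
  have h2 := hn₀ _ (horb.shift (max k J₁)) (fun j => by
    have := hJ₁ (max k J₁ + j) (le_trans (le_max_right _ _) (Nat.le_add_right _ _)) x hx y hy
    exact this) (by simpa using h1) (n₀ + i) (Nat.le_add_right _ _)
  have h3 : max k J₁ + (n₀ + i) = max k J₁ + n₀ + i := by ring
  simp only [h3] at h2
  exact h2

theorem eventually_maps (h : Core K S a m₀ w A D α r) {ρ : ℝ} (hρ : 0 < ρ) :
    ∃ J, ∀ j ≥ J, ∀ x ∈ closedBall w r, a^[j] x ∈ Metric.ball w ρ := by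
  obtain ⟨J, hJ⟩ := h.unif (ρ / 2) (by positivity)
  refine ⟨J, fun j hj x hx => ?_⟩
  have := hJ j hj x hx
  rw [Metric.mem_ball]
  linarith

end Core

end General

section Main

variable {F : Type*} [NormedAddCommGroup F] [NormedSpace ℝ F] [FiniteDimensional ℝ F] {c : ℕ}
  {K : Set ((Fin c → ℝ) × F)} {S : ℕ → Set ((Fin c → ℝ) × F → (Fin c → ℝ) × F)}
  {a : (Fin c → ℝ) × F → (Fin c → ℝ) × F} {m₀ : ℕ}
  {w : (Fin c → ℝ) × F} {A : (Fin c → ℝ) →L[ℝ] (Fin c → ℝ)} {D : F →L[ℝ] F} {α r : ℝ}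

/-- The two letters and their properties. -/
structure Letters {E F : Type*} [NormedAddCommGroup E] [NormedSpace ℝ E] [NormedAddCommGroup F]
    [NormedSpace ℝ F] (S : ℕ → Set (E × F → E × F)) (w : E × F) (r σ : ℝ)
    (T : Bool → (E × F → E × F)) : Prop where
  mem : ∀ b, ∃ m, T b ∈ S m
  maps : ∀ b, MapsTo (T b) (closedBall w r) (Metric.ball w r)
  cone : ∀ b, ∀ x ∈ closedBall w r, ∀ y ∈ closedBall w r, ‖(y - x).2‖ ≤ ‖(y - x).1‖ →
    ‖(T b y - T b x).2‖ ≤ σ * ‖(T b y - T b x).1‖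
  sep : ∀ x ∈ closedBall w r, ∀ y ∈ closedBall w r,
    ‖(T true y - T false x).2‖ < ‖(T true y - T false x).1‖
  contr : ∀ b, ∀ x ∈ closedBall w r, ∀ ζ : E × F,
    ‖(fderiv ℝ (T b) x ζ).1‖ ≤ ‖(fderiv ℝ (T b) x ζ).2‖ →
    ‖fderiv ℝ (T b) x ζ‖ ≤ 1 / 2 * ‖ζ‖

/-- After finitely many steps the image of `E` is horizontal. -/
theorem Core.exists_horizontal (h : Core K S a m₀ w A D α r)
    {P : (Fin c → ℝ) × F → ((Fin c → ℝ) × F →L[ℝ] (Fin c → ℝ))}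
    (hP : ∀ x ∈ closedBall w r, ∀ ξ : (Fin c → ℝ) × F,
        (∀ j, ‖(fderiv ℝ (a^[j]) x ξ).1‖ ≤ ‖(fderiv ℝ (a^[j]) x ξ).2‖) → P x ξ = 0)
    {g : (Fin c → ℝ) × F → (Fin c → ℝ) × F}
    (hgw : g w ∈ closedBall w r)
    (hg : ∀ u : Fin c → ℝ, P (g w) (fderiv ℝ g w (u, 0)) = 0 → u = 0) :
    ∃ k : ℕ, ∃ τ > 0, ∀ u : Fin c → ℝ,
      τ * ‖u‖ + ‖(fderiv ℝ (a^[k]) (g w) (fderiv ℝ g w (u, 0))).2‖
        ≤ ‖(fderiv ℝ (a^[k]) (g w) (fderiv ℝ g w (u, 0))).1‖ := by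
  -- the functions
  let G : ℕ → (Fin c → ℝ) → ℝ := fun k u =>
    ‖(fderiv ℝ (a^[k]) (g w) (fderiv ℝ g w (u, 0))).1‖ -
      ‖(fderiv ℝ (a^[k]) (g w) (fderiv ℝ g w (u, 0))).2‖
  have hGc : ∀ k, Continuous (G k) := by
    intro k
    have h1 : Continuous (fun u : Fin c → ℝ =>
        fderiv ℝ (a^[k]) (g w) (fderiv ℝ g w (u, 0))) := by fun_prop
    exact (continuous_fst.comp h1).norm.sub (continuous_snd.comp h1).norm
  have hcomp : IsCompact (sphere (0 : Fin c → ℝ) 1) := isCompact_sphere _ _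
  have hcov : sphere (0 : Fin c → ℝ) 1 ⊆ ⋃ k, {u | 0 < G k u} := by
    intro u hu
    have hne : u ≠ 0 := by
      rintro rfl
      simp at hu
    have h1 : ¬ ∀ j, ‖(fderiv ℝ (a^[j]) (g w) (fderiv ℝ g w (u, 0))).1‖
        ≤ ‖(fderiv ℝ (a^[j]) (g w) (fderiv ℝ g w (u, 0))).2‖ :=
      fun hall => hne (hg u (hP _ hgw _ hall))
    push Not at h1
    obtain ⟨j, hj⟩ := h1
    rw [mem_iUnion]
    exact ⟨j, by simpa [G] using hj⟩
  have hmono : Directed (· ⊆ ·) (fun k => {u | 0 < G k u}) := by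
    apply directed_of_isDirected_le
    intro i j hij u hu
    have h1 : ‖(fderiv ℝ (a^[i]) (g w) (fderiv ℝ g w (u, 0))).2‖
        < ‖(fderiv ℝ (a^[i]) (g w) (fderiv ℝ g w (u, 0))).1‖ := by simpa [G] using hu
    have := h.dom.orbit_strict (h.vec_orbit hgw (fderiv ℝ g w (u, 0))) hij h1
    show 0 < G j u
    have h2 : ‖(fderiv ℝ (a^[j]) (g w) (fderiv ℝ g w (u, 0))).2‖
        < ‖(fderiv ℝ (a^[j]) (g w) (fderiv ℝ g w (u, 0))).1‖ := this
    simpa [G] using h2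
  obtain ⟨k, hk⟩ := hcomp.elim_directed_cover _ (fun k => isOpen_lt continuous_const (hGc k))
    hcov hmono
  have hτ : ∃ τ > 0, ∀ u ∈ sphere (0 : Fin c → ℝ) 1, τ ≤ G k u := by
    rcases (sphere (0 : Fin c → ℝ) 1).eq_empty_or_nonempty with hem | hne
    · exact ⟨1, one_pos, fun u hu => by rw [hem] at hu; exact absurd hu (notMem_empty _)⟩
    · obtain ⟨u₀, hu₀, hmin⟩ := hcomp.exists_isMinOn hne (hGc k).continuousOn
      exact ⟨G k u₀, hk hu₀, fun u hu => hmin hu⟩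
  obtain ⟨τ, hτ0, hτ⟩ := hτ
  refine ⟨k, τ, hτ0, fun u => ?_⟩
  rcases eq_or_ne u 0 with rfl | hne
  · have h0 : ((0, 0) : (Fin c → ℝ) × F) = 0 := rfl
    rw [h0]; simp
  · have hn : 0 < ‖u‖ := norm_pos_iff.2 hne
    have h1 : (‖u‖⁻¹ • u) ∈ sphere (0 : Fin c → ℝ) 1 := by
      rw [mem_sphere_zero_iff_norm, norm_smul, norm_inv, norm_norm, inv_mul_cancel₀ hn.ne']
    have h2 := hτ _ h1
    have h3 : ((‖u‖⁻¹ • u, 0) : (Fin c → ℝ) × F) = ‖u‖⁻¹ • ((u, 0) : (Fin c → ℝ) × F) := by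
      ext <;> simp
    simp only [G, h3, map_smul, Prod.smul_fst, Prod.smul_snd, norm_smul, norm_inv, norm_norm] at h2
    have h4 : τ * ‖u‖ ≤ ‖(fderiv ℝ (a^[k]) (g w) (fderiv ℝ g w (u, 0))).1‖ -
        ‖(fderiv ℝ (a^[k]) (g w) (fderiv ℝ g w (u, 0))).2‖ := by
      rw [← mul_sub, inv_mul_eq_div, le_div_iff₀ hn] at h2
      exact h2
    linarith

theorem Core.exists_letters (h : Core K S a m₀ w A D α r) [Nontrivial (Fin c → ℝ)] {σ : ℝ}
    (hσ : 0 < σ) : ∃ T, Letters S w r σ T := by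
  obtain ⟨P, hPc, hPu, hP0⟩ := h.exists_field
  have hwB := h.w_mem
  obtain ⟨mg, g, hg, hgmaps, hgsep, hgtr⟩ := h.exists_transversal hPc (hPu w hwB)
  have hgw : g w ∈ closedBall w r := ball_subset_closedBall (hgmaps hwB)
  obtain ⟨k₁, τ, hτ, hhor⟩ := h.exists_horizontal hP0 hgw hgtr
  have hα := h.dom.pos
  have hμ := h.dom.minpos
  set N₀ : (Fin c → ℝ) × F →L[ℝ] (Fin c → ℝ) × F :=
    (fderiv ℝ (a^[k₁]) (g w)).comp (fderiv ℝ g w) with hN₀
  -- the composite is strictly differentiable at `w`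
  have hgK : g w ∈ K := h.memK hgw
  have hcdg := h.sys.contDiff _ _ hg w (h.memK hwB)
  have hcda := h.sys.iter_contDiff h.ha k₁ hgK
  have hstrict : HasStrictFDerivAt (a^[k₁] ∘ g) N₀ w :=
    (hcda.hasStrictFDerivAt (by norm_num)).comp w (hcdg.hasStrictFDerivAt (by norm_num))
  have hloc : ∃ ρ > 0, ∀ x ∈ Metric.ball w ρ, ∀ y ∈ Metric.ball w ρ,
      ‖a^[k₁] (g y) - a^[k₁] (g x) - N₀ (y - x)‖ ≤ τ / 8 * ‖y - x‖ := by
    have h1 := hstrict.isLittleO.def (show 0 < τ / 8 by positivity)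
    obtain ⟨ρ, hρ, h2⟩ := Metric.eventually_nhds_iff.1 h1
    refine ⟨ρ, hρ, fun x hx y hy => ?_⟩
    have := h2 (y := (y, x)) (by
      rw [Prod.dist_eq]
      exact max_lt hy hx)
    simpa using this
  obtain ⟨ρ₁, hρ₁, hloc⟩ := hloc
  set σ₂ := min 1 (τ / (8 * (‖N₀‖ + 1))) with hσ₂
  have hσ₂0 : 0 < σ₂ := lt_min one_pos (by positivity)
  -- the composite maps narrow differences near `w` to horizontal ones
  have hcomp_hor : ∀ x ∈ Metric.ball w ρ₁, ∀ y ∈ Metric.ball w ρ₁,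
      ‖(y - x).2‖ ≤ σ₂ * ‖(y - x).1‖ →
      ‖(a^[k₁] (g y) - a^[k₁] (g x)).2‖ ≤ ‖(a^[k₁] (g y) - a^[k₁] (g x)).1‖ := by
    intro x hx y hy hxy
    have h1 := hloc x hx y hy
    set Δ := y - x with hΔ
    set Ω := a^[k₁] (g y) - a^[k₁] (g x) with hΩ
    have hn1 : ‖Δ.2‖ ≤ ‖Δ.1‖ := hxy.trans (by
      have : σ₂ ≤ 1 := min_le_left _ _
      nlinarith [norm_nonneg Δ.1])
    have hn : ‖Δ‖ = ‖Δ.1‖ := norm_eq_fst hn1
    rw [hn] at h1
    have h2 : N₀ Δ = N₀ (Δ.1, 0) + N₀ (0, Δ.2) := by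
      rw [← map_add]; simp
    have h3 : ‖N₀ (0, Δ.2)‖ ≤ τ / 8 * ‖Δ.1‖ := by
      have h4 := N₀.le_opNorm ((0 : Fin c → ℝ), Δ.2)
      have h5 : ‖((0 : Fin c → ℝ), Δ.2)‖ = ‖Δ.2‖ := by simp
      rw [h5] at h4
      have h6 : ‖Δ.2‖ ≤ τ / (8 * (‖N₀‖ + 1)) * ‖Δ.1‖ :=
        hxy.trans (mul_le_mul_of_nonneg_right (min_le_right _ _) (norm_nonneg _))
      have h7 : ‖N₀‖ * ‖Δ.2‖ ≤ (‖N₀‖ + 1) * (τ / (8 * (‖N₀‖ + 1)) * ‖Δ.1‖) := by
        have := norm_nonneg N₀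
        have := norm_nonneg Δ.2
        nlinarith
      have h8 : (‖N₀‖ + 1) * (τ / (8 * (‖N₀‖ + 1)) * ‖Δ.1‖) = τ / 8 * ‖Δ.1‖ := by
        have : (‖N₀‖ + 1) ≠ 0 := by positivity
        field_simp
      linarith
    have h9 : ‖Ω - N₀ (Δ.1, 0)‖ ≤ τ / 4 * ‖Δ.1‖ := by
      have : Ω - N₀ (Δ.1, 0) = (Ω - N₀ Δ) + N₀ (0, Δ.2) := by rw [h2]; abel
      rw [this]
      refine (norm_add_le _ _).trans ?_
      linarith
    have h10 := hhor Δ.1
    have h11 : N₀ (Δ.1, 0) = fderiv ℝ (a^[k₁]) (g w) (fderiv ℝ g w (Δ.1, 0)) := rfl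
    rw [← h11] at h10
    have h12 := norm_fst_le' (Ω - N₀ (Δ.1, 0))
    have h13 := norm_snd_le' (Ω - N₀ (Δ.1, 0))
    rw [Prod.fst_sub] at h12
    rw [Prod.snd_sub] at h13
    have h14 := norm_sub_norm_le (N₀ (Δ.1, 0)).1 Ω.1
    rw [norm_sub_rev] at h14
    have h15 := norm_sub_norm_le Ω.2 (N₀ (Δ.1, 0)).2
    have h16 := norm_nonneg Δ.1
    nlinarith
  -- separation near `w`
  obtain ⟨k₂, hk₂⟩ := hgsep
  have hsepnear : ∃ ρ > 0, ∀ x ∈ Metric.ball w ρ, ∀ y ∈ Metric.ball w ρ,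
      ‖(a^[k₂] (g y) - a^[k₂] x).2‖ < ‖(a^[k₂] (g y) - a^[k₂] x).1‖ := by
    have hc1 : ContinuousAt (fun p : ((Fin c → ℝ) × F) × ((Fin c → ℝ) × F) => a^[k₂] (g p.2))
        (w, w) := by
      have h1 : ContinuousAt (a^[k₂]) (g w) :=
        (h.sys.iter_contDiff h.ha k₂ hgK).continuousAt
      have h2 : ContinuousAt g w := hcdg.continuousAt
      have h3 : ContinuousAt (fun y => a^[k₂] (g y)) w := ContinuousAt.comp (g := a^[k₂]) h1 h2
      exact ContinuousAt.comp (g := fun y => a^[k₂] (g y))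
        (f := fun p : ((Fin c → ℝ) × F) × ((Fin c → ℝ) × F) => p.2) h3 continuousAt_snd
    have hc2 : ContinuousAt (fun p : ((Fin c → ℝ) × F) × ((Fin c → ℝ) × F) => a^[k₂] p.1)
        (w, w) := by
      have h1 : ContinuousAt (a^[k₂]) w :=
        (h.sys.iter_contDiff h.ha k₂ (h.memK hwB)).continuousAt
      exact ContinuousAt.comp (g := a^[k₂])
        (f := fun p : ((Fin c → ℝ) × F) × ((Fin c → ℝ) × F) => p.1) h1 continuousAt_fst
    have hc3 := hc1.sub hc2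
    have hc4 : ContinuousAt (fun p : ((Fin c → ℝ) × F) × ((Fin c → ℝ) × F) =>
        ‖(a^[k₂] (g p.2) - a^[k₂] p.1).2‖) (w, w) :=
      (ContinuousAt.comp (g := Prod.snd) continuous_snd.continuousAt hc3).norm
    have hc5 : ContinuousAt (fun p : ((Fin c → ℝ) × F) × ((Fin c → ℝ) × F) =>
        ‖(a^[k₂] (g p.2) - a^[k₂] p.1).1‖) (w, w) :=
      (ContinuousAt.comp (g := Prod.fst) continuous_fst.continuousAt hc3).norm
    have hk₂' : ‖(a^[k₂] (g w) - a^[k₂] w).2‖ < ‖(a^[k₂] (g w) - a^[k₂] w).1‖ := by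
      rw [Function.iterate_fixed h.fix]; exact hk₂
    have h1 := hc4.eventually_lt hc5 hk₂'
    obtain ⟨ρ, hρ, h2⟩ := Metric.eventually_nhds_iff.1 h1
    refine ⟨ρ, hρ, fun x hx y hy => ?_⟩
    exact h2 (y := (x, y)) (by
      rw [Prod.dist_eq]
      exact max_lt hx hy)
  obtain ⟨ρ₂, hρ₂, hsepnear⟩ := hsepnear
  -- choice of `m`
  obtain ⟨J₁, hJ₁⟩ := h.narrow_from hσ₂0 0
  obtain ⟨J₂, hJ₂⟩ := h.eventually_maps hρ₁
  obtain ⟨J₃, hJ₃⟩ := h.eventually_maps hρ₂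
  obtain ⟨J₄, hJ₄⟩ := h.eventually_maps h.rpos
  set m := max (max J₁ J₂) (max J₃ J₄) with hm
  have hm1 : J₁ ≤ m := le_trans (le_max_left _ _) (le_max_left _ _)
  have hm2 : J₂ ≤ m := le_trans (le_max_right _ _) (le_max_left _ _)
  have hm3 : J₃ ≤ m := le_trans (le_max_left _ _) (le_max_right _ _)
  have hm4 : J₄ ≤ m := le_trans (le_max_right _ _) (le_max_right _ _)
  have hamB : ∀ x ∈ closedBall w r, a^[m] x ∈ closedBall w r := fun x hx =>
    ball_subset_closedBall (hJ₄ m hm4 x hx)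
  have hgamB : ∀ x ∈ closedBall w r, g (a^[m] x) ∈ closedBall w r := fun x hx =>
    ball_subset_closedBall (hgmaps (hamB x hx))
  -- bound on the derivative of `g ∘ a^m`
  have hcdq : ∀ x ∈ closedBall w r, ContDiffAt ℝ 1 (g ∘ a^[m]) x := by
    intro x hx
    exact ContDiffAt.comp x (h.sys.contDiff _ _ hg _ (h.memK (hamB x hx)))
      (h.sys.iter_contDiff h.ha m (h.memK hx))
  obtain ⟨C, hC⟩ := (isCompact_closedBall w r).exists_bound_of_continuousOn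
    (f := fun x => fderiv ℝ (g ∘ a^[m]) x)
    (fun x hx => (continuousAt_fderiv_of_contDiffAt (hcdq x hx)).continuousWithinAt)
  have hC0 : 0 ≤ C := (norm_nonneg _).trans (hC w hwB)
  -- choice of `i`
  obtain ⟨I₁, hI₁⟩ := h.narrow_from hσ k₁
  obtain ⟨I₂, hI₂⟩ := h.narrow_from hσ 0
  obtain ⟨I₅, hI₅⟩ : ∃ I : ℕ, ∀ i ≥ I, (min α 1 / 50) ^ i * C ≤ 1 / 2 := by
    have h1 : Tendsto (fun i : ℕ => (min α 1 / 50) ^ i * C) atTop (𝓝 0) := by
      have := (tendsto_pow_atTop_nhds_zero_of_lt_one (r := min α 1 / 50) (by positivity)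
        (by have := min_le_right α 1; linarith)).mul_const C
      simpa using this
    obtain ⟨I, hI⟩ := (h1.eventually (gt_mem_nhds (show (0 : ℝ) < 1 / 2 by norm_num))).exists_forall_of_atTop
    exact ⟨I, fun i hi => (hI i hi).le⟩
  set i := max (max (max I₁ I₂) (max J₄ I₅)) (max k₂ 1) with hi
  have hi1 : I₁ ≤ i := le_trans (le_trans (le_max_left _ _) (le_max_left _ _)) (le_max_left _ _)
  have hi2 : I₂ ≤ i := le_trans (le_trans (le_max_right _ _) (le_max_left _ _)) (le_max_left _ _)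
  have hi4 : J₄ ≤ i := le_trans (le_trans (le_max_left _ _) (le_max_right _ _)) (le_max_left _ _)
  have hi5 : I₅ ≤ i := le_trans (le_trans (le_max_right _ _) (le_max_right _ _)) (le_max_left _ _)
  have hik : k₂ ≤ i := le_trans (le_max_left _ _) (le_max_right _ _)
  have hi0 : 1 ≤ i := le_trans (le_max_right _ _) (le_max_right _ _)
  refine ⟨fun b => if b then a^[i] ∘ (g ∘ a^[m]) else a^[i + m], ?_, ?_, ?_, ?_, ?_⟩
  · -- membership
    intro b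
    cases b
    · exact ⟨_, h.sys.iter_mem h.ha (i + m) (by omega)⟩
    · simp only [if_true]
      rcases Nat.eq_zero_or_pos m with hm0 | hm0
      · rw [hm0]
        exact ⟨_, h.sys.comp _ _ _ (h.sys.iter_mem h.ha i hi0) _ hg⟩
      · exact ⟨_, h.sys.comp _ _ _ (h.sys.iter_mem h.ha i hi0) _
          (h.sys.comp _ _ _ hg _ (h.sys.iter_mem h.ha m hm0))⟩
  · -- maps
    intro b x hx
    cases b
    · exact hJ₄ (i + m) (by omega) x hx
    · exact hJ₄ i hi4 _ (hgamB x hx)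
  · -- cone
    intro b x hx y hy hxy
    cases b
    · exact hI₂ (i + m) (by omega) x hx y hy (by simpa using hxy)
    · apply hI₁ i hi1 _ (hgamB x hx) _ (hgamB y hy)
      apply hcomp_hor _ (hJ₂ m hm2 x hx) _ (hJ₂ m hm2 y hy)
      exact hJ₁ m hm1 x hx y hy (by simpa using hxy)
  · -- separation
    intro x hx y hy
    have h1 := hsepnear _ (hJ₃ m hm3 x hx) _ (hJ₃ m hm3 y hy)
    have h2 := h.dom.orbit_strict (h.dist_step _ (hamB x hx) _ (hgamB y hy)) hik h1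
    have h3 : (if (true : Bool) then a^[i] ∘ (g ∘ a^[m]) else a^[i + m]) y = a^[i] (g (a^[m] y)) := rfl
    have h4 : (if (false : Bool) then a^[i] ∘ (g ∘ a^[m]) else a^[i + m]) x = a^[i] (a^[m] x) := by
      simp [Function.iterate_add_apply]
    rw [h3, h4]
    exact h2
  · -- contraction
    intro b x hx ζ hζ
    cases b
    · have h1 := h.dom.orbit_ver_of_last (h.vec_orbit hx ζ) (j := i + m) hζ
      rw [fderiv_zero] at h1
      refine le_trans h1 (mul_le_mul_of_nonneg_right ?_ (norm_nonneg _))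
      have hle : min α 1 / 50 ≤ 1 / 2 := by have := min_le_right α 1; linarith
      calc (min α 1 / 50) ^ (i + m) ≤ (min α 1 / 50) ^ 1 :=
            pow_le_pow_of_le_one (by positivity) (by linarith) (by omega)
        _ ≤ 1 / 2 := by simpa using hle
    · simp only [if_true] at hζ ⊢
      have h1 : fderiv ℝ (a^[i] ∘ (g ∘ a^[m])) x
          = (fderiv ℝ (a^[i]) (g (a^[m] x))).comp (fderiv ℝ (g ∘ a^[m]) x) := by
        apply fderiv_comp
        · exact (h.sys.iter_contDiff h.ha i (h.memK (hgamB x hx))).differentiableAt (by norm_num)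
        · exact (hcdq x hx).differentiableAt (by norm_num)
      rw [h1] at hζ ⊢
      have h2 := h.dom.orbit_ver_of_last (h.vec_orbit (hgamB x hx) (fderiv ℝ (g ∘ a^[m]) x ζ))
        (j := i) hζ
      rw [fderiv_zero] at h2
      have h3 : ‖fderiv ℝ (g ∘ a^[m]) x ζ‖ ≤ C * ‖ζ‖ :=
        ContinuousLinearMap.le_of_opNorm_le _ (hC x hx) _
      calc ‖(fderiv ℝ (a^[i]) (g (a^[m] x))).comp (fderiv ℝ (g ∘ a^[m]) x) ζ‖
          ≤ (min α 1 / 50) ^ i * ‖fderiv ℝ (g ∘ a^[m]) x ζ‖ := h2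
        _ ≤ (min α 1 / 50) ^ i * (C * ‖ζ‖) := mul_le_mul_of_nonneg_left h3 (by positivity)
        _ = (min α 1 / 50) ^ i * C * ‖ζ‖ := by ring
        _ ≤ 1 / 2 * ‖ζ‖ := mul_le_mul_of_nonneg_right (hI₅ i hi5) (norm_nonneg _)

end Main

end Pool.Agent.Work.MP_429976_an
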