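import Mathlib

/-!
Metric part for problem MP_429976_an: open continuous expansive maps of compact metric spaces.
-/

namespace Pool.Agent.Work.MP_429976_an

open Filter Topology Set Metric

theorem exists_pos_le_finset {ι : Type*} (t : Finset ι) (s : ι → ℝ) (hs : ∀ i, 0 < s i)
    {ε : ℝ} (hε : 0 < ε) : ∃ r > 0, r ≤ ε ∧ ∀ x ∈ t, r ≤ s x := by
  classical
  induction t using Finset.induction_on with
  | empty => exact ⟨ε, hε, le_rfl, by simp⟩
  | insert a t hat ih =>
    obtain ⟨r, hr, hrε, h⟩ := ih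
    refine ⟨min r (s a), lt_min hr (hs a), (min_le_left _ _).trans hrε, fun x hx => ?_⟩
    rcases Finset.mem_insert.1 hx with rfl | hx
    · exact min_le_right _ _
    · exact (min_le_left _ _).trans (h x hx)

section Metric

variable {M : Type*} [MetricSpace M] [CompactSpace M] {f : M → M} {δ : ℝ}

/-- (T1) uniform expansivity. -/
theorem T1 (hf : Continuous f) (hδ : ∀ x y : M, x ≠ y → ∃ k : ℕ, δ < dist (f^[k] x) (f^[k] y))
    {ε : ℝ} (hε : 0 < ε) :
    ∃ N : ℕ, ∀ x y : M, (∀ k ≤ N, dist (f^[k] x) (f^[k] y) ≤ δ) → dist x y < ε := by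
  classical
  let C : Set (M × M) := {p | ε ≤ dist p.1 p.2}
  have hC : IsCompact C := (isClosed_le continuous_const continuous_dist).isCompact
  let U : ℕ → Set (M × M) := fun k => {p | δ < dist (f^[k] p.1) (f^[k] p.2)}
  have hU : ∀ k, IsOpen (U k) := by
    intro k
    refine isOpen_lt continuous_const ?_
    have := hf.iterate k
    fun_prop
  have hcov : C ⊆ ⋃ k, U k := by
    rintro ⟨x, y⟩ hp
    have hne : x ≠ y := by
      rintro rfl
      have hp' : ε ≤ dist x x := hp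
      rw [dist_self] at hp'
      linarith
    obtain ⟨k, hk⟩ := hδ x y hne
    exact mem_iUnion.2 ⟨k, hk⟩
  obtain ⟨t, ht⟩ := hC.elim_finite_subcover U hU hcov
  refine ⟨t.sup id, fun x y h => ?_⟩
  by_contra hlt
  push Not at hlt
  have hmem : (x, y) ∈ C := hlt
  obtain ⟨k, hk, hk'⟩ := mem_iUnion₂.1 (ht hmem)
  have h1 := h k (Finset.le_sup (f := id) hk)
  have h2 : δ < dist (f^[k] x) (f^[k] y) := hk'
  linarith

/-- uniform openness. -/
theorem unif_open (hf : Continuous f) (ho : IsOpenMap f) {ε : ℝ} (hε : 0 < ε) :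
    ∃ s > 0, s ≤ ε ∧ ∀ x z : M, dist (f x) z < s → ∃ y, dist x y < ε ∧ f y = z := by
  classical
  have h1 : ∀ x : M, ∃ s > 0, ball (f x) (2 * s) ⊆ f '' ball x (ε / 2) := by
    intro x
    have h2 : IsOpen (f '' ball x (ε / 2)) := ho _ isOpen_ball
    obtain ⟨s, hs, hs'⟩ := Metric.isOpen_iff.1 h2 (f x) ⟨x, mem_ball_self (by linarith), rfl⟩
    exact ⟨s / 2, by linarith, by convert hs' using 2; ring⟩
  choose s hs hs' using h1
  let U : M → Set M := fun x => {y | dist y x < ε / 2 ∧ dist (f y) (f x) < s x}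
  have hU : ∀ x, IsOpen (U x) := by
    intro x
    have c1 : Continuous fun y => dist y x := continuous_id.dist continuous_const
    have c2 : Continuous fun y => dist (f y) (f x) := hf.dist continuous_const
    exact (isOpen_lt c1 continuous_const).inter (isOpen_lt c2 continuous_const)
  have hcov : (univ : Set M) ⊆ ⋃ x, U x := by
    intro x _
    refine mem_iUnion.2 ⟨x, ?_, ?_⟩
    · rw [dist_self]; linarith
    · rw [dist_self]; exact hs x
  obtain ⟨t, ht⟩ := isCompact_univ.elim_finite_subcover U hU hcov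
  obtain ⟨r, hr, hrε, hrt⟩ := exists_pos_le_finset t s hs hε
  refine ⟨r, hr, hrε, fun x z hxz => ?_⟩
  obtain ⟨a, ha, ha1, ha2⟩ := mem_iUnion₂.1 (ht (mem_univ x))
  have h3 : z ∈ ball (f a) (2 * s a) := by
    rw [mem_ball]
    calc dist z (f a) ≤ dist z (f x) + dist (f x) (f a) := dist_triangle _ _ _
      _ < r + s a := by
        rw [dist_comm z (f x)]
        exact add_lt_add hxz ha2
      _ ≤ 2 * s a := by linarith [hrt a ha]
  obtain ⟨y, hy, rfl⟩ := hs' a h3
  refine ⟨y, ?_, rfl⟩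
  calc dist x y ≤ dist x a + dist a y := dist_triangle _ _ _
    _ < ε / 2 + ε / 2 := by
      rw [dist_comm a y]
      exact add_lt_add ha1 hy
    _ = ε := by ring

/-- lifting for a fixed number of steps. -/
theorem lift_fixed (hf : Continuous f) (ho : IsOpenMap f) (m : ℕ) :
    ∀ {ε : ℝ}, 0 < ε → ∃ η > 0, ∀ x z : M, dist (f^[m] x) z < η →
      ∃ y, f^[m] y = z ∧ ∀ k ≤ m, dist (f^[k] x) (f^[k] y) < ε := by
  induction m with
  | zero =>
    intro ε hε
    refine ⟨ε, hε, fun x z h => ⟨z, rfl, fun k hk => ?_⟩⟩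
    obtain rfl : k = 0 := by omega
    simpa using h
  | succ m ih =>
    intro ε hε
    obtain ⟨s, hs, hsε, hs'⟩ := unif_open hf ho hε
    obtain ⟨η, hη, h⟩ := ih hs
    refine ⟨η, hη, fun x z hxz => ?_⟩
    rw [Function.iterate_succ_apply] at hxz
    obtain ⟨y', hy', hk⟩ := h (f x) z hxz
    have h0 := hk 0 (Nat.zero_le _)
    simp only [Function.iterate_zero, id_eq] at h0
    obtain ⟨y, hy, hfy⟩ := hs' x y' h0
    refine ⟨y, by rw [Function.iterate_succ_apply, hfy, hy'], fun k hkm => ?_⟩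
    rcases Nat.eq_zero_or_pos k with rfl | hkpos
    · simpa using hy
    · obtain ⟨j, rfl⟩ : ∃ j, k = j + 1 := ⟨k - 1, by omega⟩
      rw [Function.iterate_succ_apply, Function.iterate_succ_apply, hfy]
      exact (hk j (by omega)).trans_le hsε

theorem lift_fixed_le (hf : Continuous f) (ho : IsOpenMap f) (N : ℕ)
    {ε : ℝ} (hε : 0 < ε) : ∃ η > 0, ∀ m ≤ N, ∀ x z : M, dist (f^[m] x) z < η →
      ∃ y, f^[m] y = z ∧ ∀ k ≤ m, dist (f^[k] x) (f^[k] y) < ε := by
  have h := fun m => lift_fixed (f := f) hf ho m hε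
  choose η hη h using h
  obtain ⟨r, hr, -, hrt⟩ := exists_pos_le_finset (Finset.range (N + 1)) η hη hε
  exact ⟨r, hr, fun m hm x z hxz =>
    h m x z (hxz.trans_le (hrt m (Finset.mem_range.2 (by omega))))⟩

/-- (T2) lifting for all numbers of steps. -/
theorem T2 (hf : Continuous f) (ho : IsOpenMap f)
    (hδ : ∀ x y : M, x ≠ y → ∃ k : ℕ, δ < dist (f^[k] x) (f^[k] y))
    {ε : ℝ} (hε : 0 < ε) (hεδ : ε ≤ δ) :
    ∃ η > 0, ∀ m : ℕ, ∀ x z : M, dist (f^[m] x) z < η →
      ∃ y, f^[m] y = z ∧ ∀ k ≤ m, dist (f^[k] x) (f^[k] y) < ε := by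
  obtain ⟨s, hs, hsε, hs'⟩ := unif_open hf ho hε
  obtain ⟨N, hN⟩ := T1 hf hδ hs
  obtain ⟨η, hη, hη'⟩ := lift_fixed_le hf ho N hs
  have key : ∀ m : ℕ, ∀ x z : M, dist (f^[m] x) z < η →
      ∃ y, f^[m] y = z ∧ (∀ k ≤ m, dist (f^[k] x) (f^[k] y) < ε) ∧ dist x y < s := by
    intro m
    induction m with
    | zero =>
      intro x z hxz
      obtain ⟨y, hy, hk⟩ := hη' 0 (Nat.zero_le _) x z hxz
      exact ⟨y, hy, fun k hk' => (hk k hk').trans_le hsε, by simpa using hk 0 le_rfl⟩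
    | succ m ih =>
      intro x z hxz
      rcases le_or_gt (m + 1) N with hmN | hmN
      · obtain ⟨y, hy, hk⟩ := hη' (m + 1) hmN x z hxz
        exact ⟨y, hy, fun k hk' => (hk k hk').trans_le hsε, by simpa using hk 0 (Nat.zero_le _)⟩
      · rw [Function.iterate_succ_apply] at hxz
        obtain ⟨y', hy', hk, h0⟩ := ih (f x) z hxz
        obtain ⟨y, hy, hfy⟩ := hs' x y' h0
        have hall : ∀ k ≤ m + 1, dist (f^[k] x) (f^[k] y) < ε := by
          intro k hkm
          rcases Nat.eq_zero_or_pos k with rfl | hkpos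
          · simpa using hy
          · obtain ⟨j, rfl⟩ : ∃ j, k = j + 1 := ⟨k - 1, by omega⟩
            rw [Function.iterate_succ_apply, Function.iterate_succ_apply, hfy]
            exact hk j (by omega)
        refine ⟨y, by rw [Function.iterate_succ_apply, hfy, hy'], hall, ?_⟩
        exact hN x y fun k hk' => ((hall k (by omega)).trans_le hεδ).le
  exact ⟨η, hη, fun m x z h => by
    obtain ⟨y, hy, hk, -⟩ := key m x z h
    exact ⟨y, hy, hk⟩⟩

omit [CompactSpace M] in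
/-- uniqueness of shadowing lifts. -/
theorem lift_unique (hδ : ∀ x y : M, x ≠ y → ∃ k : ℕ, δ < dist (f^[k] x) (f^[k] y))
    (hδ0 : 0 ≤ δ) {m : ℕ} {y y' : M} (hm : f^[m] y = f^[m] y')
    (hk : ∀ k ≤ m, dist (f^[k] y) (f^[k] y') ≤ δ) : y = y' := by
  by_contra hne
  obtain ⟨k, hk'⟩ := hδ y y' hne
  rcases le_or_gt k m with hkm | hkm
  · linarith [hk k hkm]
  · obtain ⟨j, rfl⟩ : ∃ j, k = j + m := ⟨k - m, by omega⟩
    rw [Function.iterate_add_apply, Function.iterate_add_apply, hm, dist_self] at hk'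
    linarith

/-- bounded chains in a compact connected space. -/
theorem exists_chain [ConnectedSpace M] {η : ℝ} (hη : 0 < η) (z : M) :
    ∃ L : ℕ, (Metric.thickening η)^[L] {z} = (univ : Set M) := by
  set U : ℕ → Set M := fun L => (Metric.thickening η)^[L] {z} with hUdef
  have hsucc : ∀ L, U (L + 1) = Metric.thickening η (U L) := by
    intro L
    simp only [hUdef, Function.iterate_succ_apply']
  have hmono : Monotone U := by
    refine monotone_nat_of_le_succ fun L => ?_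
    rw [hsucc]
    exact self_subset_thickening hη _
  have hopen : ∀ L, IsOpen (U (L + 1)) := by
    intro L
    rw [hsucc]
    exact isOpen_thickening
  have hunion : (⋃ L, U (L + 1)) = (univ : Set M) := by
    refine IsClopen.eq_univ ⟨?_, isOpen_iUnion hopen⟩ ?_
    · refine isClosed_of_closure_subset fun v hv => ?_
      obtain ⟨u, hu, huv⟩ := Metric.mem_closure_iff.1 hv η hη
      obtain ⟨L, hL⟩ := mem_iUnion.1 hu
      refine mem_iUnion.2 ⟨L + 1, ?_⟩
      rw [hsucc]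
      exact mem_thickening_iff.2 ⟨u, hL, huv⟩
    · exact ⟨z, mem_iUnion.2 ⟨0, hmono (Nat.zero_le 1) (by simp [hUdef])⟩⟩
  obtain ⟨L, hL⟩ := isCompact_univ.elim_directed_cover (fun L => U (L + 1)) hopen hunion.ge
    (directed_of_isDirected_le fun a b hab => hmono (by omega))
  exact ⟨L + 1, univ_subset_iff.1 hL⟩

/-- (T3) exactness. -/
theorem T3 [ConnectedSpace M] (hf : Continuous f) (ho : IsOpenMap f) (hδ0 : 0 < δ)
    (hδ : ∀ x y : M, x ≠ y → ∃ k : ℕ, δ < dist (f^[k] x) (f^[k] y))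
    {ε : ℝ} (hε : 0 < ε) (z : M) :
    ∃ N : ℕ, ∀ m ≥ N, ∀ x : M, ∃ y, dist x y < ε ∧ f^[m] y = z := by
  obtain ⟨η, hη, hη'⟩ := T2 hf ho hδ hδ0 le_rfl
  obtain ⟨L, hL⟩ := exists_chain (M := M) hη z
  have hε' : 0 < ε / (L + 1) := by positivity
  obtain ⟨N, hN⟩ := T1 hf hδ hε'
  refine ⟨N, fun m hm x => ?_⟩
  have key : ∀ l : ℕ, ∀ x : M, f^[m] x ∈ (Metric.thickening η)^[l] {z} →
      ∃ y, dist x y ≤ l * (ε / (L + 1)) ∧ f^[m] y = z := by
    intro l
    induction l with
    | zero =>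
      intro x hx
      exact ⟨x, by simp, by simpa using hx⟩
    | succ l ih =>
      intro x hx
      rw [Function.iterate_succ_apply'] at hx
      obtain ⟨v, hv, hxv⟩ := mem_thickening_iff.1 hx
      obtain ⟨x', hx', hk⟩ := hη' m x v hxv
      have h1 : dist x x' < ε / (L + 1) := hN x x' fun k hk' => (hk k (by omega)).le
      obtain ⟨y, hy, hfy⟩ := ih x' (by rw [hx']; exact hv)
      refine ⟨y, ?_, hfy⟩
      calc dist x y ≤ dist x x' + dist x' y := dist_triangle _ _ _
        _ ≤ ε / (L + 1) + l * (ε / (L + 1)) := add_le_add h1.le hy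
        _ = ((l + 1 : ℕ) : ℝ) * (ε / (L + 1)) := by push_cast; ring
  obtain ⟨y, hy, hfy⟩ := key L x (by rw [hL]; exact mem_univ _)
  refine ⟨y, hy.trans_lt ?_, hfy⟩
  rw [mul_div_assoc', div_lt_iff₀ (by positivity)]
  nlinarith

/-- continuous inverse branches of uniform size. -/
theorem exists_branch (hf : Continuous f) (ho : IsOpenMap f) (hδ0 : 0 < δ)
    (hδ : ∀ x y : M, x ≠ y → ∃ k : ℕ, δ < dist (f^[k] x) (f^[k] y)) :
    ∃ η > 0, ∀ m : ℕ, ∀ x : M, ∃ g : M → M,
      (∀ z ∈ ball (f^[m] x) η, f^[m] (g z) = z ∧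
        ∀ k ≤ m, dist (f^[k] x) (f^[k] (g z)) < δ / 3) ∧
      ContinuousOn g (ball (f^[m] x) η) := by
  classical
  have h3 : 0 < δ / 3 := by positivity
  obtain ⟨η, hη, hη'⟩ := T2 hf ho hδ h3 (by linarith)
  refine ⟨η, hη, fun m x => ?_⟩
  have h1 : ∀ z : M, ∃ y : M, z ∈ ball (f^[m] x) η →
      (f^[m] y = z ∧ ∀ k ≤ m, dist (f^[k] x) (f^[k] y) < δ / 3) := by
    intro z
    by_cases hz : z ∈ ball (f^[m] x) η
    · obtain ⟨y, hy, hk⟩ := hη' m x z (by rw [dist_comm]; exact hz)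
      exact ⟨y, fun _ => ⟨hy, hk⟩⟩
    · exact ⟨z, fun h => absurd h hz⟩
  choose g hg using h1
  refine ⟨g, hg, ?_⟩
  intro z0 hz0
  rw [Metric.continuousWithinAt_iff]
  intro ε hε
  obtain ⟨η', hη'0, hη''⟩ := T2 hf ho hδ (lt_min hε h3) ((min_le_right _ _).trans (by linarith))
  refine ⟨η', hη'0, fun {z} hz hzz0 => ?_⟩
  obtain ⟨hg0, hk0⟩ := hg z0 hz0
  obtain ⟨hgz, hkz⟩ := hg z hz
  obtain ⟨y, hy, hky⟩ := hη'' m (g z0) z (by rw [hg0, dist_comm]; exact hzz0)
  have hyz : y = g z := by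
    refine lift_unique hδ hδ0.le (m := m) (by rw [hy, hgz]) fun k hk => ?_
    have a1 := hky k hk
    have a2 := hk0 k hk
    have a3 := hkz k hk
    have a4 := min_le_right ε (δ / 3)
    calc dist (f^[k] y) (f^[k] (g z))
        ≤ dist (f^[k] y) (f^[k] (g z0)) + dist (f^[k] (g z0)) (f^[k] x)
          + dist (f^[k] x) (f^[k] (g z)) := dist_triangle4 _ _ _ _
      _ ≤ δ / 3 + δ / 3 + δ / 3 := by
          rw [dist_comm (f^[k] y), dist_comm _ (f^[k] x)]
          gcongr
          exact (a1.trans_le a4).le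
      _ = δ := by ring
  have := hky 0 (Nat.zero_le _)
  rw [hyz] at this
  simp only [Function.iterate_zero, id_eq] at this
  rw [dist_comm]
  exact this.trans_le (min_le_left _ _)

end Metric

end Pool.Agent.Work.MP_429976_an
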