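import Mathlib

/-!
Chart part for problem MP_429976_an.
-/

namespace Pool.Agent.Work.MP_429976_an

open Filter Topology Set Metric Manifold

section Charts

variable {E : Type*} [NormedAddCommGroup E] [NormedSpace ℝ E] [FiniteDimensional ℝ E]
  {M : Type*} [TopologicalSpace M] [ChartedSpace E M] [IsManifold 𝓘(ℝ, E) 1 M]

omit [FiniteDimensional ℝ E] in
/-- regularity and derivative of a map read in charts -/
theorem chartRep {g : M → M} (hg : ContMDiff 𝓘(ℝ, E) 𝓘(ℝ, E) 1 g) (x0 y0 : M) {u : E}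
    (hu : u ∈ (chartAt E x0).target)
    (hgu : g ((chartAt E x0).symm u) ∈ (chartAt E y0).source) :
    ContDiffAt ℝ 1 (chartAt E y0 ∘ g ∘ (chartAt E x0).symm) u ∧
    ∀ v : E, fderiv ℝ (chartAt E y0 ∘ g ∘ (chartAt E x0).symm) u v =
      mfderiv 𝓘(ℝ, E) 𝓘(ℝ, E) (chartAt E y0) (g ((chartAt E x0).symm u))
        (mfderiv 𝓘(ℝ, E) 𝓘(ℝ, E) g ((chartAt E x0).symm u)
          (mfderiv 𝓘(ℝ, E) 𝓘(ℝ, E) (chartAt E x0).symm u v)) := by
  have h1 : ContMDiffAt 𝓘(ℝ, E) 𝓘(ℝ, E) 1 (chartAt E x0).symm u :=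
    contMDiffOn_chart_symm.contMDiffAt ((chartAt E x0).open_target.mem_nhds hu)
  have h2 : ContMDiffAt 𝓘(ℝ, E) 𝓘(ℝ, E) 1 g ((chartAt E x0).symm u) := hg _
  have h3 : ContMDiffAt 𝓘(ℝ, E) 𝓘(ℝ, E) 1 (chartAt E y0) (g ((chartAt E x0).symm u)) :=
    contMDiffOn_chart.contMDiffAt ((chartAt E y0).open_source.mem_nhds hgu)
  have h12 : ContMDiffAt 𝓘(ℝ, E) 𝓘(ℝ, E) 1 (g ∘ (chartAt E x0).symm) u := h2.comp u h1
  have h123 : ContMDiffAt 𝓘(ℝ, E) 𝓘(ℝ, E) 1 (chartAt E y0 ∘ g ∘ (chartAt E x0).symm) u :=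
    ContMDiffAt.comp (g := chartAt E y0) (f := g ∘ (chartAt E x0).symm) u h3 h12
  refine ⟨h123.contDiffAt, fun v => ?_⟩
  have e1 := mfderiv_comp_apply (g := chartAt E y0) (f := g ∘ (chartAt E x0).symm) u
    (h3.mdifferentiableAt one_ne_zero) (h12.mdifferentiableAt one_ne_zero) v
  have e2 := mfderiv_comp_apply (g := g) (f := (chartAt E x0).symm) u
    (h2.mdifferentiableAt one_ne_zero) (h1.mdifferentiableAt one_ne_zero) v
  have e0 : (mfderiv 𝓘(ℝ, E) 𝓘(ℝ, E) (chartAt E y0 ∘ g ∘ (chartAt E x0).symm) u : E →L[ℝ] E) =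
    fderiv ℝ (chartAt E y0 ∘ g ∘ (chartAt E x0).symm) u := mfderiv_eq_fderiv
  have e3 : fderiv ℝ (chartAt E y0 ∘ g ∘ (chartAt E x0).symm) u v =
      (mfderiv 𝓘(ℝ, E) 𝓘(ℝ, E) (chartAt E y0 ∘ g ∘ (chartAt E x0).symm) u : E →L[ℝ] E) v :=
    DFunLike.congr_fun e0.symm v
  exact e3.trans (e1.trans (congrArg _ e2))

omit [FiniteDimensional ℝ E] in
theorem chartRep_bijective {g : M → M} (hg : ContMDiff 𝓘(ℝ, E) 𝓘(ℝ, E) 1 g)
    (x0 y0 : M) {u : E} (hu : u ∈ (chartAt E x0).target)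
    (hgu : g ((chartAt E x0).symm u) ∈ (chartAt E y0).source)
    (hb : Function.Bijective (mfderiv 𝓘(ℝ, E) 𝓘(ℝ, E) g ((chartAt E x0).symm u))) :
    Function.Bijective (fderiv ℝ (chartAt E y0 ∘ g ∘ (chartAt E x0).symm) u) := by
  have h := (chartRep hg x0 y0 hu hgu).2
  have hbx : Function.Bijective (mfderiv 𝓘(ℝ, E) 𝓘(ℝ, E) (chartAt E x0).symm u) :=
    (mdifferentiable_chart (I := 𝓘(ℝ, E)) x0).symm.mfderiv_bijective hu
  have hby : Function.Bijective (mfderiv 𝓘(ℝ, E) 𝓘(ℝ, E) (chartAt E y0)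
      (g ((chartAt E x0).symm u))) :=
    (mdifferentiable_chart (I := 𝓘(ℝ, E)) y0).mfderiv_bijective hgu
  have hc := (hby.comp hb).comp hbx
  have he : (fderiv ℝ (chartAt E y0 ∘ g ∘ (chartAt E x0).symm) u : E → E) =
      ((mfderiv 𝓘(ℝ, E) 𝓘(ℝ, E) (chartAt E y0) (g ((chartAt E x0).symm u))) ∘
        (mfderiv 𝓘(ℝ, E) 𝓘(ℝ, E) g ((chartAt E x0).symm u))) ∘
          (mfderiv 𝓘(ℝ, E) 𝓘(ℝ, E) (chartAt E x0).symm u) := funext h
  rw [he]
  exact hc

omit [FiniteDimensional ℝ E] [IsManifold 𝓘(ℝ, E) 1 M] in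
theorem iterate_mfderiv_bijective {f : M → M} (hf : ContMDiff 𝓘(ℝ, E) 𝓘(ℝ, E) 1 f)
    (hdf : ∀ x, Function.Bijective (mfderiv 𝓘(ℝ, E) 𝓘(ℝ, E) f x)) (m : ℕ) :
    ∀ x, Function.Bijective (mfderiv 𝓘(ℝ, E) 𝓘(ℝ, E) (f^[m]) x) := by
  induction m with
  | zero =>
    intro x
    have h : mfderiv 𝓘(ℝ, E) 𝓘(ℝ, E) (f^[0]) x = ContinuousLinearMap.id ℝ _ := mfderiv_id
    rw [h]
    exact Function.bijective_id
  | succ m ih =>
    intro x
    have h1 : MDifferentiableAt 𝓘(ℝ, E) 𝓘(ℝ, E) (f^[m]) (f x) :=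
      ((hf.iterate m) _).mdifferentiableAt one_ne_zero
    have h2 : MDifferentiableAt 𝓘(ℝ, E) 𝓘(ℝ, E) f x := (hf _).mdifferentiableAt one_ne_zero
    have h3 := fun v => mfderiv_comp_apply (g := f^[m]) (f := f) x h1 h2 v
    have h4 : (mfderiv 𝓘(ℝ, E) 𝓘(ℝ, E) (f^[m + 1]) x : E → E) =
      (mfderiv 𝓘(ℝ, E) 𝓘(ℝ, E) (f^[m]) (f x)) ∘ (mfderiv 𝓘(ℝ, E) 𝓘(ℝ, E) f x) := by
      funext v
      exact h3 v
    have h5 := (ih (f x)).comp (hdf x)
    exact (congrArg Function.Bijective h4).mpr h5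

/-- a bijective continuous linear endomorphism as an equivalence -/
theorem exists_equiv_of_bijective {L : E →L[ℝ] E} (hL : Function.Bijective L) :
    ∃ L' : E ≃L[ℝ] E, (L' : E →L[ℝ] E) = L := by
  have : CompleteSpace E := FiniteDimensional.complete ℝ E
  refine ⟨ContinuousLinearEquiv.ofBijective L (LinearMap.ker_eq_bot.2 hL.1)
    (LinearMap.range_eq_top.2 hL.2), ?_⟩
  exact ContinuousLinearEquiv.coe_ofBijective _ _ _

theorem isOpenMap_of_localDiffeo {f : M → M} (hf : ContMDiff 𝓘(ℝ, E) 𝓘(ℝ, E) 1 f)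
    (hdf : ∀ x, Function.Bijective (mfderiv 𝓘(ℝ, E) 𝓘(ℝ, E) f x)) : IsOpenMap f := by
  have : CompleteSpace E := FiniteDimensional.complete ℝ E
  rw [isOpenMap_iff_nhds_le]
  intro x
  have hx : x ∈ (chartAt E x).source := mem_chart_source E x
  have hy : f x ∈ (chartAt E (f x)).source := mem_chart_source E (f x)
  have hxu : (chartAt E x).symm (chartAt E x x) = x := (chartAt E x).left_inv hx
  have hu : chartAt E x x ∈ (chartAt E x).target := (chartAt E x).map_source hx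
  have hfu : f ((chartAt E x).symm (chartAt E x x)) ∈ (chartAt E (f x)).source := by
    rw [hxu]; exact hy
  have hF := (chartRep hf x (f x) hu hfu).1
  have hFb := chartRep_bijective hf x (f x) hu hfu (hdf _)
  obtain ⟨L, hL⟩ := exists_equiv_of_bijective hFb
  have hstrict : HasStrictFDerivAt (chartAt E (f x) ∘ f ∘ (chartAt E x).symm) (L : E →L[ℝ] E)
      (chartAt E x x) := by
    rw [hL]
    exact hF.hasStrictFDerivAt one_ne_zero
  have hmap := hstrict.map_nhds_eq_of_equiv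
  have h1 : map (chartAt E x) (𝓝 x) = 𝓝 (chartAt E x x) := (chartAt E x).map_nhds_eq hx
  have hFx : (chartAt E (f x) ∘ f ∘ (chartAt E x).symm) (chartAt E x x) = chartAt E (f x) (f x) := by
    simp only [Function.comp_apply, hxu]
  have h2 : map (chartAt E (f x)).symm (𝓝 (chartAt E (f x) (f x))) = 𝓝 (f x) := by
    have := (chartAt E (f x)).symm.map_nhds_eq ((chartAt E (f x)).map_source hy)
    rw [(chartAt E (f x)).left_inv hy] at this
    exact this
  have hev : f =ᶠ[𝓝 x] (chartAt E (f x)).symm ∘ (chartAt E (f x) ∘ f ∘ (chartAt E x).symm) ∘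
      (chartAt E x) := by
    have e1 : ∀ᶠ y in 𝓝 x, y ∈ (chartAt E x).source := (chartAt E x).open_source.mem_nhds hx
    have e2 : ∀ᶠ y in 𝓝 x, f y ∈ (chartAt E (f x)).source :=
      hf.continuous.continuousAt.eventually_mem ((chartAt E (f x)).open_source.mem_nhds hy)
    filter_upwards [e1, e2] with y hy1 hy2
    simp only [Function.comp_apply, (chartAt E x).left_inv hy1, (chartAt E (f x)).left_inv hy2]
  rw [Filter.map_congr hev, ← Filter.map_map, ← Filter.map_map, h1, hmap, hFx, h2]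

omit [TopologicalSpace M] [ChartedSpace E M] [IsManifold 𝓘(ℝ, E) 1 M] in
/-- A continuous local right inverse of a `C¹` map with bijective derivative is `C¹`. -/
theorem local_inverse_C1 {F h : E → E} {b : E} (hF : ContDiffAt ℝ 1 F (h b))
    (hb : Function.Bijective (fderiv ℝ F (h b))) (hh : ContinuousAt h b)
    (hev : ∀ᶠ y in 𝓝 b, F (h y) = y) :
    ContDiffAt ℝ 1 h b ∧ ∀ v, fderiv ℝ F (h b) (fderiv ℝ h b v) = v := by
  have : CompleteSpace E := FiniteDimensional.complete ℝ E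
  obtain ⟨L, hL⟩ := exists_equiv_of_bijective hb
  have hF' : HasFDerivAt F (L : E →L[ℝ] E) (h b) := by
    rw [hL]
    exact (hF.differentiableAt one_ne_zero).hasFDerivAt
  have hloc := hF.to_localInverse hF' one_ne_zero
  have hFb : F (h b) = b := hev.self_of_nhds
  rw [hFb] at hloc
  have hleft : ∀ᶠ u in 𝓝 (h b), hF.localInverse hF' one_ne_zero (F u) = u :=
    (hF.hasStrictFDerivAt' hF' one_ne_zero).eventually_left_inverse
  have hhev : h =ᶠ[𝓝 b] hF.localInverse hF' one_ne_zero := by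
    filter_upwards [hh.eventually hleft, hev] with y hy1 hy2
    rw [hy2] at hy1
    exact hy1.symm
  have hC := hloc.congr_of_eventuallyEq hhev
  refine ⟨hC, fun v => ?_⟩
  have hd : HasFDerivAt h (fderiv ℝ h b) b := (hC.differentiableAt one_ne_zero).hasFDerivAt
  have hFd : HasFDerivAt F (fderiv ℝ F (h b)) (h b) :=
    (hF.differentiableAt one_ne_zero).hasFDerivAt
  have hcomp := hFd.comp b hd
  have hid : HasFDerivAt (F ∘ h) (ContinuousLinearMap.id ℝ E) b := by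
    refine (hasFDerivAt_id b).congr_of_eventuallyEq ?_
    filter_upwards [hev] with y hy
    simpa using hy
  have := hcomp.unique hid
  exact DFunLike.congr_fun this v

end Charts

end Pool.Agent.Work.MP_429976_an
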