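import Pool.Agent.Work.MP_429976_an.Defs
import Pool.Agent.Work.MP_429976_an.M1
import Pool.Agent.Work.MP_429976_an.M2

/-!
The branch system of a positively expansive local diffeomorphism, problem MP_429976_an.
-/

namespace Pool.Agent.Work.MP_429976_an

open Filter Topology Set Metric Manifold

section Branch

variable {E : Type*} [NormedAddCommGroup E] [NormedSpace ℝ E] [FiniteDimensional ℝ E]
  {M : Type*} [MetricSpace M]

/-- inverse branches of `f^[m]`, read in the chart `φ`, on the compact set `K`. -/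
def branchSet (f : M → M) (δ : ℝ) (φ : OpenPartialHomeomorph M E) (K : Set E) (m : ℕ) :
    Set (E → E) :=
  {h | 1 ≤ m ∧ (∀ x ∈ K, h x ∈ interior K) ∧ (∀ x ∈ K, ContDiffAt ℝ 1 h x) ∧
    (∀ x ∈ K, ∀ᶠ y in 𝓝 x, f^[m] (φ.symm (h y)) = φ.symm y) ∧
    (∀ x ∈ K, ∀ y ∈ K, ∀ k ≤ m, dist (f^[k] (φ.symm (h x))) (f^[k] (φ.symm (h y))) ≤ δ)}

omit [FiniteDimensional ℝ E] in
theorem branchSet_comp {f : M → M} {δ : ℝ} {φ : OpenPartialHomeomorph M E} {K : Set E}
    {m m' : ℕ} {g h : E → E} (hg : g ∈ branchSet f δ φ K m) (hh : h ∈ branchSet f δ φ K m') :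
    g ∘ h ∈ branchSet f δ φ K (m + m') := by
  obtain ⟨hm, g1, g2, g3, g4⟩ := hg
  obtain ⟨hm', h1, h2, h3, h4⟩ := hh
  have hK : ∀ x ∈ K, h x ∈ K := fun x hx => interior_subset (h1 x hx)
  refine ⟨by omega, fun x hx => g1 _ (hK x hx), fun x hx => ?_, fun x hx => ?_,
    fun x hx y hy k hk => ?_⟩
  · exact (g2 _ (hK x hx)).comp x (h2 x hx)
  · have e1 := (h2 x hx).continuousAt.eventually (g3 _ (hK x hx))
    filter_upwards [e1, h3 x hx] with y hy1 hy2
    rw [add_comm, Function.iterate_add_apply, Function.comp_apply, hy1, hy2]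
  · rcases le_or_gt k m with hkm | hkm
    · exact g4 _ (hK x hx) _ (hK y hy) k hkm
    · obtain ⟨j, rfl⟩ : ∃ j, k = j + m := ⟨k - m, by omega⟩
      have e1 := (g3 _ (hK x hx)).self_of_nhds
      have e2 := (g3 _ (hK y hy)).self_of_nhds
      rw [Function.iterate_add_apply, Function.iterate_add_apply, Function.comp_apply,
        Function.comp_apply, e1, e2]
      exact h4 x hx y hy j (by omega)

variable [CompactSpace M] [ConnectedSpace M] [ChartedSpace E M] [IsManifold 𝓘(ℝ, E) 1 M]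

omit [CompactSpace M] [ConnectedSpace M] in
/-- Derivative relation for a branch. -/
theorem branch_deriv {f : M → M} {δ : ℝ} (hf : ContMDiff 𝓘(ℝ, E) 𝓘(ℝ, E) 1 f)
    (hdf : ∀ x, Function.Bijective (mfderiv 𝓘(ℝ, E) 𝓘(ℝ, E) f x)) (x0 : M) {K : Set E}
    (hK : K ⊆ (chartAt E x0).target) {m : ℕ} {h : E → E}
    (hh : h ∈ branchSet f δ (chartAt E x0) K m) {x : E} (hx : x ∈ K) :
    ∀ v, fderiv ℝ (chartAt E x0 ∘ f^[m] ∘ (chartAt E x0).symm) (h x) (fderiv ℝ h x v) = v := by
  obtain ⟨hm, h1, h2, h3, h4⟩ := hh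
  have hxK : h x ∈ K := interior_subset (h1 x hx)
  have e1 : f^[m] ((chartAt E x0).symm (h x)) = (chartAt E x0).symm x := (h3 x hx).self_of_nhds
  have hsrc : f^[m] ((chartAt E x0).symm (h x)) ∈ (chartAt E x0).source := by
    rw [e1]
    exact (chartAt E x0).map_target (hK hx)
  have hF := (chartRep (hf.iterate m) x0 x0 (hK hxK) hsrc).1
  have hFb := chartRep_bijective (hf.iterate m) x0 x0 (hK hxK) hsrc
    (iterate_mfderiv_bijective hf hdf m _)
  refine (local_inverse_C1 hF hFb (h2 x hx).continuousAt ?_).2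
  have e2 : ∀ᶠ y in 𝓝 x, y ∈ (chartAt E x0).target :=
    (chartAt E x0).open_target.mem_nhds (hK hx)
  filter_upwards [h3 x hx, e2] with y hy1 hy2
  simp only [Function.comp_apply]
  rw [hy1, (chartAt E x0).right_inv hy2]

theorem exists_branchSystem {f : M → M} {δ : ℝ} (hf : ContMDiff 𝓘(ℝ, E) 𝓘(ℝ, E) 1 f)
    (hdf : ∀ x, Function.Bijective (mfderiv 𝓘(ℝ, E) 𝓘(ℝ, E) f x)) (hδ0 : 0 < δ)
    (hδ : ∀ x y : M, x ≠ y → ∃ k : ℕ, δ < dist (f^[k] x) (f^[k] y)) :
    ∃ (x0 : M) (K : Set E), K ⊆ (chartAt E x0).target ∧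
      BranchSystem K (branchSet f δ (chartAt E x0) K) := by
  classical
  have ho := isOpenMap_of_localDiffeo hf hdf
  have hfc := hf.continuous
  obtain ⟨x0⟩ : Nonempty M := inferInstance
  set φ := chartAt E x0 with hφ
  obtain ⟨η, hη, hbr⟩ := exists_branch hfc ho hδ0 hδ
  have hx0 : x0 ∈ φ.source := mem_chart_source E x0
  -- the open set on which everything lives
  set W : Set E := φ.target ∩ φ.symm ⁻¹' (ball x0 η) with hW
  have hWo : IsOpen W := φ.isOpen_inter_preimage_symm isOpen_ball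
  have hc0 : φ x0 ∈ W := by
    refine ⟨φ.map_source hx0, ?_⟩
    rw [mem_preimage, φ.left_inv hx0]
    exact mem_ball_self hη
  obtain ⟨r, hr, hrW⟩ := Metric.isOpen_iff.1 hWo _ hc0
  set K : Set E := closedBall (φ x0) (r / 2) with hKdef
  have hKW : K ⊆ W := (closedBall_subset_ball (by linarith)).trans hrW
  have hKt : K ⊆ φ.target := fun x hx => (hKW hx).1
  have hKc : IsCompact K := isCompact_closedBall _ _
  have hne : (interior K).Nonempty :=
    ⟨φ x0, mem_interior.2 ⟨ball (φ x0) (r / 2), ball_subset_closedBall, isOpen_ball,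
      mem_ball_self (by linarith)⟩⟩
  refine ⟨x0, K, hKt, ?_⟩
  refine ⟨hKc, hne, fun m h hh => hh.1, fun m h hh => hh.2.1, fun m h hh => hh.2.2.1,
    ?_, ?_, ?_, ?_, ?_⟩
  · -- injectivity
    intro m h hh x hx y hy hxy
    obtain ⟨hm, h1, h2, h3, h4⟩ := hh
    have e1 := (h3 x hx).self_of_nhds
    have e2 := (h3 y hy).self_of_nhds
    rw [hxy, e2] at e1
    exact (φ.symm.injOn (hKt hy) (hKt hx) e1).symm
  · -- injectivity of the derivative
    intro m h hh x hx v v' hv
    have e1 := branch_deriv hf hdf x0 hKt hh hx v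
    have e2 := branch_deriv hf hdf x0 hKt hh hx v'
    rw [← e1, ← e2, hv]
  · -- composition
    intro m m' g hg h hh
    exact branchSet_comp hg hh
  · -- shrinking
    intro ε hε
    have hcomp : IsCompact (φ.symm '' K) :=
      hKc.image_of_continuousOn (φ.continuousOn_symm.mono hKt)
    have huc : UniformContinuousOn φ (φ.symm '' K) := by
      refine hcomp.uniformContinuousOn_of_continuous (φ.continuousOn.mono ?_)
      rintro _ ⟨x, hx, rfl⟩
      exact φ.map_target (hKt hx)
    rw [Metric.uniformContinuousOn_iff] at huc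
    obtain ⟨ε', hε', huc'⟩ := huc ε hε
    obtain ⟨N, hN⟩ := T1 hfc hδ hε'
    refine ⟨N, fun m hm h hh x hx y hy => ?_⟩
    obtain ⟨hm1, h1, h2, h3, h4⟩ := hh
    have hxK : h x ∈ K := interior_subset (h1 x hx)
    have hyK : h y ∈ K := interior_subset (h1 y hy)
    have hd : dist (φ.symm (h x)) (φ.symm (h y)) < ε' :=
      hN _ _ fun k hk => h4 x hx y hy k (hk.trans hm)
    have := huc' _ (mem_image_of_mem _ hxK) _ (mem_image_of_mem _ hyK) hd
    rw [φ.right_inv (hKt hxK), φ.right_inv (hKt hyK)] at this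
    exact this.le
  · -- density
    intro x hx ε hε
    have hxK : x ∈ K := interior_subset hx
    have hpt : φ.symm x ∈ φ.source := φ.map_target (hKt hxK)
    -- target neighbourhood
    set T : Set M := φ.source ∩ φ ⁻¹' (interior K ∩ ball x ε) with hT
    have hTo : IsOpen T := φ.isOpen_inter_preimage (isOpen_interior.inter isOpen_ball)
    have hpT : φ.symm x ∈ T := by
      refine ⟨hpt, ?_⟩
      rw [mem_preimage, φ.right_inv (hKt hxK)]
      exact ⟨hx, mem_ball_self hε⟩
    obtain ⟨ε1, hε1, hball⟩ := Metric.isOpen_iff.1 hTo _ hpT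
    have hε2 : 0 < ε1 / 2 := by positivity
    obtain ⟨N1, hN1⟩ := T3 hfc ho hδ0 hδ hε2 x0
    obtain ⟨N2, hN2⟩ := T1 hfc hδ hε2
    set m := max (max N1 N2) 1 with hm
    have hm1 : N1 ≤ m := (le_max_left _ _).trans (le_max_left _ _)
    have hm2 : N2 ≤ m := (le_max_right _ _).trans (le_max_left _ _)
    have hm3 : 1 ≤ m := le_max_right _ _
    obtain ⟨y0, hy0, hfy0⟩ := hN1 m hm1 (φ.symm x)
    obtain ⟨g, hg, hgc⟩ := hbr m y0
    rw [hfy0] at hg hgc
    have hgT : ∀ z ∈ ball x0 η, g z ∈ T := by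
      intro z hz
      refine hball ?_
      have e1 : dist y0 (g z) < ε1 / 2 := hN2 _ _ fun k hk =>
        (((hg z hz).2 k (hk.trans hm2)).trans_le (by linarith)).le
      rw [mem_ball, dist_comm]
      calc dist (φ.symm x) (g z) ≤ dist (φ.symm x) y0 + dist y0 (g z) := dist_triangle _ _ _
        _ < ε1 / 2 + ε1 / 2 := add_lt_add hy0 e1
        _ = ε1 := by ring
    -- the branch
    have hid : ∀ y ∈ W, f^[m] (φ.symm (φ (g (φ.symm y)))) = φ.symm y := by
      intro y hy
      rw [φ.left_inv (hgT _ hy.2).1]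
      exact (hg _ hy.2).1
    have hcont : ∀ y ∈ W, ContinuousAt (fun y => φ (g (φ.symm y))) y := by
      intro y hy
      have c1 : ContinuousAt φ.symm y := φ.continuousAt_symm hy.1
      have c2 : ContinuousAt g (φ.symm y) := hgc.continuousAt (isOpen_ball.mem_nhds hy.2)
      have c3 : ContinuousAt φ (g (φ.symm y)) := φ.continuousAt (hgT _ hy.2).1
      exact ContinuousAt.comp (f := fun y => g (φ.symm y)) c3
        (ContinuousAt.comp (f := φ.symm) c2 c1)
    have hmaps : ∀ y ∈ W, φ (g (φ.symm y)) ∈ interior K ∩ ball x ε := fun y hy =>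
      (hgT _ hy.2).2
    refine ⟨m, fun y => φ (g (φ.symm y)), ⟨hm3, fun y hy => (hmaps y (hKW hy)).1, ?_, ?_, ?_⟩,
      fun y hy => (hmaps y (hKW hy)).2⟩
    · intro b hb
      have hbW := hKW hb
      have hhb : φ (g (φ.symm b)) ∈ K := interior_subset (hmaps b hbW).1
      have hsrc : f^[m] (φ.symm (φ (g (φ.symm b)))) ∈ φ.source := by
        rw [hid b hbW]
        exact φ.map_target hbW.1
      have hF := (chartRep (hf.iterate m) x0 x0 (hKt hhb) hsrc).1
      have hFb := chartRep_bijective (hf.iterate m) x0 x0 (hKt hhb) hsrc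
        (iterate_mfderiv_bijective hf hdf m _)
      refine (local_inverse_C1 (h := fun y => φ (g (φ.symm y))) hF hFb (hcont b hbW) ?_).1
      filter_upwards [hWo.mem_nhds hbW] with y hy
      simp only [Function.comp_apply]
      rw [← hφ, hid y hy, φ.right_inv hy.1]
    · intro b hb
      filter_upwards [hWo.mem_nhds (hKW hb)] with y hy
      exact hid y hy
    · intro a ha b hb k hk
      have haW := hKW ha
      have hbW := hKW hb
      rw [φ.left_inv (hgT _ haW.2).1, φ.left_inv (hgT _ hbW.2).1]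
      have e1 := (hg _ haW.2).2 k hk
      have e2 := (hg _ hbW.2).2 k hk
      calc dist (f^[k] (g (φ.symm a))) (f^[k] (g (φ.symm b)))
          ≤ dist (f^[k] (g (φ.symm a))) (f^[k] y0) + dist (f^[k] y0) (f^[k] (g (φ.symm b))) :=
            dist_triangle _ _ _
        _ ≤ δ / 3 + δ / 3 := by
            rw [dist_comm _ (f^[k] y0)]
            exact add_le_add e1.le e2.le
        _ ≤ δ := by linarith

end Branch

end Pool.Agent.Work.MP_429976_an
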