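import Mathlib

/-!
Linear algebra for the final step, problem MP_429976_an.
-/

namespace Pool.Agent.Work.MP_429976_an

open Filter Topology Set Matrix

theorem matrix_roots {ι : Type*} [Fintype ι] [DecidableEq ι] {A B : Matrix ι ι ℝ}
    (hAB : B * A = 1) (hB : ∀ i j, Tendsto (fun k : ℕ => (B ^ k) i j) atTop (𝓝 0)) {μ : ℂ}
    (hμ : (A.charpoly.map (algebraMap ℝ ℂ)).IsRoot μ) : 1 < ‖μ‖ := by
  set φ : ℝ →+* ℂ := algebraMap ℝ ℂ with hφ
  rw [← Matrix.charpoly_map, Polynomial.IsRoot.def, Matrix.eval_charpoly] at hμ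
  obtain ⟨v, hv0, hv⟩ := Matrix.exists_mulVec_eq_zero_iff.2 hμ
  have hv1 : (A.map φ) *ᵥ v = μ • v := by
    rw [Matrix.sub_mulVec, sub_eq_zero] at hv
    rw [← hv, Matrix.scalar_apply]
    ext i
    simp [Matrix.mulVec_diagonal]
  have hBA : (B.map φ) * (A.map φ) = 1 := by
    rw [← Matrix.map_mul, hAB, Matrix.map_one _ (map_zero _) (map_one _)]
  have hv2 : v = μ • ((B.map φ) *ᵥ v) := by
    have := congrArg (fun w => (B.map φ) *ᵥ w) hv1
    simp only [Matrix.mulVec_mulVec, hBA, Matrix.one_mulVec, Matrix.mulVec_smul] at this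
    exact this
  have hvk : ∀ k : ℕ, v = μ ^ k • (((B.map φ) ^ k) *ᵥ v) := by
    intro k
    induction k with
    | zero => simp
    | succ k ih =>
      calc v = μ ^ k • (((B.map φ) ^ k) *ᵥ v) := ih
        _ = μ ^ k • (((B.map φ) ^ k) *ᵥ (μ • ((B.map φ) *ᵥ v))) := by rw [← hv2]
        _ = μ ^ (k + 1) • (((B.map φ) ^ (k + 1)) *ᵥ v) := by
          rw [Matrix.mulVec_smul, Matrix.mulVec_mulVec, smul_smul, pow_succ, pow_succ]
  by_contra hle
  push Not at hle
  apply hv0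
  ext i
  have hlim : Tendsto (fun k : ℕ => (((B.map φ) ^ k) *ᵥ v) i) atTop (𝓝 0) := by
    have e1 : ∀ k : ℕ, (((B.map φ) ^ k) *ᵥ v) i = ∑ j, ((B ^ k) i j : ℂ) * v j := by
      intro k
      rw [← Matrix.map_pow]
      rfl
    simp only [e1]
    rw [show (0 : ℂ) = ∑ j : ι, (0 : ℂ) * v j by simp]
    refine tendsto_finsetSum _ fun j _ => Tendsto.mul_const _ ?_
    have := (Complex.continuous_ofReal.tendsto 0).comp (hB i j)
    rw [Complex.ofReal_zero] at this
    exact this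
  have hb : ∀ k : ℕ, ‖v i‖ ≤ ‖(((B.map φ) ^ k) *ᵥ v) i‖ := by
    intro k
    have e2 : v i = μ ^ k * (((B.map φ) ^ k) *ᵥ v) i := by
      have := congrFun (hvk k) i
      simpa using this
    calc ‖v i‖ = ‖μ‖ ^ k * ‖(((B.map φ) ^ k) *ᵥ v) i‖ := by
          rw [← norm_pow, ← norm_mul, ← e2]
      _ ≤ 1 * ‖(((B.map φ) ^ k) *ᵥ v) i‖ := by
          gcongr
          exact pow_le_one₀ (norm_nonneg _) hle
      _ = _ := one_mul _
  have h0 : ‖v i‖ ≤ 0 := by
    refine ge_of_tendsto' (f := fun k : ℕ => ‖(((B.map φ) ^ k) *ᵥ v) i‖) (x := atTop) ?_ hb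
    simpa using hlim.norm
  simpa using norm_le_zero_iff.1 h0

theorem roots_of_inverse {E : Type*} [NormedAddCommGroup E] [NormedSpace ℝ E]
    [FiniteDimensional ℝ E] {D L : E →ₗ[ℝ] E} (hDL : ∀ v, L (D v) = v)
    (hL : ∀ v, Tendsto (fun k : ℕ => (L ^ k) v) atTop (𝓝 0)) {μ : ℂ}
    (hμ : (D.charpoly.map (algebraMap ℝ ℂ)).IsRoot μ) : 1 < ‖μ‖ := by
  classical
  let b := Module.finBasis ℝ E
  have h1 : LinearMap.toMatrix b b L * LinearMap.toMatrix b b D = 1 := by
    rw [← LinearMap.toMatrix_comp b b b, show L ∘ₗ D = LinearMap.id from LinearMap.ext hDL,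
      LinearMap.toMatrix_id]
  refine matrix_roots (A := LinearMap.toMatrix b b D) (B := LinearMap.toMatrix b b L) h1 ?_ ?_
  · intro i j
    have e1 : ∀ k : ℕ, (LinearMap.toMatrix b b L ^ k) i j = b.repr ((L ^ k) (b j)) i := by
      intro k
      have e2 : LinearMap.toMatrix b b L ^ k = LinearMap.toMatrix b b (L ^ k) :=
        LinearMap.toMatrix_pow b L k
      rw [e2, LinearMap.toMatrix_apply]
    simp only [e1]
    have hc : Continuous fun v : E => b.repr v i :=
      LinearMap.continuous_of_finiteDimensional (b.coord i)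
    have h2 := (hc.tendsto 0).comp (hL (b j))
    have h3 : b.repr (0 : E) i = 0 := by simp
    rw [h3] at h2
    exact h2
  · rwa [LinearMap.charpoly_toMatrix]

end Pool.Agent.Work.MP_429976_an
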