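import Mathlib

/-!
Definitions on manifolds for problem MP_429976_an.
-/

namespace Pool.Agent.Work.MP_429976_an

open Manifold

/-- The derivative `Dg(p) : T_p M → T_{g p} M`, with both tangent spaces identified with the model
space `E` (in Mathlib `TangentSpace 𝓘(ℝ, E) p` *is* `E`, read in the preferred chart at `p`; when
`g p = p` the two identifications coincide, so this is the endomorphism `Dg(p)` of `T_p M`). -/
noncomputable def derivEnd {E : Type*} [NormedAddCommGroup E] [NormedSpace ℝ E]
    {M : Type*} [TopologicalSpace M] [ChartedSpace E M] (g : M → M) (p : M) : E →L[ℝ] E :=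
  mfderiv 𝓘(ℝ, E) 𝓘(ℝ, E) g p

/-- `f` is a `C¹` local diffeomorphism of the manifold `M` (modelled on `E`, without boundary):
`f` is `C¹` and `Df(x)` is invertible for every `x`. -/
def IsC1LocalDiffeo (E : Type*) [NormedAddCommGroup E] [NormedSpace ℝ E]
    {M : Type*} [TopologicalSpace M] [ChartedSpace E M] (f : M → M) : Prop :=
  ContMDiff 𝓘(ℝ, E) 𝓘(ℝ, E) 1 f ∧ ∀ x : M, Function.Bijective (derivEnd (E := E) f x)

/-- `p` is a repelling periodic point of `f`: `f^n(p) = p` for some `n ≥ 1` and every (complex)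
eigenvalue of `Df^n(p)` has modulus `> 1`. -/
def IsRepellingPeriodicPoint (E : Type*) [NormedAddCommGroup E] [NormedSpace ℝ E]
    [FiniteDimensional ℝ E] {M : Type*} [TopologicalSpace M] [ChartedSpace E M]
    (f : M → M) (p : M) : Prop :=
  ∃ n : ℕ, 1 ≤ n ∧ f^[n] p = p ∧ ∀ μ : ℂ,
    ((derivEnd (E := E) (f^[n]) p).toLinearMap.charpoly.map (algebraMap ℝ ℂ)).IsRoot μ → 1 < ‖μ‖

end Pool.Agent.Work.MP_429976_an
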