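import Pool.Agent.Work.MP_429976_an.M3
import Pool.Agent.Work.MP_429976_an.M4
import Pool.Agent.Work.MP_429976_an.MDefs

/-!
The manifold theorem, given the abstract semigroup theorem, problem MP_429976_an.
-/

namespace Pool.Agent.Work.MP_429976_an

open Filter Topology Set Metric Manifold

variable {E : Type*} [NormedAddCommGroup E] [NormedSpace ℝ E] [FiniteDimensional ℝ E]
  {M : Type*} [MetricSpace M] [CompactSpace M] [ConnectedSpace M] [ChartedSpace E M]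
  [IsManifold 𝓘(ℝ, E) 1 M]

omit [FiniteDimensional ℝ E] [CompactSpace M] [ConnectedSpace M]
  [IsManifold 𝓘(ℝ, E) 1 M] in
theorem mfderiv_congr_point (g : M → E) {p q : M} (h : p = q) (v : E) :
    (mfderiv 𝓘(ℝ, E) 𝓘(ℝ, E) g p : E →L[ℝ] E) v =
      (mfderiv 𝓘(ℝ, E) 𝓘(ℝ, E) g q : E →L[ℝ] E) v := by
  subst h
  rfl

/-- The manifold theorem from the abstract theorem. -/
theorem main_of_contracting
    (hA : ∀ (K : Set E) (S : ℕ → Set (E → E)), BranchSystem K S →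
      ∃ m, ∃ h ∈ S m, ∃ w ∈ K, h w = w ∧
        ∀ v : E, Tendsto (fun k : ℕ => ((fderiv ℝ h w) ^ k) v) atTop (𝓝 0))
    {f : M → M} (hf : ContMDiff 𝓘(ℝ, E) 𝓘(ℝ, E) 1 f)
    (hdf : ∀ x, Function.Bijective (mfderiv 𝓘(ℝ, E) 𝓘(ℝ, E) f x))
    (hexp : PositivelyExpansive f) :
    ∃ p : M, IsRepellingPeriodicPoint E f p := by
  obtain ⟨δ, hδ0, hδ⟩ := hexp
  obtain ⟨x0, K, hK, hS⟩ := exists_branchSystem hf hdf hδ0 hδ
  obtain ⟨m, h, hh, w, hw, hhw, hlim⟩ := hA K _ hS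
  set φ := chartAt E x0 with hφ
  have hder := branch_deriv hf hdf x0 hK hh hw
  obtain ⟨hm, h1, h2, h3, h4⟩ := hh
  have hp : f^[m] (φ.symm w) = φ.symm w := by
    have := (h3 w hw).self_of_nhds
    rwa [hhw] at this
  refine ⟨φ.symm w, m, hm, hp, fun μ hμ => ?_⟩
  rw [hhw] at hder
  have hwt : w ∈ φ.target := hK hw
  have hsrc : f^[m] (φ.symm w) ∈ φ.source := by
    rw [hp]
    exact φ.map_target hwt
  have hrep := (chartRep (hf.iterate m) x0 x0 hwt hsrc).2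
  -- the linear maps
  let D : E →L[ℝ] E := mfderiv 𝓘(ℝ, E) 𝓘(ℝ, E) (f^[m]) (φ.symm w)
  let P : E →L[ℝ] E := mfderiv 𝓘(ℝ, E) 𝓘(ℝ, E) φ (φ.symm w)
  let Q : E →L[ℝ] E := mfderiv 𝓘(ℝ, E) 𝓘(ℝ, E) φ.symm w
  let L : E →L[ℝ] E := fderiv ℝ h w
  have hPQ : ∀ v, P (Q v) = v := by
    intro v
    have := (mdifferentiable_chart (I := 𝓘(ℝ, E)) x0).comp_symm_deriv hwt
    exact DFunLike.congr_fun this v
  have hQinj : Function.Injective Q := fun a b hab => by
    rw [← hPQ a, ← hPQ b, hab]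
  have hQsurj : Function.Surjective Q :=
    LinearMap.surjective_of_injective (f := (Q : E →ₗ[ℝ] E)) hQinj
  have hQP : ∀ v, Q (P v) = v := by
    intro v
    obtain ⟨u, rfl⟩ := hQsurj v
    rw [hPQ]
  have hPDQL : ∀ v, P (D (Q (L v))) = v := by
    intro v
    have e1 := hder v
    have e2 := hrep (L v)
    have e3 : (mfderiv 𝓘(ℝ, E) 𝓘(ℝ, E) φ (f^[m] (φ.symm w)) : E →L[ℝ] E) (D (Q (L v))) =
        P (D (Q (L v))) := mfderiv_congr_point φ hp _
    rw [← e3]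
    exact e2.symm.trans e1
  have hDQL : ∀ v, D (Q (L v)) = Q v := by
    intro v
    rw [← hQP (D (Q (L v))), hPDQL]
  -- the inverse of D
  let R : E →ₗ[ℝ] E := (Q : E →ₗ[ℝ] E) ∘ₗ (L : E →ₗ[ℝ] E) ∘ₗ (P : E →ₗ[ℝ] E)
  have hDR : ∀ v, D (R v) = v := by
    intro v
    change D (Q (L (P v))) = v
    rw [hDQL, hQP]
  have hRinj : Function.Injective R := fun a b hab => by
    rw [← hDR a, ← hDR b, hab]
  have hRsurj : Function.Surjective R := LinearMap.surjective_of_injective hRinj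
  have hRD : ∀ v, R (D v) = v := by
    intro v
    obtain ⟨u, rfl⟩ := hRsurj v
    rw [hDR]
  have hRk : ∀ (k : ℕ) (v : E), (R ^ k) v = Q ((L ^ k) (P v)) := by
    intro k
    induction k with
    | zero => intro v; simp [hQP]
    | succ k ih =>
      intro v
      rw [pow_succ, Module.End.mul_apply, ih]
      change Q ((L ^ k) (P (Q (L (P v))))) = _
      rw [hPQ, pow_succ]
      rfl
  refine roots_of_inverse (D := (D : E →ₗ[ℝ] E)) (L := R) hRD ?_ hμ
  intro v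
  simp only [hRk]
  have e4 := (Q.continuous.tendsto 0).comp (hlim (P v))
  rw [map_zero] at e4
  exact e4

end Pool.Agent.Work.MP_429976_an
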