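import Pool.Agent.Work.MP_429976_an.Field

/-!
Points off the strong stable set.
-/

namespace Pool.Agent.Work.MP_429976_an

open Filter Topology Set Metric

variable {E F : Type*} [NormedAddCommGroup E] [NormedSpace ℝ E] [NormedAddCommGroup F]
  [NormedSpace ℝ F]

/-- `x` is horizontally separated from `w` at some time. -/
def Sep (a : E × F → E × F) (w x : E × F) : Prop :=
  ∃ j : ℕ, ‖(a^[j] x - w).2‖ < ‖(a^[j] x - w).1‖

variable
  {K : Set (E × F)} {S : ℕ → Set (E × F → E × F)} {a : E × F → E × F} {m₀ : ℕ}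
  {w : E × F} {A : E →L[ℝ] E} {D : F →L[ℝ] F} {α r : ℝ}

namespace Core

theorem w_mem (h : Core K S a m₀ w A D α r) : w ∈ closedBall w r :=
  mem_closedBall_self h.rpos.le

theorem sep_open (h : Core K S a m₀ w A D α r) {x : E × F} (hx : x ∈ K) (hs : Sep a w x) :
    ∀ᶠ y in 𝓝 x, Sep a w y := by
  obtain ⟨j, hj⟩ := hs
  have hc : ContinuousAt (a^[j]) x := (h.sys.iter_contDiff h.ha j hx).continuousAt
  have h1 : ContinuousAt (fun y => ‖(a^[j] y - w).2‖) x :=
    (continuous_snd.continuousAt.comp (hc.sub continuousAt_const)).norm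
  have h2 : ContinuousAt (fun y => ‖(a^[j] y - w).1‖) x :=
    (continuous_fst.continuousAt.comp (hc.sub continuousAt_const)).norm
  filter_upwards [h1.eventually_lt h2 hj] with y hy
  exact ⟨j, hy⟩

theorem sep_dense (h : Core K S a m₀ w A D α r) [Nontrivial E] {x : E × F} (hx : x ∈ ball w r)
    {ε : ℝ} (hε : 0 < ε) : ∃ y ∈ ball w r, dist y x < ε ∧ Sep a w y := by
  by_cases hsx : Sep a w x
  · exact ⟨x, hx, by simpa using hε, hsx⟩
  obtain ⟨e₀, he₀⟩ := exists_norm_eq E (zero_le_one (α := ℝ))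
  have hα := h.dom.pos
  have hμ := h.dom.minpos
  -- choose a small displacement
  have hcont : Tendsto (fun t : ℝ => x + ((t • e₀, 0) : E × F)) (𝓝[>] 0) (𝓝 x) := by
    have : Continuous (fun t : ℝ => x + ((t • e₀, 0) : E × F)) := by fun_prop
    have h1 := this.tendsto 0
    simp only [zero_smul] at h1
    have h2 : x + ((0, 0) : E × F) = x := by simp
    rw [h2] at h1
    exact h1.mono_left nhdsWithin_le_nhds
  have hev : ∀ᶠ t : ℝ in 𝓝[>] 0, (x + ((t • e₀, 0) : E × F)) ∈ ball w r ∩ ball x ε :=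
    hcont.eventually_mem ((isOpen_ball.inter isOpen_ball).mem_nhds ⟨hx, mem_ball_self hε⟩)
  obtain ⟨t, ⟨ht1, ht2⟩, ht0⟩ := (hev.and self_mem_nhdsWithin).exists
  set y := x + ((t • e₀, 0) : E × F) with hy
  refine ⟨y, ht1, ht2, ?_⟩
  by_contra hsy
  have hxB : x ∈ closedBall w r := ball_subset_closedBall hx
  have hyB : y ∈ closedBall w r := ball_subset_closedBall ht1
  have hver : ∀ z ∈ closedBall w r, ¬ Sep a w z → ∀ j, ‖a^[j] z - w‖ ≤ (min α 1 / 50) ^ j * ‖z - w‖ := by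
    intro z hz hsz j
    unfold Sep at hsz
    push Not at hsz
    have h1 := h.dist_step w h.w_mem z hz
    simp only [Function.iterate_fixed h.fix] at h1
    have h2 := h.dom.orbit_ver h1 (j := j) (fun i _ => hsz i)
    simpa using h2
  have h1 := hver x hxB hsx
  have h2 := hver y hyB hsy
  have hdiff : y - x = ((t • e₀, 0) : E × F) := by simp [hy]
  have ht0' : 0 < t := ht0
  have hn : ‖(y - x).1‖ = t := by
    rw [hdiff]; simp [norm_smul, he₀, abs_of_pos ht0']
  have h3 : ∀ j, (99 / 100 * α) ^ j * t ≤ (min α 1 / 50) ^ j * (‖x - w‖ + ‖y - w‖) := by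
    intro j
    have h4 := (h.dom.orbit_hor (h.dist_step x hxB y hyB) (by
      show ‖(a^[0] y - a^[0] x).2‖ ≤ ‖(a^[0] y - a^[0] x).1‖
      simp only [Function.iterate_zero, id]
      rw [hdiff]; simp) j).2
    have h5 : (99 / 100 * α) ^ j * ‖(y - x).1‖ ≤ ‖(a^[j] y - a^[j] x).1‖ := h4
    rw [hn] at h5
    have h6 := norm_fst_le' (a^[j] y - a^[j] x)
    have h7 : ‖a^[j] y - a^[j] x‖ ≤ ‖a^[j] y - w‖ + ‖a^[j] x - w‖ := by
      have : a^[j] y - a^[j] x = (a^[j] y - w) - (a^[j] x - w) := by abel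
      rw [this]; exact norm_sub_le _ _
    have := h1 j
    have := h2 j
    nlinarith
  have h8 : ∀ j : ℕ, t ≤ (1 / 2) ^ j * (‖x - w‖ + ‖y - w‖) := by
    intro j
    have hp : 0 < (99 / 100 * α) ^ j := by positivity
    have h9 : (min α 1 / 50) ^ j ≤ (99 / 100 * α) ^ j * (1 / 2) ^ j := by
      rw [← mul_pow]
      apply pow_le_pow_left₀ (by positivity)
      have := min_le_left α 1
      linarith
    have h10 := h3 j
    have h11 : (min α 1 / 50) ^ j * (‖x - w‖ + ‖y - w‖) ≤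
        (99 / 100 * α) ^ j * ((1 / 2) ^ j * (‖x - w‖ + ‖y - w‖)) := by
      rw [← mul_assoc]
      exact mul_le_mul_of_nonneg_right h9 (by positivity)
    exact le_of_mul_le_mul_left (h10.trans h11) hp
  have h12 : Tendsto (fun j : ℕ => (1 / 2 : ℝ) ^ j * (‖x - w‖ + ‖y - w‖)) atTop (𝓝 0) := by
    have := (tendsto_pow_atTop_nhds_zero_of_lt_one (r := (1 / 2 : ℝ)) (by norm_num)
      (by norm_num)).mul_const (‖x - w‖ + ‖y - w‖)
    simpa using this
  have h13 : t ≤ 0 := ge_of_tendsto' h12 h8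
  linarith

/-- Good branches exist near `w`. -/
theorem exists_good (h : Core K S a m₀ w A D α r) [Nontrivial E] {ε : ℝ} (hε : 0 < ε) :
    ∃ m, ∃ g ∈ S m, MapsTo g (closedBall w r) (ball w r) ∧ Sep a w (g w) ∧ dist (g w) w < ε := by
  obtain ⟨y, hy, hyd, hys⟩ := h.sep_dense (mem_ball_self h.rpos) hε
  have hyK : y ∈ interior K := h.ballK (ball_subset_closedBall hy)
  have h1 := h.sep_open (interior_subset hyK) hys
  have h2 : ∀ᶠ z in 𝓝 y, Sep a w z ∧ z ∈ ball w r ∧ z ∈ ball w ε :=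
    h1.and (Filter.Eventually.and (isOpen_ball.mem_nhds hy) (isOpen_ball.mem_nhds hyd))
  obtain ⟨δ, hδ, h3⟩ := Metric.eventually_nhds_iff.1 h2
  obtain ⟨m, g, hg, hgd⟩ := h.sys.dense y hyK δ hδ
  refine ⟨m, g, hg, ?_, ?_, ?_⟩
  · intro z hz
    exact (h3 (hgd z (h.memK hz))).2.1
  · exact (h3 (hgd w (h.memK h.w_mem))).1
  · exact (h3 (hgd w (h.memK h.w_mem))).2.2

end Core

end Pool.Agent.Work.MP_429976_an
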