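import Pool.Agent.Work.MP_429976_an.Defs
import Pool.Agent.Work.MP_429976_an.Cone

/-!
Basic facts on branch systems and the choice of a small ball.
-/

namespace Pool.Agent.Work.MP_429976_an

open Filter Topology Set Metric

section BS

variable {V : Type*} [NormedAddCommGroup V] [NormedSpace ℝ V] {K : Set V} {S : ℕ → Set (V → V)}

theorem BranchSystem.mapsK (hS : BranchSystem K S) {m : ℕ} {h : V → V} (hh : h ∈ S m) {x : V}
    (hx : x ∈ K) : h x ∈ K := interior_subset (hS.maps m h hh x hx)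

theorem BranchSystem.contAt (hS : BranchSystem K S) {m : ℕ} {h : V → V} (hh : h ∈ S m) {x : V}
    (hx : x ∈ K) : ContinuousAt h x := (hS.contDiff m h hh x hx).continuousAt

theorem BranchSystem.iter_mem (hS : BranchSystem K S) {m : ℕ} {a : V → V} (ha : a ∈ S m) :
    ∀ j, 1 ≤ j → a^[j] ∈ S (j * m) := by
  intro j hj
  induction j, hj using Nat.le_induction with
  | base => simpa using ha
  | succ j hj ih =>
    rw [Function.iterate_succ', Nat.succ_mul, add_comm]
    exact hS.comp m (j * m) a ha _ ih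

theorem BranchSystem.iter_mapsK (hS : BranchSystem K S) {m : ℕ} {a : V → V} (ha : a ∈ S m)
    (j : ℕ) {x : V} (hx : x ∈ K) : a^[j] x ∈ K := by
  induction j with
  | zero => exact hx
  | succ j ih => rw [Function.iterate_succ_apply']; exact hS.mapsK ha ih

theorem BranchSystem.iter_contDiff (hS : BranchSystem K S) {m : ℕ} {a : V → V} (ha : a ∈ S m)
    (j : ℕ) {x : V} (hx : x ∈ K) : ContDiffAt ℝ 1 (a^[j]) x := by
  rcases Nat.eq_zero_or_pos j with rfl | hj
  · exact contDiffAt_id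
  · exact hS.contDiff _ _ (hS.iter_mem ha j hj) x hx

theorem BranchSystem.iter_shrink (hS : BranchSystem K S) {m : ℕ} {a : V → V} (ha : a ∈ S m)
    {ε : ℝ} (hε : 0 < ε) :
    ∃ N, ∀ j ≥ N, ∀ x ∈ K, ∀ y ∈ K, dist (a^[j] x) (a^[j] y) ≤ ε := by
  obtain ⟨N, hN⟩ := hS.shrink ε hε
  refine ⟨max N 1, fun j hj x hx y hy => ?_⟩
  have h1 : 1 ≤ j := le_trans (le_max_right _ _) hj
  have h2 : N ≤ j := le_trans (le_max_left _ _) hj
  apply hN (j * m) _ _ (hS.iter_mem ha j h1) x hx y hy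
  have := hS.pos m a ha
  nlinarith

/-- Existence of fixed points in closed invariant subsets of `K`. -/
theorem BranchSystem.exists_fixed (hS : BranchSystem K S) {m : ℕ} {h : V → V} (hh : h ∈ S m)
    {B : Set V} (hBK : B ⊆ K) (hB : IsClosed B) (hne : B.Nonempty) (hm : ∀ x ∈ B, h x ∈ B) :
    ∃ y ∈ B, h y = y := by
  obtain ⟨x, hx⟩ := hne
  have hiter : ∀ j, h^[j] x ∈ B := by
    intro j
    induction j with
    | zero => exact hx
    | succ j ih => rw [Function.iterate_succ_apply']; exact hm _ ih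
  have hcauchy : CauchySeq (fun j => h^[j] x) := by
    rw [Metric.cauchySeq_iff']
    intro ε hε
    obtain ⟨N, hN⟩ := hS.iter_shrink hh (half_pos hε)
    refine ⟨N, fun n hn => ?_⟩
    obtain ⟨k, rfl⟩ := Nat.exists_eq_add_of_le hn
    rw [Function.iterate_add_apply]
    have := hN N le_rfl _ (hBK (hiter k)) _ (hBK hx)
    linarith
  have hcomp : IsComplete B := (hS.compact.of_isClosed_subset hB hBK).isComplete
  obtain ⟨y, hy, hlim⟩ := cauchySeq_tendsto_of_isComplete hcomp hiter hcauchy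
  refine ⟨y, hy, ?_⟩
  have h1 : Tendsto (fun j => h (h^[j] x)) atTop (𝓝 (h y)) :=
    (hS.contAt hh (hBK hy)).tendsto.comp hlim
  have h2 : Tendsto (fun j => h (h^[j] x)) atTop (𝓝 y) := by
    have := (tendsto_add_atTop_iff_nat 1).2 hlim
    simpa only [Function.iterate_succ_apply'] using this
  exact tendsto_nhds_unique h1 h2

/-- Fixed points are unique. -/
theorem BranchSystem.fixed_unique (hS : BranchSystem K S) {m : ℕ} {h : V → V} (hh : h ∈ S m)
    {x y : V} (hx : x ∈ K) (hy : y ∈ K) (hfx : h x = x) (hfy : h y = y) : x = y := by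
  by_contra hne
  have hd : 0 < dist x y := dist_pos.2 hne
  obtain ⟨N, hN⟩ := hS.iter_shrink hh (half_pos hd)
  have := hN N le_rfl x hx y hy
  rw [Function.iterate_fixed hfx, Function.iterate_fixed hfy] at this
  linarith

end BS

section Core

variable {E F : Type*} [NormedAddCommGroup E] [NormedSpace ℝ E] [NormedAddCommGroup F]
  [NormedSpace ℝ F]

/-- The local set-up around a fixed point `w` of `a`. -/
structure Core (K : Set (E × F)) (S : ℕ → Set (E × F → E × F)) (a : E × F → E × F) (m₀ : ℕ)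
    (w : E × F) (A : E →L[ℝ] E) (D : F →L[ℝ] F) (α r : ℝ) : Prop where
  sys : BranchSystem K S
  ha : a ∈ S m₀
  fix : a w = w
  deriv : fderiv ℝ a w = blk A D
  dom : Dom A D α
  rpos : 0 < r
  ballK : closedBall w r ⊆ interior K
  dist_step : ∀ x ∈ closedBall w r, ∀ y ∈ closedBall w r,
    ApproxOrbit A D α (fun j => a^[j] y - a^[j] x)
  dstep : ∀ x ∈ closedBall w r, ∀ j, ‖fderiv ℝ a (a^[j] x) - blk A D‖ ≤ min α 1 / 100
  narrow_step : ∀ σ > 0, ∃ J, ∀ j ≥ J, ∀ x ∈ closedBall w r, ∀ y ∈ closedBall w r,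
    ‖(a^[j + 1] y - a^[j + 1] x) - blk A D (a^[j] y - a^[j] x)‖
      ≤ σ * (min α 1 / 100) * ‖a^[j] y - a^[j] x‖
  unif : ∀ ε > 0, ∃ J, ∀ j ≥ J, ∀ x ∈ closedBall w r, dist (a^[j] x) w ≤ ε

theorem exists_core {K : Set (E × F)} {S : ℕ → Set (E × F → E × F)} {a : E × F → E × F} {m₀ : ℕ}
    {w : E × F} {A : E →L[ℝ] E} {D : F →L[ℝ] F} {α : ℝ} (hS : BranchSystem K S) (ha : a ∈ S m₀)
    (hw : w ∈ K) (fix : a w = w) (deriv : fderiv ℝ a w = blk A D) (dom : Dom A D α) :
    ∃ r, Core K S a m₀ w A D α r := by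
  have hwint : w ∈ interior K := by
    have := hS.maps m₀ a ha w hw
    rwa [fix] at this
  have hμ := dom.minpos
  have hcd := hS.contDiff m₀ a ha w hw
  have hstrict : HasStrictFDerivAt a (blk A D) w := by
    rw [← deriv]
    exact hcd.hasStrictFDerivAt (by norm_num)
  -- local linear approximation of differences
  have hloc : ∀ e > 0, ∃ ρ > 0, ∀ x ∈ Metric.ball w ρ, ∀ y ∈ Metric.ball w ρ,
      ‖a y - a x - blk A D (y - x)‖ ≤ e * ‖y - x‖ := by
    intro e he
    have h1 := hstrict.isLittleO.def he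
    obtain ⟨ρ, hρ, h2⟩ := Metric.eventually_nhds_iff.1 h1
    refine ⟨ρ, hρ, fun x hx y hy => ?_⟩
    have := h2 (y := (y, x)) (by
      rw [Prod.dist_eq]
      exact max_lt hy hx)
    simpa using this
  have hcf : ContinuousAt (fderiv ℝ a) w := by
    have h1 : ContDiffAt ℝ 0 (fderiv ℝ a) w := hcd.fderiv_right (by norm_num)
    exact h1.continuousAt
  have hderiv : ∀ e > 0, ∃ ρ > 0, ∀ x ∈ Metric.ball w ρ, ‖fderiv ℝ a x - blk A D‖ ≤ e := by
    intro e he
    have h1 := Metric.continuousAt_iff.1 hcf e he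
    obtain ⟨ρ, hρ, h2⟩ := h1
    refine ⟨ρ, hρ, fun x hx => ?_⟩
    have := h2 hx
    rw [dist_eq_norm, deriv] at this
    exact this.le
  have hunif : ∀ ε > 0, ∃ J, ∀ j ≥ J, ∀ x ∈ K, dist (a^[j] x) w ≤ ε := by
    intro ε hε
    obtain ⟨J, hJ⟩ := hS.iter_shrink ha hε
    refine ⟨J, fun j hj x hx => ?_⟩
    have := hJ j hj x hx w hw
    rwa [Function.iterate_fixed fix] at this
  have hμ' : 0 < min α 1 / 100 := by positivity
  obtain ⟨ρ₀, hρ₀, hl⟩ := hloc _ hμ'
  obtain ⟨ρ₁, hρ₁, hd⟩ := hderiv _ hμ'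
  have hρ : 0 < min ρ₀ ρ₁ := lt_min hρ₀ hρ₁
  obtain ⟨J, hJ⟩ := hunif (min ρ₀ ρ₁ / 2) (by positivity)
  have hev : ∀ᶠ x in 𝓝 w, (∀ j ∈ Finset.range J, dist (a^[j] x) w < min ρ₀ ρ₁) ∧ x ∈ interior K := by
    refine Filter.Eventually.and ?_ (isOpen_interior.mem_nhds hwint)
    rw [Finset.eventually_all]
    intro j _
    have hc : ContinuousAt (a^[j]) w := (hS.iter_contDiff ha j hw).continuousAt
    have := Metric.continuousAt_iff'.1 hc _ hρ
    rwa [Function.iterate_fixed fix] at this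
  obtain ⟨r, hr, hball⟩ := Metric.nhds_basis_closedBall.eventually_iff.1 hev
  have hin : ∀ x ∈ closedBall w r, ∀ j, a^[j] x ∈ Metric.ball w (min ρ₀ ρ₁) := by
    intro x hx j
    rcases lt_or_ge j J with hj | hj
    · exact (hball hx).1 j (Finset.mem_range.2 hj)
    · have := hJ j hj x (interior_subset (hball hx).2)
      rw [Metric.mem_ball]
      linarith
  refine ⟨r, hS, ha, fix, deriv, dom, hr, fun x hx => (hball hx).2, ?_, ?_, ?_, ?_⟩
  · intro x hx y hy j
    have h1 := hl _ (Metric.ball_subset_ball (min_le_left _ _) (hin x hx j)) _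
      (Metric.ball_subset_ball (min_le_left _ _) (hin y hy j))
    simpa only [Function.iterate_succ_apply'] using h1
  · intro x hx j
    exact hd _ (Metric.ball_subset_ball (min_le_right _ _) (hin x hx j))
  · intro σ hσ
    obtain ⟨ρ₂, hρ₂, hl₂⟩ := hloc (σ * (min α 1 / 100)) (by positivity)
    obtain ⟨J₂, hJ₂⟩ := hunif (ρ₂ / 2) (by positivity)
    refine ⟨J₂, fun j hj x hx y hy => ?_⟩
    have h1 : ∀ z ∈ closedBall w r, a^[j] z ∈ Metric.ball w ρ₂ := by
      intro z hz
      have := hJ₂ j hj z (interior_subset (hball hz).2)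
      rw [Metric.mem_ball]
      linarith
    have h2 := hl₂ _ (h1 x hx) _ (h1 y hy)
    simpa only [Function.iterate_succ_apply'] using h2
  · intro ε hε
    obtain ⟨J₂, hJ₂⟩ := hunif ε hε
    exact ⟨J₂, fun j hj x hx => hJ₂ j hj x (interior_subset (hball hx).2)⟩

end Core

end Pool.Agent.Work.MP_429976_an
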