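import Pool.Agent.Work.MP_429976_an.Sep

/-!
The transversality lemma.
-/

namespace Pool.Agent.Work.MP_429976_an

open Filter Topology Set Metric Module

section Form

variable {V : Type*} [NormedAddCommGroup V] [NormedSpace ℝ V] {c : ℕ}

/-- The form `det (Q v₁, …, Q v_c)`. -/
noncomputable def form (Q : V →L[ℝ] (Fin c → ℝ)) : MultilinearMap ℝ (fun _ : Fin c => V) ℝ :=
  ((Matrix.detRowAlternating : (Fin c → ℝ) [⋀^Fin c]→ₗ[ℝ] ℝ) :
    MultilinearMap ℝ (fun _ : Fin c => (Fin c → ℝ)) ℝ).compLinearMap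
    (fun _ => (Q : V →ₗ[ℝ] (Fin c → ℝ)))

theorem form_apply (Q : V →L[ℝ] (Fin c → ℝ)) (v : Fin c → V) :
    form Q v = Matrix.det (fun i => Q (v i)) := rfl

/-- Pull back of multilinear forms by a linear map. -/
noncomputable def pull (N : V →L[ℝ] V) :
    MultilinearMap ℝ (fun _ : Fin c => V) ℝ →ₗ[ℝ] MultilinearMap ℝ (fun _ : Fin c => V) ℝ where
  toFun f := f.compLinearMap (fun _ => (N : V →ₗ[ℝ] V))
  map_add' f g := by ext v; rfl
  map_smul' t f := by ext v; rfl

theorem pull_form (N : V →L[ℝ] V) (Q : V →L[ℝ] (Fin c → ℝ)) :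
    pull N (form Q) = form (Q.comp N) := by ext v; rfl

theorem pull_injective {N : V →L[ℝ] V} (hN : Function.Surjective N) :
    Function.Injective (pull (c := c) N) := by
  intro f g hfg
  ext v
  choose u hu using fun i => hN (v i)
  have := congrArg (fun F => F u) hfg
  have h1 : f (fun i => N (u i)) = g (fun i => N (u i)) := this
  simpa only [hu] using h1

variable {ι : Type*}

/-- Evaluation of a multilinear form on tuples of basis vectors. -/
noncomputable def evb (b : Basis ι ℝ V) :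
    MultilinearMap ℝ (fun _ : Fin c => V) ℝ →ₗ[ℝ] ((Fin c → ι) → ℝ) where
  toFun f := fun J => f (fun k => b (J k))
  map_add' f g := by ext v; rfl
  map_smul' t f := by ext v; rfl

theorem evb_injective (b : Basis ι ℝ V) : Function.Injective (evb (c := c) b) := by
  intro f g hfg
  apply Basis.ext_multilinear (fun _ => b)
  intro v
  exact congrFun hfg v

theorem evb_form_tendsto [Finite ι] (b : Basis ι ℝ V) {β : Type*} {l : Filter β}
    {Q : β → (V →L[ℝ] (Fin c → ℝ))} {Q₀ : V →L[ℝ] (Fin c → ℝ)} (h : Tendsto Q l (𝓝 Q₀)) :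
    Tendsto (fun x => evb b (form (Q x))) l (𝓝 (evb b (form Q₀))) := by
  rw [tendsto_pi_nhds]
  intro J
  have hc : Continuous (fun Q : V →L[ℝ] (Fin c → ℝ) =>
      Matrix.det (fun i => Q (b (J i)) : Matrix (Fin c) (Fin c) ℝ)) := by
    apply Continuous.matrix_det
    apply continuous_matrix
    intro i j
    exact (continuous_apply j).comp (ContinuousLinearMap.apply ℝ (Fin c → ℝ) (b (J i))).continuous
  exact (hc.tendsto Q₀).comp h

end Form

/-- The limiting argument: linear dependence passes to the limit. -/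
theorem not_linearIndependent_of_tendsto {V : Type*} [NormedAddCommGroup V] [NormedSpace ℝ V]
    [FiniteDimensional ℝ V] {c n : ℕ}
    {f : ℕ → Fin n → MultilinearMap ℝ (fun _ : Fin c => V) ℝ}
    {g : Fin n → MultilinearMap ℝ (fun _ : Fin c => V) ℝ}
    (b : Basis (Fin (finrank ℝ V)) ℝ V)
    (hlim : ∀ i, Tendsto (fun k => evb b (f k i)) atTop (𝓝 (evb b (g i))))
    (hf : ∀ᶠ k in atTop, ¬ LinearIndependent ℝ (f k)) : ¬ LinearIndependent ℝ g := by
  intro hg
  have h1 : LinearIndependent ℝ (evb b ∘ g) := hg.map' _ (LinearMap.ker_eq_bot.2 (evb_injective b))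
  have hopen : IsOpen {v : Fin n → ((Fin c → Fin (finrank ℝ V)) → ℝ) | LinearIndependent ℝ v} :=
    isOpen_setOfPred_linearIndependent
  have h2 : Tendsto (fun k => evb b ∘ f k) atTop (𝓝 (evb b ∘ g)) := by
    rw [tendsto_pi_nhds]
    exact hlim
  have h3 := h2.eventually_mem (hopen.mem_nhds h1)
  obtain ⟨k, hk1, hk2⟩ := (h3.and hf).exists
  apply hk2
  exact LinearIndependent.of_comp (evb b) hk1

section Main

variable {F : Type*} [NormedAddCommGroup F] [NormedSpace ℝ F] [FiniteDimensional ℝ F] {c : ℕ}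
  {K : Set ((Fin c → ℝ) × F)} {S : ℕ → Set ((Fin c → ℝ) × F → (Fin c → ℝ) × F)}
  {a : (Fin c → ℝ) × F → (Fin c → ℝ) × F} {m₀ : ℕ}
  {w : (Fin c → ℝ) × F} {A : (Fin c → ℝ) →L[ℝ] (Fin c → ℝ)} {D : F →L[ℝ] F} {α r : ℝ}

theorem Core.exists_transversal (h : Core K S a m₀ w A D α r) [Nontrivial (Fin c → ℝ)]
    {P : (Fin c → ℝ) × F → ((Fin c → ℝ) × F →L[ℝ] (Fin c → ℝ))}
    (hPc : ContinuousOn P (closedBall w r)) (hPw : ∀ u : Fin c → ℝ, P w (u, 0) = u) :
    ∃ m, ∃ g ∈ S m, MapsTo g (closedBall w r) (Metric.ball w r) ∧ Sep a w (g w) ∧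
      ∀ u : Fin c → ℝ, P (g w) (fderiv ℝ g w (u, 0)) = 0 → u = 0 := by
  classical
  -- good branches
  let Good : ((Fin c → ℝ) × F → (Fin c → ℝ) × F) → Prop := fun g =>
    (∃ m, g ∈ S m) ∧ MapsTo g (closedBall w r) (Metric.ball w r) ∧ Sep a w (g w)
  let al : ((Fin c → ℝ) × F → (Fin c → ℝ) × F) →
      MultilinearMap ℝ (fun _ : Fin c => (Fin c → ℝ) × F) ℝ := fun g =>
    form ((P (g w)).comp (fderiv ℝ g w))
  let b := Module.finBasis ℝ ((Fin c → ℝ) × F)
  have hwB : w ∈ closedBall w r := h.w_mem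
  -- sequence
  have hseq : ∀ k : ℕ, ∃ g, Good g ∧ dist (g w) w < 1 / ((k : ℝ) + 1) := by
    intro k
    obtain ⟨m, g, hg, h1, h2, h3⟩ := h.exists_good (ε := 1 / ((k : ℝ) + 1)) (by positivity)
    exact ⟨g, ⟨⟨m, hg⟩, h1, h2⟩, h3⟩
  choose hk hkG hkd using hseq
  have hklim : Tendsto (fun k => hk k w) atTop (𝓝 w) := by
    rw [tendsto_iff_dist_tendsto_zero]
    refine squeeze_zero (fun _ => dist_nonneg) (fun k => (hkd k).le) ?_
    exact tendsto_one_div_add_atTop_nhds_zero_nat
  -- maximal independent family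
  let Pm : ℕ → Prop := fun m => ∃ H : Fin m → ((Fin c → ℝ) × F → (Fin c → ℝ) × F),
    (∀ i, Good (H i)) ∧ LinearIndependent ℝ (fun i => al (H i))
  have hP0 : Pm 0 := ⟨fun i => i.elim0, fun i => i.elim0, linearIndependent_empty_type⟩
  have hbound : ∃ m, ¬ Pm m := by
    by_contra hcon
    push Not at hcon
    obtain ⟨H, _, hH⟩ := hcon (finrank ℝ ((Fin c → Fin (finrank ℝ ((Fin c → ℝ) × F))) → ℝ) + 1)
    have h1 := hH.map' (evb b) (LinearMap.ker_eq_bot.2 (evb_injective b))
    have h2 := h1.fintype_card_le_finrank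
    simp only [Fintype.card_fin] at h2
    omega
  obtain ⟨m, hm, hm'⟩ : ∃ m, Pm m ∧ ¬ Pm (m + 1) := by
    have h1 := Nat.find_spec hbound
    have h2 : Nat.find hbound ≠ 0 := fun h0 => by rw [h0] at h1; exact h1 hP0
    obtain ⟨m, hm⟩ := Nat.exists_eq_succ_of_ne_zero h2
    refine ⟨m, ?_, by rw [hm] at h1; exact h1⟩
    have := Nat.find_min hbound (m := m) (by omega)
    simpa using this
  obtain ⟨H, hHG, hHI⟩ := hm
  -- the dependent families
  let f : ℕ → Fin (m + 1) → MultilinearMap ℝ (fun _ : Fin c => (Fin c → ℝ) × F) ℝ := fun k =>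
    Fin.cons (form (P (hk k w)))
      (fun i => form ((P (H i (hk k w))).comp (fderiv ℝ (H i) (hk k w))))
  let g : Fin (m + 1) → MultilinearMap ℝ (fun _ : Fin c => (Fin c → ℝ) × F) ℝ :=
    Fin.cons (form (P w)) (fun i => al (H i))
  have hkB : ∀ k, hk k w ∈ closedBall w r := fun k => ball_subset_closedBall ((hkG k).2.1 hwB)
  have hHcont : ∀ i, Tendsto (fun k => H i (hk k w)) atTop (𝓝 (H i w)) := by
    intro i
    obtain ⟨mi, hmi⟩ := (hHG i).1
    exact (h.sys.contAt hmi (h.memK hwB)).tendsto.comp hklim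
  have hHB : ∀ i, H i w ∈ closedBall w r := fun i => ball_subset_closedBall ((hHG i).2.1 hwB)
  have hHkB : ∀ i k, H i (hk k w) ∈ closedBall w r := fun i k =>
    ball_subset_closedBall ((hHG i).2.1 (hkB k))
  have hPlim : ∀ (x : (Fin c → ℝ) × F) (xs : ℕ → (Fin c → ℝ) × F), x ∈ closedBall w r →
      (∀ k, xs k ∈ closedBall w r) → Tendsto xs atTop (𝓝 x) →
      Tendsto (fun k => P (xs k)) atTop (𝓝 (P x)) := by
    intro x xs hx hxs hlim
    have h1 : Tendsto xs atTop (𝓝[closedBall w r] x) :=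
      tendsto_nhdsWithin_iff.2 ⟨hlim, Eventually.of_forall hxs⟩
    exact (hPc x hx).tendsto.comp h1
  have hdep : ∀ᶠ k in atTop, ¬ LinearIndependent ℝ (f k) := by
    have hsepev : ∀ i, ∀ᶠ k in atTop, Sep a w (H i (hk k w)) := by
      intro i
      exact (hHcont i).eventually (h.sep_open (h.memK (hHB i)) (hHG i).2.2)
    filter_upwards [eventually_all.2 hsepev] with k hk1 hind
    apply hm'
    obtain ⟨mk, hmk⟩ := (hkG k).1
    refine ⟨Fin.cons (hk k) (fun i => H i ∘ hk k), ?_, ?_⟩
    · intro i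
      refine Fin.cases ?_ (fun i => ?_) i
      · exact hkG k
      · simp only [Fin.cons_succ]
        obtain ⟨mi, hmi⟩ := (hHG i).1
        refine ⟨⟨mi + mk, h.sys.comp _ _ _ hmi _ hmk⟩, ?_, hk1 i⟩
        intro z hz
        exact (hHG i).2.1 (ball_subset_closedBall ((hkG k).2.1 hz))
    · have hN : Function.Surjective (fderiv ℝ (hk k) w) := by
        have h1 := h.sys.deriv_inj mk _ hmk w (h.memK hwB)
        exact (LinearMap.injective_iff_surjective
          (f := (fderiv ℝ (hk k) w : ((Fin c → ℝ) × F) →ₗ[ℝ] ((Fin c → ℝ) × F)))).1 h1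
      have h2 := hind.map' (pull (fderiv ℝ (hk k) w)) (LinearMap.ker_eq_bot.2 (pull_injective hN))
      have hfun : (fun i => al ((Fin.cons (hk k) (fun i => H i ∘ hk k) :
          Fin (m + 1) → ((Fin c → ℝ) × F → (Fin c → ℝ) × F)) i))
          = (pull (fderiv ℝ (hk k) w)) ∘ f k := by
        funext i
        refine Fin.cases ?_ (fun i => ?_) i
        · simp only [Fin.cons_zero, Function.comp_apply, f, al, pull_form]
        simp only [Fin.cons_succ, Function.comp_apply, f, al, pull_form]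
        obtain ⟨mi, hmi⟩ := (hHG i).1
        have h3 : fderiv ℝ (H i ∘ hk k) w
            = (fderiv ℝ (H i) (hk k w)).comp (fderiv ℝ (hk k) w) := by
          apply fderiv_comp
          · exact (h.sys.contDiff _ _ hmi _ (h.memK (hkB k))).differentiableAt (by norm_num)
          · exact (h.sys.contDiff _ _ hmk _ (h.memK hwB)).differentiableAt (by norm_num)
        rw [h3]
        rfl
      rw [hfun]
      exact h2
  have hlim : ∀ i, Tendsto (fun k => evb b (f k i)) atTop (𝓝 (evb b (g i))) := by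
    intro i
    refine Fin.cases ?_ (fun i => ?_) i
    · simp only [f, g, Fin.cons_zero]
      exact evb_form_tendsto b (hPlim w _ hwB hkB hklim)
    · simp only [f, g, Fin.cons_succ]
      apply evb_form_tendsto b
      obtain ⟨mi, hmi⟩ := (hHG i).1
      have h1 : Tendsto (fun k => fderiv ℝ (H i) (hk k w)) atTop (𝓝 (fderiv ℝ (H i) w)) :=
        (continuousAt_fderiv_of_contDiffAt (h.sys.contDiff _ _ hmi _ (h.memK hwB))).tendsto.comp
          hklim
      have hcomp : Continuous (fun p : ((Fin c → ℝ) × F →L[ℝ] (Fin c → ℝ)) ×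
          ((Fin c → ℝ) × F →L[ℝ] (Fin c → ℝ) × F) => p.1.comp p.2) :=
        continuous_fst.clm_comp continuous_snd
      have h2 : Tendsto (fun k => P (H i (hk k w))) atTop (𝓝 (P (H i w))) :=
        hPlim _ _ (hHB i) (hHkB i) (hHcont i)
      exact (hcomp.tendsto (P (H i w), fderiv ℝ (H i) w)).comp (h2.prodMk_nhds h1)
  have hng := not_linearIndependent_of_tendsto b hlim hdep
  have hmem : form (P w) ∈ Submodule.span ℝ (Set.range (fun i => al (H i))) := by
    by_contra hcon
    exact hng (linearIndependent_finCons.2 ⟨hHI, hcon⟩)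
  -- evaluation on the standard basis of E
  let e : Fin c → (Fin c → ℝ) × F := fun i => (Pi.single i 1, 0)
  have hex : ∃ i, al (H i) e ≠ 0 := by
    by_contra hcon
    push Not at hcon
    have h1 : ∀ x ∈ Submodule.span ℝ (Set.range (fun i => al (H i))), x e = 0 := by
      intro x hx
      induction hx using Submodule.span_induction with
      | mem x hx => obtain ⟨i, rfl⟩ := hx; exact hcon i
      | zero => rfl
      | add x y _ _ hx hy => rw [add_apply, hx, hy, add_zero]
      | smul t x _ hx => rw [smul_apply, hx, smul_zero]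
    have h2 := h1 _ hmem
    rw [form_apply] at h2
    have h3 : (fun i => P w (e i)) = (1 : Matrix (Fin c) (Fin c) ℝ) := by
      funext i
      rw [hPw]
      funext j
      rw [Matrix.one_apply, Pi.single_apply]
      simp [eq_comm]
    rw [h3, Matrix.det_one] at h2
    exact one_ne_zero h2
  obtain ⟨i, hi⟩ := hex
  obtain ⟨mi, hmi⟩ := (hHG i).1
  refine ⟨mi, H i, hmi, (hHG i).2.1, (hHG i).2.2, ?_⟩
  intro u hu
  by_contra hne
  apply hi
  show form ((P (H i w)).comp (fderiv ℝ (H i) w)) e = 0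
  rw [form_apply]
  apply Matrix.exists_vecMul_eq_zero_iff.1
  refine ⟨u, hne, ?_⟩
  have h1 : ((u, 0) : (Fin c → ℝ) × F) = ∑ k, u k • e k := by
    ext1
    · rw [Prod.fst_sum]
      ext j
      simp [e, Finset.sum_apply, Pi.single_apply]
    · rw [Prod.snd_sum]
      simp [e]
  rw [h1] at hu
  simp only [map_sum, map_smul] at hu
  funext j
  have h2 := congrFun hu j
  simp only [Finset.sum_apply, Pi.smul_apply, smul_eq_mul] at h2
  simpa [Matrix.vecMul, dotProduct] using h2

end Main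

end Pool.Agent.Work.MP_429976_an
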