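import Pool.Agent.Work.MP_429976_an.Letters
import Pool.Agent.Work.MP_429976_an.LA

/-!
Words in the two letters.
-/

namespace Pool.Agent.Work.MP_429976_an

open Filter Topology Set Metric Module

/-- The composition of the letters of a word. -/
def wd {V : Type*} (T : Bool → V → V) : List Bool → V → V
  | [] => id
  | b :: s => T b ∘ wd T s

@[simp] theorem wd_nil {V : Type*} (T : Bool → V → V) : wd T [] = id := rfl
theorem wd_cons {V : Type*} (T : Bool → V → V) (b : Bool) (s : List Bool) :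
    wd T (b :: s) = T b ∘ wd T s := rfl

section General

variable {E F : Type*} [NormedAddCommGroup E] [NormedSpace ℝ E] [NormedAddCommGroup F]
  [NormedSpace ℝ F]
  {K : Set (E × F)} {S : ℕ → Set (E × F → E × F)}
  {w : E × F} {r σ : ℝ} {T : Bool → (E × F → E × F)}

namespace Letters

theorem wd_maps (hT : Letters S w r σ T) (s : List Bool) :
    MapsTo (wd T s) (closedBall w r) (closedBall w r) := by
  induction s with
  | nil => exact fun x hx => hx
  | cons b s ih => exact fun x hx => ball_subset_closedBall (hT.maps b (ih hx))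

theorem wd_mem (hS : BranchSystem K S) (hT : Letters S w r σ T) (s : List Bool) (hs : s ≠ []) :
    ∃ m, wd T s ∈ S m ∧ s.length ≤ m := by
  induction s with
  | nil => exact absurd rfl hs
  | cons b s ih =>
    obtain ⟨m₁, hm₁⟩ := hT.mem b
    rcases eq_or_ne s [] with rfl | hne
    · exact ⟨m₁, hm₁, by simpa using hS.pos _ _ hm₁⟩
    · obtain ⟨m, hm, hl⟩ := ih hne
      refine ⟨m₁ + m, hS.comp _ _ _ hm₁ _ hm, ?_⟩
      have := hS.pos _ _ hm₁
      simp only [List.length_cons]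
      omega

theorem wd_shrink (hS : BranchSystem K S) (hT : Letters S w r σ T)
    (hK : closedBall w r ⊆ K) {ε : ℝ} (hε : 0 < ε) :
    ∃ N, ∀ s : List Bool, N ≤ s.length → ∀ x ∈ closedBall w r, ∀ y ∈ closedBall w r,
      dist (wd T s x) (wd T s y) ≤ ε := by
  obtain ⟨N, hN⟩ := hS.shrink ε hε
  refine ⟨max N 1, fun s hs x hx y hy => ?_⟩
  have hne : s ≠ [] := by
    rintro rfl
    simp at hs
  obtain ⟨m, hm, hl⟩ := hT.wd_mem hS s hne
  exact hN m (le_trans (le_trans (le_max_left _ _) hs) hl) _ hm x (hK hx) y (hK hy)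

theorem wd_injOn (hS : BranchSystem K S) (hT : Letters S w r σ T)
    (hK : closedBall w r ⊆ K) (s : List Bool) : InjOn (wd T s) (closedBall w r) := by
  induction s with
  | nil => exact Function.injective_id.injOn
  | cons b s ih =>
    obtain ⟨m₁, hm₁⟩ := hT.mem b
    intro x hx y hy hxy
    exact ih hx hy (hS.inj _ _ hm₁ (hK (hT.wd_maps s hx)) (hK (hT.wd_maps s hy)) hxy)

theorem wd_contDiff (hS : BranchSystem K S) (hT : Letters S w r σ T)
    (hK : closedBall w r ⊆ K) (s : List Bool) {x : E × F} (hx : x ∈ closedBall w r) :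
    ContDiffAt ℝ 1 (wd T s) x := by
  induction s with
  | nil => exact contDiffAt_id
  | cons b s ih =>
    obtain ⟨m₁, hm₁⟩ := hT.mem b
    exact ContDiffAt.comp x (hS.contDiff _ _ hm₁ _ (hK (hT.wd_maps s hx))) ih

theorem wd_fderiv (hS : BranchSystem K S) (hT : Letters S w r σ T)
    (hK : closedBall w r ⊆ K) (b : Bool) (s : List Bool) {x : E × F} (hx : x ∈ closedBall w r) :
    fderiv ℝ (wd T (b :: s)) x = (fderiv ℝ (T b) (wd T s x)).comp (fderiv ℝ (wd T s) x) := by
  obtain ⟨m₁, hm₁⟩ := hT.mem b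
  apply fderiv_comp
  · exact (hS.contDiff _ _ hm₁ _ (hK (hT.wd_maps s hx))).differentiableAt (by norm_num)
  · exact (hT.wd_contDiff hS hK s hx).differentiableAt (by norm_num)

theorem wd_hor (hT : Letters S w r σ T) (hσ : σ ≤ 1) (s : List Bool) {x y : E × F}
    (hx : x ∈ closedBall w r) (hy : y ∈ closedBall w r) (hxy : ‖(y - x).2‖ ≤ ‖(y - x).1‖) :
    ‖(wd T s y - wd T s x).2‖ ≤ ‖(wd T s y - wd T s x).1‖ := by
  induction s with
  | nil => exact hxy
  | cons b s ih =>
    refine (hT.cone b _ (hT.wd_maps s hx) _ (hT.wd_maps s hy) ih).trans ?_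
    have : 0 ≤ ‖(wd T (b :: s) y - wd T (b :: s) x).1‖ := norm_nonneg _
    show σ * ‖(wd T (b :: s) y - wd T (b :: s) x).1‖ ≤ _
    nlinarith

/-- Images of different words of the same length are horizontally separated. -/
theorem wd_sep (hS : BranchSystem K S) (hT : Letters S w r σ T) (hσ : σ ≤ 1)
    (hK : closedBall w r ⊆ K) :
    ∀ s s' : List Bool, s.length = s'.length → s ≠ s' → ∀ x ∈ closedBall w r,
      ∀ y ∈ closedBall w r, ‖(wd T s' y - wd T s x).2‖ ≤ ‖(wd T s' y - wd T s x).1‖ ∧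
        wd T s' y ≠ wd T s x := by
  intro s
  induction s with
  | nil =>
    intro s' hl hne
    exact absurd (List.length_eq_zero_iff.1 hl.symm).symm hne
  | cons b s ih =>
    intro s' hl hne x hx y hy
    cases s' with
    | nil => simp at hl
    | cons b' s' =>
      by_cases hb : b = b'
      · subst hb
        have hne' : s ≠ s' := fun h => hne (by rw [h])
        have hl' : s.length = s'.length := by simpa using hl
        obtain ⟨h1, h2⟩ := ih s' hl' hne' x hx y hy
        refine ⟨?_, ?_⟩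
        · refine (hT.cone b _ (hT.wd_maps s hx) _ (hT.wd_maps s' hy) h1).trans ?_
          have : 0 ≤ ‖(T b (wd T s' y) - T b (wd T s x)).1‖ := norm_nonneg _
          show σ * ‖(T b (wd T s' y) - T b (wd T s x)).1‖ ≤
            ‖(T b (wd T s' y) - T b (wd T s x)).1‖
          nlinarith
        · intro heq
          obtain ⟨m₁, hm₁⟩ := hT.mem b
          exact h2 (hS.inj _ _ hm₁ (hK (hT.wd_maps s' hy)) (hK (hT.wd_maps s hx)) heq)
      · have h1 := hT.wd_maps s hx
        have h2 := hT.wd_maps s' hy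
        cases b
        · cases b'
          · exact absurd rfl hb
          · have h3 := hT.sep _ h1 _ h2
            refine ⟨h3.le, ?_⟩
            intro heq
            have h4 : T true (wd T s' y) = T false (wd T s x) := heq
            rw [h4] at h3
            simp at h3
        · cases b'
          · have h3 := hT.sep _ h2 _ h1
            have h5 : wd T (false :: s') y - wd T (true :: s) x
                = -(T true (wd T s x) - T false (wd T s' y)) := by
              rw [neg_sub]; rfl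
            rw [h5, Prod.fst_neg, Prod.snd_neg, norm_neg, norm_neg]
            refine ⟨h3.le, ?_⟩
            intro heq
            have h4 : T false (wd T s' y) = T true (wd T s x) := heq
            rw [h4] at h3
            simp at h3
          · exact absurd rfl hb

/-- The derivative of a letter preserves the cone. -/
theorem deriv_cone (hS : BranchSystem K S) (hT : Letters S w r σ T) (hr : 0 < r)
    (hK : closedBall w r ⊆ K) (b : Bool) {x : E × F} (hx : x ∈ closedBall w r) {ζ : E × F}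
    (hζ : ‖ζ.2‖ ≤ ‖ζ.1‖) :
    ‖(fderiv ℝ (T b) x ζ).2‖ ≤ σ * ‖(fderiv ℝ (T b) x ζ).1‖ := by
  obtain ⟨m₁, hm₁⟩ := hT.mem b
  have hopen : ∀ x ∈ Metric.ball w r,
      ‖(fderiv ℝ (T b) x ζ).2‖ ≤ σ * ‖(fderiv ℝ (T b) x ζ).1‖ := by
    intro x hx
    have hxB := ball_subset_closedBall hx
    have hd : DifferentiableAt ℝ (T b) x :=
      (hS.contDiff _ _ hm₁ _ (hK hxB)).differentiableAt (by norm_num)
    have h1 : HasDerivAt (fun t : ℝ => T b (x + t • ζ)) (fderiv ℝ (T b) x ζ) 0 := by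
      have h2 : HasDerivAt (fun t : ℝ => x + t • ζ) ζ 0 := by
        have := ((hasDerivAt_id (0 : ℝ)).smul_const ζ).const_add x
        simpa using this
      have h3 : HasFDerivAt (T b) (fderiv ℝ (T b) x) (x + (0 : ℝ) • ζ) := by
        rw [zero_smul, add_zero]; exact hd.hasFDerivAt
      exact h3.comp_hasDerivAt (0 : ℝ) h2
    have h4 := h1.tendsto_slope_zero
    simp only [zero_add, zero_smul, add_zero] at h4
    have hmem : ∀ᶠ t : ℝ in 𝓝[≠] 0, x + t • ζ ∈ Metric.ball w r := by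
      have hc : Continuous (fun t : ℝ => x + t • ζ) := by fun_prop
      have h5 := hc.tendsto 0
      rw [zero_smul, add_zero] at h5
      exact (h5.mono_left nhdsWithin_le_nhds).eventually_mem (isOpen_ball.mem_nhds hx)
    have h6 : Tendsto (fun t : ℝ => ‖(t⁻¹ • (T b (x + t • ζ) - T b x)).2‖) (𝓝[≠] 0)
        (𝓝 ‖(fderiv ℝ (T b) x ζ).2‖) :=
      ((continuous_snd.tendsto _).comp h4).norm
    have h7 : Tendsto (fun t : ℝ => σ * ‖(t⁻¹ • (T b (x + t • ζ) - T b x)).1‖) (𝓝[≠] 0)
        (𝓝 (σ * ‖(fderiv ℝ (T b) x ζ).1‖)) :=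
      (((continuous_fst.tendsto _).comp h4).norm).const_mul σ
    apply le_of_tendsto_of_tendsto h6 h7
    filter_upwards [hmem] with t ht
    have h8 := hT.cone b x hxB _ (ball_subset_closedBall ht) (by
      rw [add_sub_cancel_left, Prod.smul_fst, Prod.smul_snd, norm_smul, norm_smul]
      exact mul_le_mul_of_nonneg_left hζ (norm_nonneg _))
    rw [Prod.smul_fst, Prod.smul_snd, norm_smul, norm_smul]
    calc ‖t⁻¹‖ * ‖(T b (x + t • ζ) - T b x).2‖
        ≤ ‖t⁻¹‖ * (σ * ‖(T b (x + t • ζ) - T b x).1‖) :=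
          mul_le_mul_of_nonneg_left h8 (norm_nonneg _)
      _ = σ * (‖t⁻¹‖ * ‖(T b (x + t • ζ) - T b x).1‖) := by ring
  have hcl : x ∈ closure (Metric.ball w r) := by
    rw [closure_ball w hr.ne']; exact hx
  obtain ⟨xs, hxs, hlim⟩ := mem_closure_iff_seq_limit.1 hcl
  have h1 : Tendsto (fun n => fderiv ℝ (T b) (xs n) ζ) atTop (𝓝 (fderiv ℝ (T b) x ζ)) := by
    have h2 := (continuousAt_fderiv_of_contDiffAt (hS.contDiff _ _ hm₁ _ (hK hx))).tendsto.comp
      hlim
    exact ((ContinuousLinearMap.apply ℝ (E × F) ζ).continuous.tendsto _).comp h2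
  exact le_of_tendsto_of_tendsto' ((continuous_snd.tendsto _).comp h1).norm
    ((((continuous_fst.tendsto _).comp h1).norm).const_mul σ) (fun n => hopen _ (hxs n))

theorem deriv_ne (hS : BranchSystem K S) (hT : Letters S w r σ T) (hr : 0 < r)
    (hK : closedBall w r ⊆ K) (b : Bool) {x : E × F} (hx : x ∈ closedBall w r) {ζ : E × F}
    (hζ : ‖ζ.2‖ ≤ ‖ζ.1‖) (h0 : (fderiv ℝ (T b) x ζ).1 = 0) : ζ = 0 := by
  obtain ⟨m₁, hm₁⟩ := hT.mem b
  have h1 := hT.deriv_cone hS hr hK b hx hζ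
  rw [h0, norm_zero, mul_zero] at h1
  have h2 : fderiv ℝ (T b) x ζ = 0 := by
    ext1
    · exact h0
    · exact norm_le_zero_iff.1 h1
  have h3 := hS.deriv_inj _ _ hm₁ x (hK hx)
  apply h3
  rw [h2, map_zero]

/-- The derivative of a word preserves the cone. -/
theorem wd_cone (hS : BranchSystem K S) (hT : Letters S w r σ T) (hr : 0 < r)
    (hK : closedBall w r ⊆ K) (hσ0 : 0 ≤ σ) (hσ : σ < 1) (s : List Bool) {x : E × F}
    (hx : x ∈ closedBall w r) {ζ : E × F} (hζ : ‖ζ.2‖ ≤ σ * ‖ζ.1‖) :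
    ‖(fderiv ℝ (wd T s) x ζ).2‖ ≤ σ * ‖(fderiv ℝ (wd T s) x ζ).1‖ := by
  induction s with
  | nil => rw [wd_nil, fderiv_id]; exact hζ
  | cons b s ih =>
    rw [hT.wd_fderiv hS hK b s hx]
    apply hT.deriv_cone hS hr hK b (hT.wd_maps s hx)
    refine ih.trans ?_
    have h1 : 0 ≤ ‖(fderiv ℝ (wd T s) x ζ).1‖ := norm_nonneg _
    calc σ * ‖(fderiv ℝ (wd T s) x ζ).1‖ ≤ 1 * ‖(fderiv ℝ (wd T s) x ζ).1‖ :=
          mul_le_mul_of_nonneg_right hσ.le h1
      _ = _ := one_mul _

/-- Strictly horizontal vectors stay strictly horizontal. -/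
theorem letter_strict (hS : BranchSystem K S) (hT : Letters S w r σ T) (hr : 0 < r)
    (hK : closedBall w r ⊆ K) (hσ : σ < 1) (b : Bool) {x : E × F}
    (hx : x ∈ closedBall w r) {ζ : E × F} (hζ : ‖ζ.2‖ < ‖ζ.1‖) :
    ‖(fderiv ℝ (T b) x ζ).2‖ < ‖(fderiv ℝ (T b) x ζ).1‖ := by
  have h1 := hT.deriv_cone hS hr hK b hx hζ.le
  have h2 : (fderiv ℝ (T b) x ζ).1 ≠ 0 := by
    intro h0
    have := hT.deriv_ne hS hr hK b hx hζ.le h0
    rw [this] at hζ
    simp at hζ
  have h3 : 0 < ‖(fderiv ℝ (T b) x ζ).1‖ := norm_pos_iff.2 h2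
  nlinarith

theorem wd_strict (hS : BranchSystem K S) (hT : Letters S w r σ T) (hr : 0 < r)
    (hK : closedBall w r ⊆ K) (hσ : σ < 1) (s : List Bool) {x : E × F}
    (hx : x ∈ closedBall w r) {ζ : E × F} (hζ : ‖ζ.2‖ < ‖ζ.1‖) :
    ‖(fderiv ℝ (wd T s) x ζ).2‖ < ‖(fderiv ℝ (wd T s) x ζ).1‖ := by
  induction s with
  | nil => rw [wd_nil, fderiv_id]; exact hζ
  | cons b s ih =>
    rw [hT.wd_fderiv hS hK b s hx]
    exact hT.letter_strict hS hr hK hσ b (hT.wd_maps s hx) ih

/-- Vectors whose image by a word is vertical are contracted. -/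
theorem wd_contr (hS : BranchSystem K S) (hT : Letters S w r σ T) (hr : 0 < r)
    (hK : closedBall w r ⊆ K) (hσ : σ < 1) (s : List Bool) {x : E × F}
    (hx : x ∈ closedBall w r) {ζ : E × F}
    (hζ : ‖(fderiv ℝ (wd T s) x ζ).1‖ ≤ ‖(fderiv ℝ (wd T s) x ζ).2‖) :
    ‖fderiv ℝ (wd T s) x ζ‖ ≤ (1 / 2) ^ s.length * ‖ζ‖ := by
  induction s with
  | nil => rw [wd_nil, fderiv_id]; simp
  | cons b s ih =>
    rw [hT.wd_fderiv hS hK b s hx] at hζ ⊢
    have h1 : ‖(fderiv ℝ (wd T s) x ζ).1‖ ≤ ‖(fderiv ℝ (wd T s) x ζ).2‖ := by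
      by_contra hcon
      push Not at hcon
      have := hT.letter_strict hS hr hK hσ b (hT.wd_maps s hx) hcon
      exact absurd hζ (not_le.2 this)
    have h2 := hT.contr b _ (hT.wd_maps s hx) _ hζ
    calc ‖(fderiv ℝ (T b) (wd T s x)).comp (fderiv ℝ (wd T s) x) ζ‖
        ≤ 1 / 2 * ‖fderiv ℝ (wd T s) x ζ‖ := h2
      _ ≤ 1 / 2 * ((1 / 2) ^ s.length * ‖ζ‖) := by linarith [ih h1]
      _ = (1 / 2) ^ (b :: s).length * ‖ζ‖ := by rw [List.length_cons]; ring

end Letters

end General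

end Pool.Agent.Work.MP_429976_an
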